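import Pool.Agent.helper58.FS.Defs
import Pool.Agent.helper96.TC.H0
import Pool.Agent.helper88.TC.R

-- module by helper11

/-!
# [FS-M] Mayer-Vietoris for subsets, degree zero, homeomorphisms
-/

set_option autoImplicit false

open scoped Matrix
open Pool.Agent.helper73.TC

namespace Pool.Agent.helper58.FS

namespace M
variable (F : Type) [Field F] {X Y : Type} [TopologicalSpace X] [TopologicalSpace Y]

/-- boundaries are detected by maps with a left inverse -/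
theorem bdy_of_push (f : C(X, Y)) (g : C(Y, X)) (hgf : g.comp f = .id X) (n : ℕ) (z : SC F X n)
    (h : push F f n z ∈ bdy F Y n) : z ∈ bdy F X n := by
  have h1 := push_bdy F g n _ h
  rwa [← push_comp, hgf, h96_push_id] at h1

theorem hz_of_inv (f : C(X, Y)) (g : C(Y, X)) (hfg : f.comp g = .id Y) (n : ℕ)
    (h : HZ F X n) : HZ F Y n :=
  HZ_of_equiv F f g (by rw [hfg]) n h

theorem d0_of_inv (f : C(X, Y)) (g : C(Y, X)) (hfg : f.comp g = .id Y)
    (h : D0 F X) : D0 F Y := by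
  intro c hc
  refine bdy_of_push F g f hfg 0 c (h _ ?_)
  rw [R.sum_push]
  exact hc

/-- Mayer-Vietoris at `H_j(A ∩ B)`, for a cover -/
theorem bdy_inter_univ (A B : Set X) (hA : IsOpen A) (hB : IsOpen B) (hAB : A ∪ B = Set.univ)
    (j : ℕ) (z : SC F ↥(A ∩ B) j) (h1 : push F (incL A B) j z ∈ bdy F A j)
    (h2 : push F (incR A B) j z ∈ bdy F B j) (h3 : HZ F X (j + 1)) : z ∈ bdy F ↥(A ∩ B) j := by
  obtain ⟨a, ha⟩ := h1
  obtain ⟨b, hb⟩ := h2
  have hc : push F (inc A) (j + 1) a + push F (inc B) (j + 1) (-b) ∈ cyc F X (j + 1) := by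
    show bd F X j _ = 0
    rw [map_add, push_bd, push_bd, map_neg, ha, hb, map_neg, MV.push_inc_incL, add_neg_cancel]
  obtain ⟨u', v', huv⟩ := small_bdy F A B hA hB hAB (j + 1) a (-b) (h3 hc)
  rw [map_add, push_bd, push_bd, map_neg] at huv
  obtain ⟨e, he1, he2⟩ := MV.exists_inter F A B (j + 1) (a - bd F A (j + 1) u')
    (b + bd F B (j + 1) v') (by
      rw [map_sub, map_add, sub_eq_iff_eq_add, add_assoc, ← sub_eq_iff_eq_add', sub_eq_add_neg,
        huv]
      abel)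
  refine ⟨e, MV.push_incL_injective F A B j ?_⟩
  rw [← push_bd, he1, map_sub, ha]
  have h4 : bd F A j (bd F A (j + 1) u') = 0 := LinearMap.congr_fun (bd_bd F j) u'
  rw [h4, sub_zero]

/-- the point of the `0`-simplex -/
noncomputable def pt0 : stdSimplex ℝ (Fin (0 + 1)) := ⟨Pi.single 0 1, single_mem_stdSimplex ℝ 0⟩

end M

variable (F : Type) [Field F] {X Y : Type} [TopologicalSpace X] [TopologicalSpace Y]

theorem hz_homeo (e : X ≃ₜ Y) (j : ℕ) (h : HZ F X j) : HZ F Y j :=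
  M.hz_of_inv F (e : C(X, Y)) (e.symm : C(Y, X)) (by ext y; simp) j h

theorem d0_homeo (e : X ≃ₜ Y) (h : D0 F X) : D0 F Y :=
  M.d0_of_inv F (e : C(X, Y)) (e.symm : C(Y, X)) (by ext y; simp) h

theorem acyc_homeo (e : X ≃ₜ Y) (h : Acyc F X) : Acyc F Y where
  nonempty := h.nonempty.map e
  d0 := d0_homeo F e h.d0
  hz := fun j hj => hz_homeo F e j (h.hz j hj)

theorem d0_of_path [PathConnectedSpace X] : D0 F X := fun c hc => bdy_zero_of_path F c hc

theorem acyc_contractible [ContractibleSpace X] : Acyc F X where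
  nonempty := inferInstance
  d0 := d0_of_path F
  hz := fun j hj => HZ_of_contractible F j hj

theorem preconnected_of_d0 (h : D0 F X) : PreconnectedSpace X := by
  classical
  rw [preconnectedSpace_iff_clopen]
  intro s hs
  by_contra hcon
  push Not at hcon
  obtain ⟨hne, hnu⟩ := hcon
  obtain ⟨a, ha⟩ := hne
  obtain ⟨b, hb⟩ := (Set.ne_univ_iff_exists_notMem s).1 hnu
  let φ : SC F X 0 →ₗ[F] F :=
    Finsupp.linearCombination F (fun σ : Sing X 0 => if σ M.pt0 ∈ s then (1 : F) else 0)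
  have hφ : ∀ (σ : Sing X 0) (x : F), φ (Finsupp.single σ x) = if σ M.pt0 ∈ s then x else 0 := by
    intro σ x
    simp only [φ, Finsupp.linearCombination_single, smul_eq_mul]
    split_ifs <;> simp
  have hpc : PreconnectedSpace (stdSimplex ℝ (Fin 2)) :=
    Subtype.preconnectedSpace (convex_stdSimplex ℝ (Fin 2)).isPreconnected
  have hbd : ∀ w : SC F X 1, φ (bd F X 0 w) = 0 := by
    intro w
    induction w using Finsupp.induction_linear with
    | zero => simp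
    | add u v hu hv => rw [map_add, map_add, hu, hv, add_zero]
    | single τ x =>
      rw [h96_bd_single, Fin.sum_univ_two, map_add, map_smul, map_smul, hφ, hφ]
      rcases isClopen_iff.1 (hs.preimage τ.continuous) with h0 | h0
      · have h1 : ∀ t, τ t ∉ s := fun t ht => by
          have : t ∈ τ ⁻¹' s := ht
          rw [h0] at this
          exact this
        have e0 : ¬ (ContinuousMap.comp τ (faceMap 0 0)) M.pt0 ∈ s := h1 _
        have e1 : ¬ (ContinuousMap.comp τ (faceMap 0 1)) M.pt0 ∈ s := h1 _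
        rw [if_neg e0, if_neg e1]
        simp
      · have h1 : ∀ t, τ t ∈ s := fun t => by
          have : t ∈ τ ⁻¹' s := by rw [h0]; trivial
          exact this
        have e0 : (ContinuousMap.comp τ (faceMap 0 0)) M.pt0 ∈ s := h1 _
        have e1 : (ContinuousMap.comp τ (faceMap 0 1)) M.pt0 ∈ s := h1 _
        rw [if_pos e0, if_pos e1]
        simp
  let σa : Sing X 0 := ContinuousMap.const _ a
  let σb : Sing X 0 := ContinuousMap.const _ b
  obtain ⟨w, hw⟩ := h (Finsupp.single σa 1 + Finsupp.single σb (-1)) (by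
    rw [Finsupp.sum_add_index' (fun _ => rfl) (fun _ _ _ => rfl), Finsupp.sum_single_index rfl,
      Finsupp.sum_single_index rfl, add_neg_cancel])
  have h1 := hbd w
  rw [hw, map_add, hφ, hφ] at h1
  have h2 : σa M.pt0 ∈ s := ha
  have h3 : σb M.pt0 ∉ s := hb
  rw [if_pos h2, if_neg h3, add_zero] at h1
  exact one_ne_zero h1

/-- exactness of Mayer-Vietoris at `H_j(A ∩ B)` -/
theorem bdy_inter (A B : Set X) (hA : IsOpen A) (hB : IsOpen B) (j : ℕ)
    (z : SC F ↥(A ∩ B) j) (hz : z ∈ cyc F ↥(A ∩ B) j)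
    (h1 : push F (⟨fun x => ⟨x.1, x.2.1⟩, by fun_prop⟩ : C(↥(A ∩ B), A)) j z ∈ bdy F A j)
    (h2 : push F (⟨fun x => ⟨x.1, x.2.2⟩, by fun_prop⟩ : C(↥(A ∩ B), B)) j z ∈ bdy F B j)
    (h3 : HZ F ↥(A ∪ B) (j + 1)) : z ∈ bdy F ↥(A ∩ B) j := by
  clear hz
  let A' : Set ↥(A ∪ B) := {x | x.1 ∈ A}
  let B' : Set ↥(A ∪ B) := {x | x.1 ∈ B}
  have hA' : IsOpen A' := hA.preimage continuous_subtype_val
  have hB' : IsOpen B' := hB.preimage continuous_subtype_val
  have hAB : A' ∪ B' = Set.univ := by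
    ext x
    simp only [Set.mem_union, Set.mem_univ, iff_true]
    exact x.2
  let f : C(↥(A ∩ B), ↥(A' ∩ B')) := ⟨fun x => ⟨⟨x.1, Or.inl x.2.1⟩, x.2.1, x.2.2⟩, by fun_prop⟩
  let g : C(↥(A' ∩ B'), ↥(A ∩ B)) := ⟨fun x => ⟨x.1.1, x.2.1, x.2.2⟩, by fun_prop⟩
  let fA : C(A, A') := ⟨fun x => ⟨⟨x.1, Or.inl x.2⟩, x.2⟩, by fun_prop⟩
  let fB : C(B, B') := ⟨fun x => ⟨⟨x.1, Or.inr x.2⟩, x.2⟩, by fun_prop⟩
  refine M.bdy_of_push F f g rfl j z ?_
  refine M.bdy_inter_univ F A' B' hA' hB' hAB j _ ?_ ?_ h3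
  · have h4 := push_bdy F fA j _ h1
    rw [← push_comp] at h4 ⊢
    exact h4
  · have h4 := push_bdy F fB j _ h2
    rw [← push_comp] at h4 ⊢
    exact h4

theorem hz_inter (A B : Set X) (hA : IsOpen A) (hB : IsOpen B) (j : ℕ) (hj : 1 ≤ j)
    (h1 : HZ F A j) (h2 : HZ F B j) (h3 : HZ F ↥(A ∪ B) (j + 1)) : HZ F ↥(A ∩ B) j := by
  clear hj
  intro z hz
  exact bdy_inter F A B hA hB j z hz (h1 (push_cyc F _ j z hz)) (h2 (push_cyc F _ j z hz)) h3

theorem d0_inter (A B : Set X) (hA : IsOpen A) (hB : IsOpen B)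
    (h1 : D0 F A) (h2 : D0 F B) (h3 : HZ F ↥(A ∪ B) 1) : D0 F ↥(A ∩ B) := by
  intro z hz
  exact bdy_inter F A B hA hB 0 z trivial (h1 _ (by rw [R.sum_push]; exact hz))
    (h2 _ (by rw [R.sum_push]; exact hz)) h3

theorem ne_inter (A B : Set X) (hA : IsOpen A) (hB : IsOpen B) (h1 : A.Nonempty)
    (h2 : B.Nonempty) (h3 : D0 F ↥(A ∪ B)) : (A ∩ B).Nonempty := by
  have h4 : IsPreconnected (A ∪ B) :=
    isPreconnected_iff_preconnectedSpace.2 (preconnected_of_d0 F h3)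
  obtain ⟨a, ha⟩ := h1
  obtain ⟨b, hb⟩ := h2
  obtain ⟨x, -, hx⟩ := h4 A B hA hB subset_rfl ⟨a, Or.inl ha, ha⟩ ⟨b, Or.inr hb, hb⟩
  exact ⟨x, hx⟩

theorem acyc_inter (A B : Set X) (hA : IsOpen A) (hB : IsOpen B)
    (h1 : Acyc F A) (h2 : Acyc F B) (h3 : Acyc F ↥(A ∪ B)) : Acyc F ↥(A ∩ B) where
  nonempty := (ne_inter F A B hA hB (Set.nonempty_coe_sort.1 h1.nonempty)
    (Set.nonempty_coe_sort.1 h2.nonempty) h3.d0).to_subtype
  d0 := d0_inter F A B hA hB h1.d0 h2.d0 (h3.hz 1 le_rfl)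
  hz := fun j hj => hz_inter F A B hA hB j hj (h1.hz j hj) (h2.hz j hj) (h3.hz (j + 1) (by omega))

/-- Mayer-Vietoris in the other direction: homology of a union -/
theorem hz_union (A B : Set X) (hA : IsOpen A) (hB : IsOpen B) (hAB : A ∪ B = Set.univ) (j : ℕ)
    (hj : 1 ≤ j) (h1 : HZ F A j) (h2 : HZ F B j)
    (h3 : (2 ≤ j → HZ F ↥(A ∩ B) (j - 1)) ∧ (j = 1 → D0 F ↥(A ∩ B) ∧ (A ∩ B).Nonempty)) :
    HZ F X j := by
  intro z hz
  obtain ⟨n, rfl⟩ : ∃ n, j = n + 1 := ⟨j - 1, by omega⟩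
  obtain ⟨c, hc, hcA, hcB, H⟩ := mv2 F A B hA hB hAB n z hz
  have hcb : c ∈ bdy F ↥(A ∩ B) n := by
    rcases Nat.eq_zero_or_pos n with rfl | hpos
    · exact (h3.2 rfl).1 c (R.sum_zero_of_push F (incL A B) 0 c hcA rfl)
    · exact h3.1 (by omega) hc
  obtain ⟨a, ha, b, hb, hab⟩ := H hcb
  have := Submodule.add_mem _ hab
    (Submodule.add_mem _ (push_bdy F (inc A) (n + 1) a (h1 ha))
      (push_bdy F (inc B) (n + 1) b (h2 hb)))
  rwa [sub_add_cancel] at this

end Pool.Agent.helper58.FS
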