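import Pool.Agent.helper58.FS.Defs
import Pool.Agent.helper96.TC.H0
import Pool.Agent.helper88.TC.R
import Pool.Agent.helper58.FS.M

-- module by helper19

/-!
# [FS-S] spheres
-/

set_option autoImplicit false

open scoped Matrix
open Pool.Agent.helper73.TC

namespace Pool.Agent.helper58.FS

variable (F : Type) [Field F]

set_option linter.unusedVariables false in
theorem acyc_sphere_compl (d : ℕ) (hd : 2 ≤ d) (p : Metric.sphere (0 : EuclideanSpace ℝ (Fin d)) 1) :
    Acyc F ↥(({p} : Set (Metric.sphere (0 : EuclideanSpace ℝ (Fin d)) 1))ᶜ) := by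
  have hv : ‖(p : EuclideanSpace ℝ (Fin d))‖ = 1 := norm_eq_of_mem_sphere p
  have e : ↥(({p} : Set (Metric.sphere (0 : EuclideanSpace ℝ (Fin d)) 1))ᶜ) ≃ₜ
      ↥(Set.univ : Set ↥(Submodule.span ℝ {(p : EuclideanSpace ℝ (Fin d))})ᗮ) :=
    (stereographic hv).toHomeomorphSourceTarget
  have e2 := e.trans (Homeomorph.Set.univ _)
  have : ContractibleSpace ↥(({p} : Set (Metric.sphere (0 : EuclideanSpace ℝ (Fin d)) 1))ᶜ) :=
    e2.contractibleSpace
  exact acyc_contractible F

/-- the punctured space -/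
abbrev h19_P (m : ℕ) : Type := {x : Fin m → ℝ // x ≠ 0}

theorem h19_cont (m : ℕ) (i : Fin m) : Continuous fun x : h19_P m => x.1 i :=
  (continuous_apply i).comp continuous_subtype_val

/-- complement of the ray in direction `-ε e₀` -/
def h19_A (m : ℕ) (ε : ℝ) : Set (h19_P (m + 1)) :=
  {x | ¬ (Fin.tail x.1 = 0 ∧ ε * x.1 0 ≤ 0)}

theorem h19_A_open (m : ℕ) (ε : ℝ) : IsOpen (h19_A m ε) := by
  have : (h19_A m ε)ᶜ = {x : h19_P (m + 1) | Fin.tail x.1 = 0} ∩ {x | ε * x.1 0 ≤ 0} := by
    ext x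
    simp [h19_A]
  rw [← isClosed_compl_iff, this]
  apply IsClosed.inter
  · exact isClosed_eq (continuous_pi fun i => h19_cont _ _) continuous_const
  · exact isClosed_le (continuous_const.mul (h19_cont _ _)) continuous_const

theorem h19_A_contr (m : ℕ) {ε : ℝ} (hε : ε = 1 ∨ ε = -1) : ContractibleSpace (h19_A m ε) := by
  have hεε : ε * ε = 1 := by rcases hε with rfl | rfl <;> norm_num
  let A' : Set (Fin (m + 1) → ℝ) := {x | ¬ (Fin.tail x = 0 ∧ ε * x 0 ≤ 0)}
  have h0 : (Fin.cons ε 0 : Fin (m + 1) → ℝ) ∈ A' := by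
    simp only [A', Set.mem_ofPred_eq, Fin.cons_zero, hεε]
    intro h
    linarith [h.2]
  have hstar : StarConvex ℝ (Fin.cons ε 0 : Fin (m + 1) → ℝ) A' := by
    intro y hy a b ha hb hab
    simp only [A', Set.mem_ofPred_eq] at hy ⊢
    rintro ⟨h1, h2⟩
    have e1 : Fin.tail (a • (Fin.cons ε 0 : Fin (m + 1) → ℝ) + b • y) = b • Fin.tail y := by
      funext i
      simp [Fin.tail]
    have e2 : ε * (a • (Fin.cons ε 0 : Fin (m + 1) → ℝ) + b • y) 0 = a + b * (ε * y 0) := by
      simp only [Pi.add_apply, Pi.smul_apply, Fin.cons_zero, smul_eq_mul]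
      linear_combination a * hεε
    rw [e1] at h1
    rw [e2] at h2
    rcases eq_or_lt_of_le hb with hb0 | hb0
    · rw [← hb0] at h2 hab
      linarith
    · have h3 : Fin.tail y = 0 := (smul_eq_zero.1 h1).resolve_left hb0.ne'
      have h4 : 0 < ε * y 0 := by
        by_contra hc
        exact hy ⟨h3, not_lt.1 hc⟩
      have : 0 < b * (ε * y 0) := mul_pos hb0 h4
      linarith
  have : ContractibleSpace A' := hstar.contractibleSpace ⟨_, h0⟩
  let e : h19_A m ε ≃ₜ A' :=
    { toFun := fun x => ⟨x.1.1, x.2⟩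
      invFun := fun x => ⟨⟨x.1, fun h => x.2 (by rw [h]; exact ⟨rfl, by simp⟩)⟩, x.2⟩
      left_inv := fun x => rfl
      right_inv := fun x => rfl
      continuous_toFun := by fun_prop
      continuous_invFun := by fun_prop }
  exact e.contractibleSpace

theorem h19_union (m : ℕ) : h19_A m 1 ∪ h19_A m (-1) = Set.univ := by
  ext x
  simp only [h19_A, Set.mem_union, Set.mem_ofPred_eq, Set.mem_univ, iff_true]
  by_contra h
  push Not at h
  obtain ⟨⟨h1, h2⟩, -, h3⟩ := h
  apply x.2
  funext i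
  refine Fin.cases ?_ (fun j => ?_) i
  · show x.1 0 = 0
    linarith
  · exact congrFun h1 j

/-- the intersection is `{y ≠ 0}` -/
theorem h19_inter (m : ℕ) (x : h19_P (m + 1)) :
    x ∈ h19_A m 1 ∩ h19_A m (-1) ↔ Fin.tail x.1 ≠ 0 := by
  simp only [h19_A, Set.mem_inter_iff, Set.mem_ofPred_eq]
  constructor
  · rintro ⟨h1, h2⟩ h3
    rcases le_total (x.1 0) 0 with h | h
    · exact h1 ⟨h3, by linarith⟩
    · exact h2 ⟨h3, by linarith⟩
  · exact fun h => ⟨fun h' => h h'.1, fun h' => h h'.1⟩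

/-- `ℝ × P_m ≃ A ∩ B` -/
def h19_e (m : ℕ) : ℝ × h19_P m ≃ₜ ↥(h19_A m 1 ∩ h19_A m (-1)) where
  toFun p := ⟨⟨Fin.cons p.1 p.2.1, fun h => p.2.2 (by
    funext i
    simpa using congrFun h i.succ)⟩, (h19_inter m _).2 (by
      rw [Fin.tail_cons]
      exact p.2.2)⟩
  invFun x := ⟨x.1.1 0, Fin.tail x.1.1, (h19_inter m _).1 x.2⟩
  left_inv p := by simp
  right_inv x := by
    apply Subtype.ext
    apply Subtype.ext
    simp
  continuous_toFun := by
    refine Continuous.subtype_mk (Continuous.subtype_mk ?_ _) _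
    refine continuous_pi fun i => ?_
    refine Fin.cases ?_ (fun j => ?_) i
    · simp only [Fin.cons_zero]
      fun_prop
    · simp only [Fin.cons_succ]
      exact (h19_cont _ _).comp continuous_snd
  continuous_invFun :=
    ((h19_cont _ _).comp continuous_subtype_val).prodMk (Continuous.subtype_mk
      (continuous_pi fun i => (h19_cont _ _).comp continuous_subtype_val) _)

theorem h19_path (m : ℕ) (hm : 2 ≤ m) : PathConnectedSpace (h19_P m) := by
  have h := isPathConnected_compl_singleton_of_one_lt_rank (E := Fin m → ℝ)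
    (by
      rw [rank_fun', Fintype.card_fin]
      exact_mod_cast hm) 0
  exact isPathConnected_iff_pathConnectedSpace.1 h

theorem h19_hz (m : ℕ) : ∀ j : ℕ, 1 ≤ j → j + 1 < m → HZ F (h19_P m) j := by
  induction m with
  | zero =>
    intro j _ h
    omega
  | succ m ih =>
    intro j hj hjm
    have hc1 := h19_A_contr m (ε := 1) (Or.inl rfl)
    have hc2 := h19_A_contr m (ε := -1) (Or.inr rfl)
    refine hz_union F (h19_A m 1) (h19_A m (-1)) (h19_A_open m 1) (h19_A_open m (-1))
      (h19_union m) j hj (HZ_of_contractible F j hj) (HZ_of_contractible F j hj) ⟨?_, ?_⟩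
    · intro h2
      have h := ih (j - 1) (by omega) (by omega)
      have h' : HZ F (ℝ × h19_P m) (j - 1) := by
        refine HZ_of_equiv F (⟨fun y => (0, y), by fun_prop⟩ : C(h19_P m, ℝ × h19_P m))
          (⟨fun p => p.2, by fun_prop⟩ : C(ℝ × h19_P m, h19_P m)) ?_ (j - 1) h
        refine ⟨⟨⟨fun q => (q.1.1 * q.2.1, q.2.2), by fun_prop⟩, ?_, ?_⟩⟩
        · intro x
          simp
        · intro x
          simp
      exact hz_homeo F (h19_e m) (j - 1) h'
    · rintro rfl
      have := h19_path m (by omega)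
      have hp : PathConnectedSpace ↥(h19_A m 1 ∩ h19_A m (-1)) :=
        (h19_e m).surjective.pathConnectedSpace (h19_e m).continuous
      refine ⟨d0_of_path F, ?_⟩
      exact Set.nonempty_coe_sort.1 hp.nonempty

theorem hz_sphere (d : ℕ) (j : ℕ) (hj : 1 ≤ j) (hjd : j + 1 < d) :
    HZ F (Metric.sphere (0 : EuclideanSpace ℝ (Fin d)) 1) j := by
  have h := h19_hz F d j hj hjd
  let f : C(h19_P d, Metric.sphere (0 : EuclideanSpace ℝ (Fin d)) 1) :=
    ⟨fun x => ⟨‖WithLp.toLp 2 x.1‖⁻¹ • WithLp.toLp 2 x.1, by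
      have hx : ‖(WithLp.toLp 2 x.1 : EuclideanSpace ℝ (Fin d))‖ ≠ 0 := by
        rw [norm_ne_zero_iff]
        intro h
        apply x.2
        exact (WithLp.toLp_eq_zero 2).1 h
      rw [mem_sphere_zero_iff_norm, norm_smul, norm_inv, norm_norm, inv_mul_cancel₀ hx]⟩, by
      refine Continuous.subtype_mk ?_ _
      have hc : Continuous fun x : h19_P d => (WithLp.toLp 2 x.1 : EuclideanSpace ℝ (Fin d)) :=
        (PiLp.continuous_toLp 2 _).comp continuous_subtype_val
      refine Continuous.smul (Continuous.inv₀ hc.norm ?_) hc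
      intro x
      rw [norm_ne_zero_iff]
      intro h
      exact x.2 ((WithLp.toLp_eq_zero 2).1 h)⟩
  let g : C(Metric.sphere (0 : EuclideanSpace ℝ (Fin d)) 1, h19_P d) :=
    ⟨fun x => ⟨WithLp.ofLp x.1, fun h => by
      have h1 : ‖(x : EuclideanSpace ℝ (Fin d))‖ = 1 := norm_eq_of_mem_sphere x
      have h2 : (x : EuclideanSpace ℝ (Fin d)) = 0 := (WithLp.ofLp_eq_zero 2).1 h
      rw [h2, norm_zero] at h1
      exact zero_ne_one h1⟩, by fun_prop⟩
  have hfg : f.comp g = .id _ := by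
    ext1 x
    apply Subtype.ext
    have h1 : ‖(x : EuclideanSpace ℝ (Fin d))‖ = 1 := norm_eq_of_mem_sphere x
    show ‖(x : EuclideanSpace ℝ (Fin d))‖⁻¹ • (x : EuclideanSpace ℝ (Fin d)) = x
    rw [h1, inv_one, one_smul]
  exact HZ_of_equiv F f g (by rw [hfg]) j h

theorem d0_sphere (d : ℕ) (hd : 2 ≤ d) :
    D0 F (Metric.sphere (0 : EuclideanSpace ℝ (Fin d)) 1) := by
  have h := isPathConnected_sphere (E := EuclideanSpace ℝ (Fin d)) (x := 0) (r := 1)
    (by
      have h1 : Module.rank ℝ (EuclideanSpace ℝ (Fin d)) = d := by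
        rw [← Module.finrank_eq_rank, finrank_euclideanSpace_fin]
      rw [h1]
      exact_mod_cast hd) zero_le_one
  have := isPathConnected_iff_pathConnectedSpace.1 h
  exact d0_of_path F

end Pool.Agent.helper58.FS
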