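import Pool.Agent.helper58.FS.Defs
import Pool.Agent.helper96.TC.H0
import Pool.Agent.helper88.TC.R

/-! # [FS-J1] compact supports of singular chains -/

set_option autoImplicit false

open Pool.Agent.helper73.TC

namespace Pool.Agent.helper58.FS

section
variable (F : Type) [Field F]

theorem h58_push_injective {Y Z : Type} [TopologicalSpace Y] [TopologicalSpace Z] (f : C(Y, Z))
    (hf : Function.Injective f) (n : ℕ) : Function.Injective (push F f n) := by
  refine Finsupp.mapDomain_injective ?_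
  intro σ τ h
  ext x
  apply hf
  have := congrArg (fun g => g x) h
  exact this

theorem h58_lift {Y Z : Type} [TopologicalSpace Y] [TopologicalSpace Z] (f : C(Y, Z)) (n : ℕ)
    (w : SC F Z n) (h : ∀ σ ∈ w.support, ∃ σ' : Sing Y n, f.comp σ' = σ) :
    ∃ w' : SC F Y n, push F f n w' = w := by
  change w ∈ LinearMap.range (push F f n)
  rw [← Finsupp.sum_single w]
  refine Submodule.sum_mem _ fun σ hσ => ?_
  obtain ⟨σ', rfl⟩ := h σ hσ
  exact ⟨Finsupp.single σ' (w (f.comp σ')), h96_push_single F f n σ' _⟩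

end

section
variable (F : Type) [Field F] {X : Type} [TopologicalSpace X] [T2Space X]

/-- compact supports -/
theorem jb_limit (A : ℕ → Set X) (hA : ∀ i, IsCompact (A i)) (hmono : ∀ i, A (i + 1) ⊆ A i)
    (j : ℕ) (z : SC F ↥((A 0)ᶜ) j)
    (hz : push F (⟨Set.inclusion (Set.compl_subset_compl.2 (Set.iInter_subset A 0)),
        continuous_inclusion _⟩ : C(↥((A 0)ᶜ), ↥((⋂ i, A i)ᶜ))) j z ∈ bdy F ↥((⋂ i, A i)ᶜ) j) :
    ∃ (i : ℕ) (hi : A i ⊆ A 0), push F (⟨Set.inclusion (Set.compl_subset_compl.2 hi),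
        continuous_inclusion _⟩ : C(↥((A 0)ᶜ), ↥((A i)ᶜ))) j z ∈ bdy F ↥((A i)ᶜ) j := by
  obtain ⟨w, hw⟩ := hz
  have hanti : Antitone A := antitone_nat_of_succ_le hmono
  set S : Set X := ⋃ σ ∈ w.support, Set.range (fun x => ((σ x : ↥((⋂ i, A i)ᶜ)) : X)) with hS
  have hSc : IsCompact S := by
    refine w.support.finite_toSet.isCompact_biUnion fun σ _ => ?_
    exact isCompact_range (continuous_subtype_val.comp σ.continuous)
  obtain ⟨i, hi⟩ : ∃ i, A i ∩ S = ∅ := by
    by_contra hcon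
    push Not at hcon
    have hne : (⋂ i, A i ∩ S).Nonempty :=
      IsCompact.nonempty_iInter_of_sequence_nonempty_isCompact_isClosed (fun i => A i ∩ S)
        (fun i => Set.inter_subset_inter_left _ (hmono i))
        hcon ((hA 0).inter hSc)
        (fun i => ((hA i).inter hSc).isClosed)
    obtain ⟨x, hx⟩ := hne
    rw [Set.mem_iInter] at hx
    obtain ⟨σ, _, y, hy⟩ := Set.mem_iUnion₂.1 (hx 0).2
    have h1 : x ∈ (⋂ i, A i)ᶜ := by rw [← hy]; exact (σ y).2
    exact h1 (Set.mem_iInter.2 fun i => (hx i).1)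
  have hi0 : A i ⊆ A 0 := hanti (Nat.zero_le i)
  refine ⟨i, hi0, ?_⟩
  let ι : C(↥((A i)ᶜ), ↥((⋂ i, A i)ᶜ)) :=
    ⟨Set.inclusion (Set.compl_subset_compl.2 (Set.iInter_subset A i)), continuous_inclusion _⟩
  obtain ⟨w', hw'⟩ := h58_lift F ι (j + 1) w (by
    intro σ hσ
    have hnot : ∀ x, ((σ x : ↥((⋂ i, A i)ᶜ)) : X) ∈ (A i)ᶜ := by
      intro x hx
      have : ((σ x : ↥((⋂ i, A i)ᶜ)) : X) ∈ A i ∩ S :=
        ⟨hx, Set.mem_iUnion₂.2 ⟨σ, hσ, x, rfl⟩⟩
      rw [hi] at this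
      exact this
    refine ⟨⟨fun x => ⟨((σ x : ↥((⋂ i, A i)ᶜ)) : X), hnot x⟩, ?_⟩, ?_⟩
    · exact (continuous_subtype_val.comp σ.continuous).subtype_mk hnot
    · ext x
      rfl)
  refine ⟨w', ?_⟩
  apply h58_push_injective F ι (Set.inclusion_injective (Set.compl_subset_compl.2 (Set.iInter_subset A i))) j
  rw [← push_bd, hw', hw, ← push_comp]
  rfl

end

end Pool.Agent.helper58.FS
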