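import Pool.Agent.helper58.FS.Defs
import Pool.Agent.helper96.TC.H0
import Pool.Agent.helper88.TC.R
import Pool.Agent.helper58.FS.M
import Pool.Agent.helper58.FS.J1

-- module by helper10

/-!
# [FS-J2] complements of compact sets with convex image are acyclic
-/

set_option autoImplicit false
set_option linter.unusedSectionVars false

open scoped Matrix
open Pool.Agent.helper73.TC

namespace Pool.Agent.helper58.FS

namespace J2

/-- bisection -/
theorem bisect (P : ℝ → ℝ → Prop) (a b : ℝ) (hab : a ≤ b) (h0 : P a b)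
    (hstep : ∀ s t, a ≤ s → s ≤ t → t ≤ b → P s t → P s ((s + t) / 2) ∨ P ((s + t) / 2) t) :
    ∃ (s t : ℕ → ℝ) (c : ℝ), (∀ i, a ≤ s i ∧ s i ≤ t i ∧ t i ≤ b ∧ s i ≤ s (i + 1) ∧
      t (i + 1) ≤ t i ∧ P (s i) (t i)) ∧ a ≤ c ∧ c ≤ b ∧
      ∀ x : ℝ, (∀ i, s i ≤ x ∧ x ≤ t i) ↔ x = c := by
  classical
  -- the state
  let St := {p : ℝ × ℝ // a ≤ p.1 ∧ p.1 ≤ p.2 ∧ p.2 ≤ b ∧ P p.1 p.2}
  have hex : ∀ p : St, ∃ q : St, p.1.1 ≤ q.1.1 ∧ q.1.2 ≤ p.1.2 ∧
      q.1.2 - q.1.1 = (p.1.2 - p.1.1) / 2 := by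
    rintro ⟨⟨s, t⟩, h1, h2, h3, h4⟩
    simp only at h1 h2 h3 h4
    rcases hstep s t h1 h2 h3 h4 with h | h
    · refine ⟨⟨(s, (s + t) / 2), h1, ?_, ?_, h⟩, le_refl _, ?_, ?_⟩ <;> simp only <;> linarith
    · refine ⟨⟨((s + t) / 2, t), ?_, ?_, h3, h⟩, ?_, le_refl _, ?_⟩ <;> simp only <;> linarith
  choose nx hnx1 hnx2 hnx3 using hex
  let p0 : St := ⟨(a, b), le_refl _, hab, le_refl _, h0⟩
  let u : ℕ → St := fun i => nx^[i] p0
  have hu : ∀ i, u (i + 1) = nx (u i) := fun i => by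
    simp only [u, Function.iterate_succ_apply']
  have hmono1 : Monotone fun i => (u i).1.1 := monotone_nat_of_le_succ fun i => by
    rw [hu]; exact hnx1 _
  have hmono2 : Antitone fun i => (u i).1.2 := antitone_nat_of_succ_le fun i => by
    rw [hu]; exact hnx2 _
  have hlen : ∀ i, (u i).1.2 - (u i).1.1 = (b - a) / 2 ^ i := by
    intro i
    induction i with
    | zero => simp [u, p0]
    | succ i ih => rw [hu, hnx3, ih, pow_succ]; ring
  have hle : ∀ i j, (u i).1.1 ≤ (u j).1.2 := by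
    intro i j
    rcases le_total i j with h | h
    · exact (hmono1 h).trans (u j).2.2.1
    · exact (u i).2.2.1.trans (hmono2 h)
  set c := ⨆ i, (u i).1.1 with hc
  have hbdd : BddAbove (Set.range fun i => (u i).1.1) := ⟨(u 0).1.2, by
    rintro _ ⟨i, rfl⟩; exact hle i 0⟩
  have hc1 : ∀ i, (u i).1.1 ≤ c := fun i => le_ciSup hbdd i
  have hc2 : ∀ i, c ≤ (u i).1.2 := fun i => ciSup_le fun j => hle j i
  refine ⟨fun i => (u i).1.1, fun i => (u i).1.2, c, fun i => ⟨(u i).2.1, (u i).2.2.1, (u i).2.2.2.1,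
    hmono1 (Nat.le_succ i), hmono2 (Nat.le_succ i), (u i).2.2.2.2⟩, (u 0).2.1.trans (hc1 0),
    (hc2 0).trans (u 0).2.2.2.1, fun x => ⟨fun hx => ?_, fun hx i => ?_⟩⟩
  · have hlim : Filter.Tendsto (fun i : ℕ => (b - a) / 2 ^ i) Filter.atTop (nhds 0) := by
      have := (tendsto_pow_atTop_nhds_zero_of_lt_one (r := (1 / 2 : ℝ)) (by norm_num)
        (by norm_num)).const_mul (b - a)
      rw [mul_zero] at this
      refine this.congr fun i => ?_
      rw [one_div, inv_pow, div_eq_mul_inv]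
    have h1 : |x - c| ≤ 0 := by
      refine ge_of_tendsto hlim (Filter.Eventually.of_forall fun i => ?_)
      rw [← hlen i, abs_le]
      constructor
      · have := (hx i).1; have := hc2 i; linarith
      · have := (hx i).2; have := hc1 i; linarith
    have h2 := abs_nonpos_iff.1 h1
    linarith
  · rw [hx]; exact ⟨hc1 i, hc2 i⟩

variable (F : Type) [Field F] {X : Type} [TopologicalSpace X]

/-- push along an inclusion -/
noncomputable def rs {S T : Set X} (h : S ⊆ T) (j : ℕ) : SC F S j →ₗ[F] SC F T j :=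
  push F (⟨Set.inclusion h, continuous_inclusion h⟩ : C(S, T)) j

theorem rs_rs {S T U : Set X} (h : S ⊆ T) (h' : T ⊆ U) (h'' : S ⊆ U) (j : ℕ) (z : SC F S j) :
    rs F h' j (rs F h j z) = rs F h'' j z := by
  unfold rs
  rw [← push_comp]
  rfl

theorem rs_self {S : Set X} (h : S ⊆ S) (j : ℕ) (z : SC F S j) : rs F h j z = z :=
  h96_push_id F j z

theorem rs_bdy {S T : Set X} (h : S ⊆ T) (j : ℕ) (z : SC F S j) (hz : z ∈ bdy F S j) :
    rs F h j z ∈ bdy F T j := push_bdy F _ j z hz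

theorem rs_cyc {S T : Set X} (h : S ⊆ T) (j : ℕ) (z : SC F S j) (hz : z ∈ cyc F S j) :
    rs F h j z ∈ cyc F T j := push_cyc F _ j z hz

/-- slab -/
def AI {X : Type} (A : Set X) (φ : X → ℝ) (s t : ℝ) : Set X := A ∩ φ ⁻¹' Set.Icc s t

theorem AI_sub (A : Set X) (φ : X → ℝ) (s t : ℝ) : AI A φ s t ⊆ A := Set.inter_subset_left

theorem AI_mono (A : Set X) (φ : X → ℝ) (s t s' t' : ℝ) (h : s ≤ s') (h' : t' ≤ t) :
    AI A φ s' t' ⊆ AI A φ s t := fun _ hx => ⟨hx.1, h.trans hx.2.1, hx.2.2.trans h'⟩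

theorem AI_compact [T2Space X] (A : Set X) (φ : X → ℝ) (hφ : Continuous φ) (hA : IsCompact A)
    (s t : ℝ) : IsCompact (AI A φ s t) := hA.inter_right (isClosed_Icc.preimage hφ)

theorem AI_inter (A : Set X) (φ : X → ℝ) (s c t : ℝ) (hsc : s ≤ c) (hct : c ≤ t) :
    (AI A φ s c)ᶜ ∪ (AI A φ c t)ᶜ = (AI A φ c c)ᶜ := by
  rw [← Set.compl_inter]
  congr 1
  ext x
  simp only [AI, Set.mem_inter_iff, Set.mem_preimage, Set.mem_Icc]
  constructor
  · rintro ⟨⟨h1, h2, h3⟩, _, h4, h5⟩; exact ⟨h1, h4, h3⟩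
  · rintro ⟨h1, h2, h3⟩; exact ⟨⟨h1, hsc.trans h2, h3⟩, h1, h2, h3.trans hct⟩

theorem AI_union (A : Set X) (φ : X → ℝ) (s c t : ℝ) (hsc : s ≤ c) (hct : c ≤ t) :
    (AI A φ s c)ᶜ ∩ (AI A φ c t)ᶜ = (AI A φ s t)ᶜ := by
  rw [← Set.compl_union]
  congr 1
  ext x
  simp only [AI, Set.mem_union, Set.mem_inter_iff, Set.mem_preimage, Set.mem_Icc]
  constructor
  · rintro (⟨h1, h2, h3⟩ | ⟨h1, h2, h3⟩)
    · exact ⟨h1, h2, h3.trans hct⟩
    · exact ⟨h1, hsc.trans h2, h3⟩
  · rintro ⟨h1, h2, h3⟩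
    rcases le_total (φ x) c with h | h
    · exact Or.inl ⟨h1, h2, h⟩
    · exact Or.inr ⟨h1, h, h3⟩

variable [T2Space X]

/-- the bisection argument -/
theorem key (A : Set X) (φ : X → ℝ) (hφ : Continuous φ) (hA : IsCompact A) (a b : ℝ) (hab : a ≤ b)
    (hAab : A ⊆ AI A φ a b) (j : ℕ) (z : SC F ↥(Aᶜ) j) (hz : z ∈ cyc F ↥(Aᶜ) j)
    (h0 : ∀ c, a ≤ c → c ≤ b → rs F (Set.compl_subset_compl.2 (AI_sub A φ c c)) j z ∈
      bdy F ↥((AI A φ c c)ᶜ) j)
    (hup : ∀ c, a ≤ c → c ≤ b → HZ F ↥((AI A φ c c)ᶜ) (j + 1)) : z ∈ bdy F ↥(Aᶜ) j := by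
  by_contra hcon
  let P : ℝ → ℝ → Prop := fun s t =>
    rs F (Set.compl_subset_compl.2 (AI_sub A φ s t)) j z ∉ bdy F ↥((AI A φ s t)ᶜ) j
  have hP0 : P a b := by
    intro h
    apply hcon
    have := rs_bdy F (Set.compl_subset_compl.2 hAab) j _ h
    rwa [rs_rs F _ _ (subset_refl _), rs_self] at this
  have hstep : ∀ s t, a ≤ s → s ≤ t → t ≤ b → P s t →
      P s ((s + t) / 2) ∨ P ((s + t) / 2) t := by
    intro s t has hst htb hP
    by_contra hno
    rw [not_or] at hno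
    obtain ⟨h1, h2⟩ := hno
    simp only [P, not_not] at h1 h2
    apply hP
    set c := (s + t) / 2 with hc
    have hsc : s ≤ c := by rw [hc]; linarith
    have hct : c ≤ t := by rw [hc]; linarith
    have hsub : Aᶜ ⊆ (AI A φ s c)ᶜ ∩ (AI A φ c t)ᶜ := Set.subset_inter
      (Set.compl_subset_compl.2 (AI_sub A φ s c)) (Set.compl_subset_compl.2 (AI_sub A φ c t))
    have hb : rs F hsub j z ∈ bdy F ↥((AI A φ s c)ᶜ ∩ (AI A φ c t)ᶜ) j := by
      refine bdy_inter F _ _ (AI_compact A φ hφ hA s c).isClosed.isOpen_compl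
        (AI_compact A φ hφ hA c t).isClosed.isOpen_compl j _ (rs_cyc F _ j z hz) ?_ ?_ ?_
      · have : rs F Set.inter_subset_left j (rs F hsub j z) ∈ bdy F ↥((AI A φ s c)ᶜ) j := by
          rw [rs_rs F _ _ (Set.compl_subset_compl.2 (AI_sub A φ s c))]; exact h1
        exact this
      · have : rs F Set.inter_subset_right j (rs F hsub j z) ∈ bdy F ↥((AI A φ c t)ᶜ) j := by
          rw [rs_rs F _ _ (Set.compl_subset_compl.2 (AI_sub A φ c t))]; exact h2
        exact this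
      · rw [AI_inter A φ s c t hsc hct]
        exact hup c (has.trans hsc) (hct.trans htb)
    have := rs_bdy F (AI_union A φ s c t hsc hct).subset j _ hb
    rwa [rs_rs F _ _ (Set.compl_subset_compl.2 (AI_sub A φ s t))] at this
  obtain ⟨s, t, c, hst, hac, hcb, hx⟩ := bisect P a b hab hP0 hstep
  have hI : ⋂ i, AI A φ (s i) (t i) = AI A φ c c := by
    ext x
    simp only [AI, Set.mem_iInter, Set.mem_inter_iff, Set.mem_preimage, Set.mem_Icc]
    constructor
    · intro h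
      have h1 := (hx (φ x)).1 fun i => (h i).2
      exact ⟨(h 0).1, h1.ge, h1.le⟩
    · rintro ⟨h1, h2, h3⟩ i
      exact ⟨h1, (hx (φ x)).2 (le_antisymm h3 h2) i⟩
  obtain ⟨i, hi, hb⟩ := jb_limit F (fun i => AI A φ (s i) (t i))
    (fun i => AI_compact A φ hφ hA _ _)
    (fun i => AI_mono A φ _ _ _ _ (hst i).2.2.2.1 (hst i).2.2.2.2.1) j
    (rs F (Set.compl_subset_compl.2 (AI_sub A φ (s 0) (t 0))) j z) (by
      have h1 := rs_bdy F (Set.compl_subset_compl.2 hI.subset) j _ (h0 c hac hcb)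
      have hsub : Aᶜ ⊆ (⋂ i, AI A φ (s i) (t i))ᶜ := by
        rw [hI]; exact Set.compl_subset_compl.2 (AI_sub A φ c c)
      have h2 : rs F (Set.compl_subset_compl.2 (Set.iInter_subset
          (fun i => AI A φ (s i) (t i)) 0)) j
          (rs F (Set.compl_subset_compl.2 (AI_sub A φ (s 0) (t 0))) j z) ∈
          bdy F ↥((⋂ i, AI A φ (s i) (t i))ᶜ) j := by
        rw [rs_rs F _ _ hsub]
        rwa [rs_rs F _ _ hsub] at h1
      exact h2)
  refine (hst i).2.2.2.2.2 ?_
  have h3 : rs F (Set.compl_subset_compl.2 hi) j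
      (rs F (Set.compl_subset_compl.2 (AI_sub A φ (s 0) (t 0))) j z) ∈
      bdy F ↥((AI A φ (s i) (t i))ᶜ) j := hb
  rwa [rs_rs F _ _ (Set.compl_subset_compl.2 (AI_sub A φ (s i) (t i)))] at h3

theorem key_ne (A : Set X) (φ : X → ℝ) (hφ : Continuous φ) (hA : IsCompact A) (a b : ℝ)
    (hab : a ≤ b) (hAab : A ⊆ AI A φ a b)
    (h0 : ∀ c, a ≤ c → c ≤ b → Acyc F ↥((AI A φ c c)ᶜ)) : (Aᶜ).Nonempty := by
  by_contra hcon
  rw [Set.not_nonempty_iff_eq_empty] at hcon
  let P : ℝ → ℝ → Prop := fun s t => (AI A φ s t)ᶜ = ∅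
  have hP0 : P a b := by
    simp only [P]
    rw [← Set.subset_empty_iff, ← hcon]
    exact Set.compl_subset_compl.2 hAab
  obtain ⟨s, t, c, hst, hac, hcb, hx⟩ := bisect P a b hab hP0 (by
    intro s t has hst htb hP
    by_contra hno
    rw [not_or] at hno
    obtain ⟨h1, h2⟩ := hno
    set c := (s + t) / 2 with hc
    have hsc : s ≤ c := by rw [hc]; linarith
    have hct : c ≤ t := by rw [hc]; linarith
    have h3 := ne_inter F _ _ (AI_compact A φ hφ hA s c).isClosed.isOpen_compl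
      (AI_compact A φ hφ hA c t).isClosed.isOpen_compl (Set.nonempty_iff_ne_empty.2 h1)
      (Set.nonempty_iff_ne_empty.2 h2) (by
        rw [AI_inter A φ s c t hsc hct]
        exact (h0 c (has.trans hsc) (hct.trans htb)).d0)
    rw [AI_union A φ s c t hsc hct] at h3
    exact h3.ne_empty hP)
  obtain ⟨⟨x, hxc⟩⟩ := (h0 c hac hcb).nonempty
  apply hxc
  have hmem : ∀ i, x ∈ AI A φ (s i) (t i) := by
    intro i
    have h4 : (AI A φ (s i) (t i))ᶜ = ∅ := (hst i).2.2.2.2.2
    by_contra h5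
    have h6 : x ∈ (AI A φ (s i) (t i))ᶜ := h5
    rw [h4] at h6
    exact h6
  have h7 := (hx (φ x)).1 fun i => (hmem i).2
  exact ⟨(hmem 0).1, h7.ge, h7.le⟩

end J2

open J2

variable (F : Type) [Field F] {X : Type} [TopologicalSpace X] [T2Space X]

theorem jb {n : ℕ} (g : X → Fin n → ℝ) (hg : Continuous g) (hinj : Function.Injective g)
    (hp : ∀ p : X, Acyc F ↥(({p} : Set X)ᶜ)) (A : Set X) (hA : IsCompact A) (hne : A.Nonempty)
    (hconv : Convex ℝ (g '' A)) : Acyc F ↥(Aᶜ) := by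
  classical
  -- induction on the number of nonconstant coordinates
  suffices H : ∀ k : ℕ, ∀ A : Set X, IsCompact A → A.Nonempty → Convex ℝ (g '' A) →
      (Finset.univ.filter fun i : Fin n => ∃ x ∈ A, ∃ y ∈ A, g x i < g y i).card = k →
      Acyc F ↥(Aᶜ) from H _ A hA hne hconv rfl
  intro k
  induction k using Nat.strong_induction_on with
  | _ k ih =>
    intro A hA hne hconv hk
    by_cases hk0 : (Finset.univ.filter fun i : Fin n => ∃ x ∈ A, ∃ y ∈ A, g x i < g y i) = ∅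
    · obtain ⟨p, hpA⟩ := hne
      have hAp : A = {p} := by
        ext x
        constructor
        · intro hx
          apply hinj
          funext i
          have h1 : i ∉ (Finset.univ.filter fun i : Fin n => ∃ x ∈ A, ∃ y ∈ A, g x i < g y i) := by
            rw [hk0]; simp
          simp only [Finset.mem_filter, Finset.mem_univ, true_and, not_exists, not_and, not_lt]
            at h1
          exact le_antisymm (h1 p hpA x hx) (h1 x hx p hpA)
        · rintro rfl; exact hpA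
      rw [hAp]
      exact hp p
    · obtain ⟨i, hi⟩ := Finset.nonempty_iff_ne_empty.2 hk0
      obtain ⟨x0, hx0, y0, hy0, hxy⟩ := (Finset.mem_filter.1 hi).2
      let φ : X → ℝ := fun x => g x i
      have hφ : Continuous φ := (continuous_apply i).comp hg
      obtain ⟨xa, hxa, hxa'⟩ := hA.exists_isMinOn hne hφ.continuousOn
      obtain ⟨xb, hxb, hxb'⟩ := hA.exists_isMaxOn hne hφ.continuousOn
      have hab : φ xa ≤ φ xb := hxa' hxb
      have hAab : A ⊆ AI A φ (φ xa) (φ xb) := fun x hx => ⟨hx, hxa' hx, hxb' hx⟩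
      have hslice : ∀ c, φ xa ≤ c → c ≤ φ xb → Acyc F ↥((AI A φ c c)ᶜ) := by
        intro c hac hcb
        have hmem : ∀ x, x ∈ AI A φ c c ↔ x ∈ A ∧ g x i = c := by
          intro x
          simp only [AI, Set.mem_inter_iff, Set.mem_preimage, Set.mem_Icc, φ]
          constructor
          · rintro ⟨h1, h2, h3⟩; exact ⟨h1, le_antisymm h3 h2⟩
          · rintro ⟨h1, h2⟩; exact ⟨h1, h2.ge, h2.le⟩
        have himg : g '' (AI A φ c c) = g '' A ∩ {y | y i = c} := by
          ext y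
          constructor
          · rintro ⟨x, hx, rfl⟩
            exact ⟨⟨x, ((hmem x).1 hx).1, rfl⟩, ((hmem x).1 hx).2⟩
          · rintro ⟨⟨x, hx, rfl⟩, hy⟩
            exact ⟨x, (hmem x).2 ⟨hx, hy⟩, rfl⟩
        have hc' : Convex ℝ (g '' (AI A φ c c)) := by
          rw [himg]
          refine hconv.inter ?_
          intro u hu v hv α β hα hβ hαβ
          simp only [Set.mem_ofPred_eq, Pi.add_apply, Pi.smul_apply, smul_eq_mul] at *
          rw [hu, hv, ← add_mul, hαβ, one_mul]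
        have hne' : (AI A φ c c).Nonempty := by
          have hcn : IsPreconnected ((fun y : Fin n → ℝ => y i) '' (g '' A)) :=
            (hconv.isPreconnected).image _ (continuous_apply i).continuousOn
          have := hcn.Icc_subset (a := φ xa) (b := φ xb) ⟨g xa, ⟨xa, hxa, rfl⟩, rfl⟩
            ⟨g xb, ⟨xb, hxb, rfl⟩, rfl⟩ ⟨hac, hcb⟩
          obtain ⟨_, ⟨x, hx, rfl⟩, hy⟩ := this
          exact ⟨x, (hmem x).2 ⟨hx, hy⟩⟩
        refine ih _ ?_ (AI A φ c c) (AI_compact A φ hφ hA c c) hne' hc' rfl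
        rw [← hk]
        apply Finset.card_lt_card
        rw [Finset.ssubset_iff_of_subset]
        · refine ⟨i, hi, ?_⟩
          simp only [Finset.mem_filter, Finset.mem_univ, true_and, not_exists, not_and, not_lt]
          intro x hx y hy
          rw [((hmem x).1 hx).2, ((hmem y).1 hy).2]
        · intro l hl
          obtain ⟨x, hx, y, hy, hxy⟩ := (Finset.mem_filter.1 hl).2
          exact Finset.mem_filter.2 ⟨Finset.mem_univ _, x, ((hmem x).1 hx).1, y,
            ((hmem y).1 hy).1, hxy⟩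
      refine ⟨?_, ?_, ?_⟩
      · exact (key_ne F A φ hφ hA _ _ hab hAab hslice).to_subtype
      · intro z hz0
        refine key F A φ hφ hA _ _ hab hAab 0 z (Submodule.mem_top) ?_ ?_
        · intro c hac hcb
          refine (hslice c hac hcb).d0 _ ?_
          unfold rs
          rw [R.sum_push]
          exact hz0
        · intro c hac hcb
          exact (hslice c hac hcb).hz 1 le_rfl
      · intro j hj z hz
        refine key F A φ hφ hA _ _ hab hAab j z hz ?_ ?_
        · intro c hac hcb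
          exact (hslice c hac hcb).hz j hj (rs_cyc F _ j z hz)
        · intro c hac hcb
          exact (hslice c hac hcb).hz (j + 1) (by omega)

end Pool.Agent.helper58.FS
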