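import Pool.Agent.helper58.FS.Defs

-- module by helper32

set_option autoImplicit false

open scoped Matrix
open Pool.Agent.helper73.TC

namespace Pool.Agent.helper58.FS

variable {n : ℕ} (Δ : Finset (Finset (Fin n)))

private theorem h32_mem_supp (x : Fin n → ℝ) (i : Fin n) : i ∈ supp x ↔ x i ≠ 0 := by
  simp [supp]

private theorem h32_supp_sub (x : Fin n → ℝ) (τ : Finset (Fin n)) :
    supp x ⊆ τ ↔ ∀ i, i ∉ τ → x i = 0 := by
  constructor
  · intro h i hi
    by_contra hx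
    exact hi (h ((h32_mem_supp x i).2 hx))
  · intro h i hi
    by_contra hiτ
    exact ((h32_mem_supp x i).1 hi) (h i hiτ)

/-- the closed face in coordinates -/
private def h32_face (τ : Finset (Fin n)) : Set (Fin n → ℝ) :=
  {y | (∀ i, 0 ≤ y i) ∧ ∑ i, y i = 1 ∧ ∀ i, i ∉ τ → y i = 0}

private theorem h32_face_convex (τ : Finset (Fin n)) : Convex ℝ (h32_face τ) := by
  rintro x ⟨hx0, hx1, hx2⟩ y ⟨hy0, hy1, hy2⟩ a b ha hb hab
  refine ⟨?_, ?_, ?_⟩
  · intro i
    simp only [Pi.add_apply, Pi.smul_apply, smul_eq_mul]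
    have := mul_nonneg ha (hx0 i)
    have := mul_nonneg hb (hy0 i)
    linarith
  · simp only [Pi.add_apply, Pi.smul_apply, smul_eq_mul]
    rw [Finset.sum_add_distrib, ← Finset.mul_sum, ← Finset.mul_sum, hx1, hy1]
    linarith
  · intro i hi
    simp [hx2 i hi, hy2 i hi]

private theorem h32_image (hdown : ∀ σ ∈ Δ, ∀ τ : Finset (Fin n), τ ⊆ σ → τ ∈ Δ)
    (τ : Finset (Fin n)) (hτ : τ ∈ Δ) : Subtype.val '' (fc Δ τ) = h32_face τ := by
  ext y
  constructor
  · rintro ⟨x, hx, rfl⟩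
    exact ⟨x.2.1, x.2.2.1, (h32_supp_sub _ _).1 hx⟩
  · rintro ⟨h0, h1, h2⟩
    have hs : supp y ⊆ τ := (h32_supp_sub _ _).2 h2
    exact ⟨⟨y, h0, h1, hdown τ hτ _ hs⟩, hs, rfl⟩

theorem real_eq (hdown : ∀ σ ∈ Δ, ∀ τ : Finset (Fin n), τ ⊆ σ → τ ∈ Δ) :
    (⋃ σ ∈ Δ, convexHull ℝ ((fun i : Fin n => (Pi.single i (1 : ℝ) : Fin n → ℝ)) ''
      (↑σ : Set (Fin n)))) = RS Δ := by
  ext x
  simp only [Set.mem_iUnion]
  constructor
  · rintro ⟨σ, hσ, hx⟩
    have hsub : convexHull ℝ ((fun i : Fin n => (Pi.single i (1 : ℝ) : Fin n → ℝ)) ''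
        (↑σ : Set (Fin n))) ⊆ h32_face σ := by
      refine convexHull_min ?_ (h32_face_convex σ)
      rintro _ ⟨i, hi, rfl⟩
      refine ⟨?_, ?_, ?_⟩
      · intro j
        by_cases hj : j = i
        · subst hj; simp
        · simp [hj]
      · simp
      · intro j hj
        have : j ≠ i := fun e => hj (e ▸ hi)
        simp [this]
    obtain ⟨h0, h1, h2⟩ := hsub hx
    exact ⟨h0, h1, hdown σ hσ _ ((h32_supp_sub _ _).2 h2)⟩
  · rintro ⟨h0, h1, h2⟩
    refine ⟨supp x, h2, ?_⟩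
    have hx : x = ∑ i ∈ supp x, x i • (Pi.single i (1 : ℝ) : Fin n → ℝ) := by
      funext j
      rw [Finset.sum_apply]
      simp only [Pi.smul_apply, smul_eq_mul]
      rw [Finset.sum_eq_single j]
      · simp
      · intro i _ hij
        rw [Pi.single_eq_of_ne (Ne.symm hij), mul_zero]
      · intro hj
        have : x j = 0 := by
          by_contra hne
          exact hj ((h32_mem_supp x j).2 hne)
        rw [this, zero_mul]
    have hsum : ∑ i ∈ supp x, x i = 1 := by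
      rw [← h1]
      refine Finset.sum_subset (Finset.subset_univ _) ?_
      intro i _ hi
      by_contra hne
      exact hi ((h32_mem_supp x i).2 hne)
    have key : (∑ i ∈ supp x, x i • (Pi.single i (1 : ℝ) : Fin n → ℝ)) ∈
        convexHull ℝ ((fun i : Fin n => (Pi.single i (1 : ℝ) : Fin n → ℝ)) ''
          (↑(supp x) : Set (Fin n))) := by
      refine Convex.sum_mem (convex_convexHull ℝ _) (fun i _ => h0 i) hsum ?_
      intro i hi
      exact subset_convexHull ℝ _ ⟨i, hi, rfl⟩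
    rwa [← hx] at key

theorem exists_supp (τ : Finset (Fin n)) (hτ : τ ∈ Δ) (hne : τ.Nonempty) :
    ∃ x : RS Δ, supp x.1 = τ := by
  classical
  have hc : (0 : ℝ) < τ.card := by exact_mod_cast hne.card_pos
  let y : Fin n → ℝ := fun i => if i ∈ τ then ((τ.card : ℝ))⁻¹ else 0
  have hsupp : supp y = τ := by
    ext i
    rw [h32_mem_supp]
    by_cases hi : i ∈ τ
    · simp [y, hi, hc.ne']
    · simp [y, hi]
  refine ⟨⟨y, ?_, ?_, ?_⟩, hsupp⟩
  · intro i
    by_cases hi : i ∈ τ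
    · simp [y, hi]
    · simp [y, hi]
  · simp only [y]
    rw [Finset.sum_ite_mem, Finset.univ_inter, Finset.sum_const, nsmul_eq_mul,
      mul_inv_cancel₀ hc.ne']
  · rw [hsupp]; exact hτ

theorem fc_compact (hdown : ∀ σ ∈ Δ, ∀ τ : Finset (Fin n), τ ⊆ σ → τ ∈ Δ)
    (τ : Finset (Fin n)) (hτ : τ ∈ Δ) : IsCompact (fc Δ τ) := by
  rw [Topology.IsEmbedding.subtypeVal.isCompact_iff, h32_image Δ hdown τ hτ]
  have h : h32_face τ = stdSimplex ℝ (Fin n) ∩ {y | ∀ i, i ∉ τ → y i = 0} := by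
    ext y
    simp only [h32_face, stdSimplex, Set.mem_ofPred_eq, Set.mem_inter_iff, and_assoc]
  rw [h]
  refine (isCompact_stdSimplex ℝ (Fin n)).inter_right ?_
  have : {y : Fin n → ℝ | ∀ i, i ∉ τ → y i = 0} = ⋂ i, ⋂ (_ : i ∉ τ), {y | y i = 0} := by
    ext y; simp
  rw [this]
  exact isClosed_iInter fun i => isClosed_iInter fun _ =>
    isClosed_eq (continuous_apply i) continuous_const

theorem fc_convex (hdown : ∀ σ ∈ Δ, ∀ τ : Finset (Fin n), τ ⊆ σ → τ ∈ Δ)
    (τ : Finset (Fin n)) (hτ : τ ∈ Δ) : Convex ℝ (Subtype.val '' (fc Δ τ)) := by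
  rw [h32_image Δ hdown τ hτ]
  exact h32_face_convex τ

theorem fc_inter (σ τ : Finset (Fin n)) : fc Δ σ ∩ fc Δ τ = fc Δ (σ ∩ τ) := by
  ext x
  simp only [fc, Set.mem_inter_iff, Set.mem_ofPred_eq, Finset.subset_inter_iff]

theorem fc_empty : fc Δ ∅ = ∅ := by
  rw [Set.eq_empty_iff_forall_notMem]
  intro x hx
  have h0 := (h32_supp_sub _ _).1 hx
  have h1 := x.2.2.1
  rw [Finset.sum_eq_zero (fun i _ => h0 i (Finset.notMem_empty i))] at h1
  exact zero_ne_one h1

/-- the open star of a nonempty face is open and contractible -/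
theorem ostar_contractible (hdown : ∀ σ ∈ Δ, ∀ τ : Finset (Fin n), τ ⊆ σ → τ ∈ Δ)
    (σ : Finset (Fin n)) (hσ : σ ∈ Δ) (hne : σ.Nonempty) :
    ContractibleSpace ↥{x : RS Δ | σ ⊆ supp x.1} := by
  classical
  obtain ⟨b, hb⟩ := exists_supp Δ σ hσ hne
  let U : Set (Fin n → ℝ) := {y | y ∈ RS Δ ∧ σ ⊆ supp y}
  have hbU : b.1 ∈ U := ⟨b.2, hb.symm ▸ Finset.Subset.refl _⟩
  have hstar : StarConvex ℝ b.1 U := by
    rintro y ⟨hy, hyσ⟩ a c ha hc hac
    have hzero : ∀ i, i ∉ supp y → (a • b.1 + c • y) i = 0 := by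
      intro i hi
      have h1 : y i = 0 := by
        by_contra hne'
        exact hi ((h32_mem_supp y i).2 hne')
      have h2 : b.1 i = 0 := by
        by_contra hne'
        exact hi (hyσ (hb ▸ (h32_mem_supp b.1 i).2 hne'))
      simp [h1, h2]
    have hpos : ∀ i ∈ σ, (a • b.1 + c • y) i ≠ 0 := by
      intro i hi
      have h1 : 0 < b.1 i := lt_of_le_of_ne (b.2.1 i)
        (Ne.symm ((h32_mem_supp b.1 i).1 (hb.symm ▸ hi)))
      have h2 : 0 < y i := lt_of_le_of_ne (hy.1 i) (Ne.symm ((h32_mem_supp y i).1 (hyσ hi)))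
      simp only [Pi.add_apply, Pi.smul_apply, smul_eq_mul]
      rcases ha.lt_or_eq with ha' | ha'
      · have := mul_pos ha' h1
        have := mul_nonneg hc h2.le
        linarith
      · have hc1 : c = 1 := by linarith
        rw [← ha', hc1]
        simpa using h2.ne'
    refine ⟨⟨?_, ?_, ?_⟩, ?_⟩
    · intro i
      simp only [Pi.add_apply, Pi.smul_apply, smul_eq_mul]
      have := mul_nonneg ha (b.2.1 i)
      have := mul_nonneg hc (hy.1 i)
      linarith
    · simp only [Pi.add_apply, Pi.smul_apply, smul_eq_mul]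
      rw [Finset.sum_add_distrib, ← Finset.mul_sum, ← Finset.mul_sum, b.2.2.1, hy.2.1]
      linarith
    · exact hdown _ hy.2.2 _ ((h32_supp_sub _ _).2 hzero)
    · intro i hi
      exact (h32_mem_supp _ _).2 (hpos i hi)
  have hcon : ContractibleSpace U := hstar.contractibleSpace ⟨b.1, hbU⟩
  let e : ↥{x : RS Δ | σ ⊆ supp x.1} ≃ₜ U :=
    { toFun := fun x => ⟨x.1.1, x.1.2, x.2⟩
      invFun := fun y => ⟨⟨y.1, y.2.1⟩, y.2.2⟩
      left_inv := fun x => rfl
      right_inv := fun y => rfl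
      continuous_toFun := by fun_prop
      continuous_invFun := by fun_prop }
  exact e.contractibleSpace

theorem open_supp (σ : Finset (Fin n)) : IsOpen {x : RS Δ | σ ⊆ supp x.1} := by
  have : {x : RS Δ | σ ⊆ supp x.1} = ⋂ i ∈ σ, {x : RS Δ | x.1 i ≠ 0} := by
    ext x
    simp only [Set.mem_ofPred_eq, Set.mem_iInter]
    constructor
    · intro h i hi
      exact (h32_mem_supp _ _).1 (h hi)
    · intro h i hi
      exact (h32_mem_supp _ _).2 (h i hi)
  rw [this]
  refine isOpen_biInter_finset fun i _ => ?_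
  exact isOpen_ne_fun ((continuous_apply i).comp continuous_subtype_val) continuous_const

end Pool.Agent.helper58.FS
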