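import Pool.Agent.helper58.FS.Defs
import Pool.Agent.helper96.TC.H0
import Pool.Agent.helper88.TC.R
import Pool.Agent.helper58.FS.M
import Pool.Agent.helper58.FS.J2
import Pool.Agent.helper58.FS.R

-- module by helper39

/-!
# [FS-N] complements of cones and of boundaries of faces
-/

set_option autoImplicit false

open scoped Matrix
open Pool.Agent.helper73.TC

namespace Pool.Agent.helper58.FS

variable (F : Type) [Field F] {n : ℕ} (Δ : Finset (Finset (Fin n)))

/-- the complement of a nonempty union of faces containing a common vertex is acyclic -/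
theorem acyc_cone (hdown : ∀ σ ∈ Δ, ∀ τ : Finset (Fin n), τ ⊆ σ → τ ∈ Δ)
    (hp : ∀ p : RS Δ, Acyc F ↥(({p} : Set (RS Δ))ᶜ)) (f : Fin n)
    (T : Finset (Finset (Fin n))) (hT : T ⊆ Δ) (hf : ∀ τ ∈ T, f ∈ τ) (hne : T.Nonempty) :
    Acyc F ↥((⋃ τ ∈ T, fc Δ τ)ᶜ) := by
  induction hc : T.card using Nat.strong_induction_on generalizing T with
  | _ k ih =>
    have hclosed : ∀ S : Finset (Finset (Fin n)), S ⊆ Δ → IsClosed (⋃ τ ∈ S, fc Δ τ) := by
      intro S hS
      exact (S.finite_toSet.isCompact_biUnion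
        fun τ hτ => fc_compact Δ hdown τ (hS (Finset.mem_coe.1 hτ))).isClosed
    obtain ⟨τ, hτ⟩ := hne
    have hB : IsClosed (fc Δ τ) := (fc_compact Δ hdown τ (hT hτ)).isClosed
    have hfc : (fc Δ τ).Nonempty := by
      have h1 : ({f} : Finset (Fin n)) ∈ Δ :=
        hdown τ (hT hτ) _ (Finset.singleton_subset_iff.2 (hf τ hτ))
      obtain ⟨x, hx⟩ := exists_supp Δ {f} h1 (Finset.singleton_nonempty f)
      refine ⟨x, ?_⟩
      show supp x.1 ⊆ τ
      rw [hx]
      exact Finset.singleton_subset_iff.2 (hf τ hτ)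
    have hsingle : Acyc F ↥((fc Δ τ)ᶜ) :=
      jb F (fun x : RS Δ => x.1) continuous_subtype_val Subtype.val_injective hp (fc Δ τ)
        (fc_compact Δ hdown τ (hT hτ)) hfc (fc_convex Δ hdown τ (hT hτ))
    rcases (T.erase τ).eq_empty_or_nonempty with he | hne'
    · have hTe : T = {τ} := by
        rw [← Finset.insert_erase hτ, he]
        rfl
      have : (⋃ σ ∈ T, fc Δ σ) = fc Δ τ := by
        rw [hTe]
        simp
      rw [this]
      exact hsingle
    · have hT' : T.erase τ ⊆ Δ := (Finset.erase_subset _ _).trans hT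
      have h1 : Acyc F ↥((⋃ σ ∈ T.erase τ, fc Δ σ)ᶜ) :=
        ih (T.erase τ).card (hc ▸ Finset.card_erase_lt_of_mem hτ) (T.erase τ) hT'
          (fun σ hσ => hf σ (Finset.mem_of_mem_erase hσ)) hne' rfl
      have hU : (⋃ σ ∈ T, fc Δ σ)ᶜ = (⋃ σ ∈ T.erase τ, fc Δ σ)ᶜ ∩ (fc Δ τ)ᶜ := by
        rw [← Set.compl_union]
        congr 1
        conv_lhs => rw [← Finset.insert_erase hτ]
        rw [Finset.set_biUnion_insert, Set.union_comm]
      have hI : (⋃ σ ∈ T.erase τ, fc Δ σ)ᶜ ∪ (fc Δ τ)ᶜ =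
          (⋃ σ ∈ (T.erase τ).image (fun σ => σ ∩ τ), fc Δ σ)ᶜ := by
        rw [← Set.compl_inter]
        congr 1
        rw [Finset.set_biUnion_finset_image]
        rw [Set.iUnion₂_inter]
        simp only [fc_inter]
      rw [hU]
      refine acyc_inter F _ _ (hclosed _ hT').isOpen_compl hB.isOpen_compl h1 hsingle ?_
      rw [hI]
      refine ih ((T.erase τ).image (fun σ => σ ∩ τ)).card ?_ _ ?_ ?_ ?_ rfl
      · rw [← hc]
        exact lt_of_le_of_lt Finset.card_image_le (Finset.card_erase_lt_of_mem hτ)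
      · intro σ hσ
        obtain ⟨σ', hσ', rfl⟩ := Finset.mem_image.1 hσ
        exact hdown σ' (hT' hσ') _ Finset.inter_subset_left
      · intro σ hσ
        obtain ⟨σ', hσ', rfl⟩ := Finset.mem_image.1 hσ
        exact Finset.mem_inter.2 ⟨hf σ' (Finset.mem_of_mem_erase hσ'), hf τ hτ⟩
      · exact hne'.image _

/-- complements of boundaries of faces -/
theorem hz_bdry (hdown : ∀ σ ∈ Δ, ∀ τ : Finset (Fin n), τ ⊆ σ → τ ∈ Δ)
    (hp : ∀ p : RS Δ, Acyc F ↥(({p} : Set (RS Δ))ᶜ)) (m : ℕ)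
    (hd0 : D0 F (RS Δ)) (hz : ∀ j, 1 ≤ j → j < m → HZ F (RS Δ) j)
    (σ : Finset (Fin n)) (hσ : σ ∈ Δ) (hne : σ.Nonempty) (hc : σ.card ≤ m) :
    D0 F ↥((⋃ v ∈ σ, fc Δ (σ.erase v))ᶜ) ∧
      ∀ j, 1 ≤ j → j + σ.card ≤ m → HZ F ↥((⋃ v ∈ σ, fc Δ (σ.erase v))ᶜ) j := by
  induction σ using Finset.induction_on with
  | empty => exact absurd hne Finset.not_nonempty_empty
  | insert v τ hv ih =>
    have hτΔ : τ ∈ Δ := hdown _ hσ _ (Finset.subset_insert v τ)
    rcases τ.eq_empty_or_nonempty with rfl | hτ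
    · have he : (⋃ w ∈ insert v (∅ : Finset (Fin n)),
          fc Δ ((insert v (∅ : Finset (Fin n))).erase w))ᶜ = Set.univ := by
        have h0 : (insert v (∅ : Finset (Fin n))).erase v = ∅ := by simp
        simp [fc_empty]
      rw [he]
      refine ⟨d0_homeo F (Homeomorph.Set.univ (RS Δ)).symm hd0, fun j hj hjm => ?_⟩
      refine hz_homeo F (Homeomorph.Set.univ (RS Δ)).symm j (hz j hj ?_)
      have : (insert v (∅ : Finset (Fin n))).card = 1 := by simp
      omega
    · have hcard : (insert v τ).card = τ.card + 1 := Finset.card_insert_of_notMem hv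
      obtain ⟨i1, i2⟩ := ih hτΔ hτ (by omega)
      have hA : IsClosed (fc Δ τ) := (fc_compact Δ hdown τ hτΔ).isClosed
      have hAa : Acyc F ↥((fc Δ τ)ᶜ) := by
        obtain ⟨f, hf⟩ := hτ
        have := acyc_cone F Δ hdown hp f {τ} (Finset.singleton_subset_iff.2 hτΔ)
          (fun σ hσ => by rw [Finset.mem_singleton.1 hσ]; exact hf) (Finset.singleton_nonempty τ)
        rwa [Finset.set_biUnion_singleton] at this
      set T : Finset (Finset (Fin n)) := τ.image (fun u => (insert v τ).erase u) with hTdef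
      have hTΔ : T ⊆ Δ := by
        intro σ hσ'
        obtain ⟨u, hu, rfl⟩ := Finset.mem_image.1 hσ'
        exact hdown _ hσ _ (Finset.erase_subset _ _)
      have hTv : ∀ σ ∈ T, v ∈ σ := by
        intro σ hσ'
        obtain ⟨u, hu, rfl⟩ := Finset.mem_image.1 hσ'
        refine Finset.mem_erase.2 ⟨?_, Finset.mem_insert_self _ _⟩
        rintro rfl
        exact hv hu
      have hBa : Acyc F ↥((⋃ σ ∈ T, fc Δ σ)ᶜ) :=
        acyc_cone F Δ hdown hp v T hTΔ hTv (hτ.image _)
      have hB : IsClosed (⋃ σ ∈ T, fc Δ σ) :=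
        (T.finite_toSet.isCompact_biUnion
          fun τ hτ => fc_compact Δ hdown τ (hTΔ (Finset.mem_coe.1 hτ))).isClosed
      have hU : (⋃ w ∈ insert v τ, fc Δ ((insert v τ).erase w))ᶜ =
          (fc Δ τ)ᶜ ∩ (⋃ σ ∈ T, fc Δ σ)ᶜ := by
        rw [← Set.compl_union]
        congr 1
        rw [Finset.set_biUnion_insert, Finset.erase_insert hv, hTdef,
          Finset.set_biUnion_finset_image]
      have hI : (fc Δ τ)ᶜ ∪ (⋃ σ ∈ T, fc Δ σ)ᶜ = (⋃ w ∈ τ, fc Δ (τ.erase w))ᶜ := by
        rw [← Set.compl_inter]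
        congr 1
        rw [hTdef, Finset.set_biUnion_finset_image, Set.inter_iUnion₂]
        refine Set.iUnion₂_congr fun u hu => ?_
        rw [fc_inter]
        congr 1
        ext a
        simp only [Finset.mem_inter, Finset.mem_erase, Finset.mem_insert]
        constructor
        · rintro ⟨h1, h2, h3⟩
          exact ⟨h2, h1⟩
        · rintro ⟨h1, h2⟩
          exact ⟨h2, h1, Or.inr h2⟩
      rw [hU]
      refine ⟨d0_inter F _ _ hA.isOpen_compl hB.isOpen_compl hAa.d0 hBa.d0 ?_, fun j hj hjm => ?_⟩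
      · rw [hI]
        exact i2 1 le_rfl (by omega)
      · refine hz_inter F _ _ hA.isOpen_compl hB.isOpen_compl j hj (hAa.hz j hj) (hBa.hz j hj) ?_
        rw [hI]
        exact i2 (j + 1) (by omega) (by omega)

end Pool.Agent.helper58.FS
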