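import Pool.Agent.helper58.FS.Defs
import Pool.Agent.helper96.TC.H0
import Pool.Agent.helper88.TC.R
import Pool.Agent.helper58.FS.M
import Pool.Agent.helper58.FS.R
import Pool.Agent.helper58.FS.N

-- module by helper94

/-!
# [FS-Z] from the topology to the three properties of the graph of a flag sphere
-/

set_option autoImplicit false

open scoped Matrix
open Pool.Agent.helper73.TC

namespace Pool.Agent.helper58.FS

variable {n : ℕ} (Δ : Finset (Finset (Fin n)))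

theorem isClique_iff (hdown : ∀ σ ∈ Δ, ∀ τ : Finset (Fin n), τ ⊆ σ → τ ∈ Δ)
    (hvert : ∀ i : Fin n, ({i} : Finset (Fin n)) ∈ Δ)
    (hflag : ∀ σ : Finset (Fin n), (∀ i ∈ σ, ∀ j ∈ σ, ({i, j} : Finset (Fin n)) ∈ Δ) → σ ∈ Δ)
    (σ : Finset (Fin n)) : (gr Δ).IsClique (σ : Set (Fin n)) ↔ σ ∈ Δ := by
  constructor
  · intro h
    apply hflag
    intro i hi j hj
    by_cases hij : i = j
    · subst hij
      simpa using hvert i
    · exact (h (by exact_mod_cast hi) (by exact_mod_cast hj) hij).2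
  · intro h i hi j hj hij
    refine ⟨hij, hdown σ h _ ?_⟩
    intro k hk
    simp only [Finset.mem_insert, Finset.mem_singleton] at hk
    rcases hk with rfl | rfl
    · exact_mod_cast hi
    · exact_mod_cast hj

theorem h94_mem_cn (hdown : ∀ σ ∈ Δ, ∀ τ : Finset (Fin n), τ ⊆ σ → τ ∈ Δ)
    (hvert : ∀ i : Fin n, ({i} : Finset (Fin n)) ∈ Δ)
    (hflag : ∀ σ : Finset (Fin n), (∀ i ∈ σ, ∀ j ∈ σ, ({i, j} : Finset (Fin n)) ∈ Δ) → σ ∈ Δ)
    (σ : Finset (Fin n)) (hσ : σ ∈ Δ) (f : Fin n) :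
    f ∈ cn (gr Δ) σ ↔ f ∉ σ ∧ insert f σ ∈ Δ := by
  unfold cn
  simp only [Finset.mem_filter, Finset.mem_univ, true_and]
  constructor
  · intro h
    refine ⟨fun hf => (h f hf).1 rfl, hflag _ ?_⟩
    intro i hi j hj
    rw [Finset.mem_insert] at hi hj
    rcases hi with rfl | hi
    · rcases hj with rfl | hj
      · simpa using hvert _
      · rw [Finset.pair_comm]; exact (h j hj).2
    · rcases hj with rfl | hj
      · exact (h i hi).2
      · apply hdown σ hσ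
        intro k hk
        simp only [Finset.mem_insert, Finset.mem_singleton] at hk
        rcases hk with rfl | rfl
        · exact hi
        · exact hj
  · rintro ⟨hf, h⟩ u hu
    refine ⟨fun hh => hf (hh ▸ hu), hdown _ h _ ?_⟩
    intro k hk
    simp only [Finset.mem_insert, Finset.mem_singleton] at hk
    rcases hk with rfl | rfl
    · exact Finset.mem_insert_of_mem hu
    · exact Finset.mem_insert_self _ _

theorem h94_mem_fc (τ : Finset (Fin n)) (x : RS Δ) : x ∈ fc Δ τ ↔ supp x.1 ⊆ τ := Iff.rfl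

theorem h94_closed (hdown : ∀ σ ∈ Δ, ∀ τ : Finset (Fin n), τ ⊆ σ → τ ∈ Δ)
    (T : Finset (Finset (Fin n))) (hT : T ⊆ Δ) : IsClosed (⋃ τ ∈ T, fc Δ τ) := by
  apply Set.Finite.isClosed_biUnion T.finite_toSet
  intro τ hτ
  exact (fc_compact Δ hdown τ (hT hτ)).isClosed

theorem h94_W (F : Type) [Field F]
    (hdown : ∀ σ ∈ Δ, ∀ τ : Finset (Fin n), τ ⊆ σ → τ ∈ Δ)
    (hvert : ∀ i : Fin n, ({i} : Finset (Fin n)) ∈ Δ)
    (hflag : ∀ σ : Finset (Fin n), (∀ i ∈ σ, ∀ j ∈ σ, ({i, j} : Finset (Fin n)) ∈ Δ) → σ ∈ Δ)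
    (hp : ∀ p : RS Δ, Acyc F ↥(({p} : Set (RS Δ))ᶜ))
    (σ : Finset (Fin n)) (hσ : σ ∈ Δ) (f : Fin n) (hf : f ∈ cn (gr Δ) σ) :
    {x : RS Δ | σ ⊆ supp x.1 ∧ insert f (supp x.1) ∉ Δ}.Nonempty ∧
      D0 F ↥{x : RS Δ | σ ⊆ supp x.1 ∧ insert f (supp x.1) ∉ Δ} := by
  classical
  obtain ⟨hfσ, hfi⟩ := (h94_mem_cn Δ hdown hvert hflag σ hσ f).1 hf
  set T1 : Finset (Finset (Fin n)) := Δ.filter fun τ => f ∈ τ with hT1
  have hT1Δ : T1 ⊆ Δ := Finset.filter_subset _ _
  have hT1ne : T1.Nonempty := ⟨{f}, by simp [hT1, hvert f]⟩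
  have hK1 : ∀ x : RS Δ, x ∈ (⋃ τ ∈ T1, fc Δ τ) ↔ insert f (supp x.1) ∈ Δ := by
    intro x
    simp only [Set.mem_iUnion, exists_prop, hT1, Finset.mem_filter, fc, Set.mem_ofPred_eq]
    constructor
    · rintro ⟨τ, ⟨hτ, hfτ⟩, hx⟩
      exact hdown τ hτ _ (Finset.insert_subset hfτ hx)
    · intro h
      exact ⟨_, ⟨h, Finset.mem_insert_self _ _⟩, Finset.subset_insert _ _⟩
  have hA1 : Acyc F ↥((⋃ τ ∈ T1, fc Δ τ)ᶜ) :=
    acyc_cone F Δ hdown hp f T1 hT1Δ (fun τ hτ => (Finset.mem_filter.1 hτ).2) hT1ne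
  have hW : {x : RS Δ | σ ⊆ supp x.1 ∧ insert f (supp x.1) ∉ Δ} =
      (⋃ τ ∈ T1, fc Δ τ)ᶜ ∩ {x : RS Δ | σ ⊆ supp x.1} := by
    ext x
    simp only [Set.mem_ofPred_eq, Set.mem_inter_iff, Set.mem_compl_iff]
    rw [hK1]
    tauto
  rw [hW]
  rcases σ.eq_empty_or_nonempty with rfl | hne
  · have : {x : RS Δ | (∅ : Finset (Fin n)) ⊆ supp x.1} = Set.univ := by
      ext x; simp
    rw [this, Set.inter_univ]
    obtain ⟨y⟩ := hA1.nonempty
    exact ⟨⟨y.1, y.2⟩, hA1.d0⟩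
  · set T2 : Finset (Finset (Fin n)) := Δ.filter fun τ => f ∈ τ ∧ ¬ σ ⊆ τ with hT2
    have hT2ne : T2.Nonempty := by
      refine ⟨{f}, ?_⟩
      simp only [hT2, Finset.mem_filter]
      refine ⟨hvert f, Finset.mem_singleton_self f, ?_⟩
      intro h
      obtain ⟨u, hu⟩ := hne
      have := h hu
      rw [Finset.mem_singleton] at this
      exact hfσ (this ▸ hu)
    have hA2 : Acyc F ↥((⋃ τ ∈ T2, fc Δ τ)ᶜ) :=
      acyc_cone F Δ hdown hp f T2 (Finset.filter_subset _ _)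
        (fun τ hτ => (Finset.mem_filter.1 hτ).2.1) hT2ne
    have hun : (⋃ τ ∈ T2, fc Δ τ)ᶜ =
        (⋃ τ ∈ T1, fc Δ τ)ᶜ ∪ {x : RS Δ | σ ⊆ supp x.1} := by
      ext x
      rw [Set.mem_compl_iff, Set.mem_union, Set.mem_compl_iff, hK1]
      simp only [Set.mem_iUnion, exists_prop, hT2, Finset.mem_filter, fc, Set.mem_ofPred_eq]
      constructor
      · intro h
        by_contra hcon
        rw [not_or, not_not] at hcon
        apply h
        refine ⟨insert f (supp x.1), ⟨hcon.1, Finset.mem_insert_self _ _, ?_⟩,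
          Finset.subset_insert _ _⟩
        intro hs
        apply hcon.2
        intro u hu
        rcases Finset.mem_insert.1 (hs hu) with h1 | h1
        · exact absurd (h1 ▸ hu) hfσ
        · exact h1
      · rintro h ⟨τ, ⟨hτ, hfτ, hnτ⟩, hx⟩
        rcases h with h | h
        · exact h (hdown τ hτ _ (Finset.insert_subset hfτ hx))
        · exact hnτ (h.trans hx)
    rw [hun] at hA2
    have hoA : IsOpen ((⋃ τ ∈ T1, fc Δ τ)ᶜ) := (h94_closed Δ hdown T1 hT1Δ).isOpen_compl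
    have hoU : IsOpen {x : RS Δ | σ ⊆ supp x.1} := open_supp Δ σ
    have := ostar_contractible Δ hdown σ hσ hne
    have hAU : Acyc F ↥{x : RS Δ | σ ⊆ supp x.1} := acyc_contractible F
    obtain ⟨y⟩ := hA1.nonempty
    obtain ⟨z⟩ := hAU.nonempty
    exact ⟨ne_inter F _ _ hoA hoU ⟨y.1, y.2⟩ ⟨z.1, z.2⟩ hA2.d0,
      d0_inter F _ _ hoA hoU hA1.d0 hAU.d0 (hA2.hz 1 le_rfl)⟩

theorem h94_key (hdown : ∀ σ ∈ Δ, ∀ τ : Finset (Fin n), τ ⊆ σ → τ ∈ Δ)
    (hvert : ∀ i : Fin n, ({i} : Finset (Fin n)) ∈ Δ)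
    (hflag : ∀ σ : Finset (Fin n), (∀ i ∈ σ, ∀ j ∈ σ, ({i, j} : Finset (Fin n)) ∈ Δ) → σ ∈ Δ)
    (σ : Finset (Fin n)) (hσ : σ ∈ Δ) (f : Fin n) (hf : f ∈ cn (gr Δ) σ)
    (x : RS Δ) (h1 : σ ⊆ supp x.1) (h2 : insert f (supp x.1) ∉ Δ) :
    ∃ g ∈ far (gr Δ) (cn (gr Δ) σ) f, g ∈ supp x.1 := by
  obtain ⟨hfσ, hfi⟩ := (h94_mem_cn Δ hdown hvert hflag σ hσ f).1 hf
  have hx : supp x.1 ∈ Δ := x.2.2.2
  have hex : ∃ g ∈ supp x.1, ({f, g} : Finset (Fin n)) ∉ Δ := by
    by_contra hcon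
    push Not at hcon
    apply h2
    apply hflag
    intro i hi j hj
    rw [Finset.mem_insert] at hi hj
    rcases hi with rfl | hi
    · rcases hj with rfl | hj
      · simpa using hvert _
      · exact hcon j hj
    · rcases hj with rfl | hj
      · rw [Finset.pair_comm]; exact hcon i hi
      · apply hdown _ hx
        intro k hk
        simp only [Finset.mem_insert, Finset.mem_singleton] at hk
        rcases hk with rfl | rfl
        · exact hi
        · exact hj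
  obtain ⟨g, hg, hfg⟩ := hex
  have hgf : g ≠ f := by
    rintro rfl
    apply hfg
    simpa using hvert g
  have hgσ : g ∉ σ := by
    intro hg'
    apply hfg
    apply hdown _ hfi
    intro k hk
    simp only [Finset.mem_insert, Finset.mem_singleton] at hk
    rcases hk with rfl | rfl
    · exact Finset.mem_insert_self _ _
    · exact Finset.mem_insert_of_mem hg'
  refine ⟨g, ?_, hg⟩
  unfold far
  rw [Finset.mem_filter]
  refine ⟨(h94_mem_cn Δ hdown hvert hflag σ hσ g).2 ⟨hgσ, ?_⟩, hgf, fun h => hfg h.2⟩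
  exact hdown _ hx _ (Finset.insert_subset hg h1)

theorem flagLike_of (F : Type) [Field F] (d : ℕ) (hd : 2 ≤ d)
    (hdown : ∀ σ ∈ Δ, ∀ τ : Finset (Fin n), τ ⊆ σ → τ ∈ Δ)
    (hvert : ∀ i : Fin n, ({i} : Finset (Fin n)) ∈ Δ)
    (hflag : ∀ σ : Finset (Fin n), (∀ i ∈ σ, ∀ j ∈ σ, ({i, j} : Finset (Fin n)) ∈ Δ) → σ ∈ Δ)
    (hp : ∀ p : RS Δ, Acyc F ↥(({p} : Set (RS Δ))ᶜ))
    (hd0 : D0 F (RS Δ)) (hz : ∀ j, 1 ≤ j → j + 1 < d → HZ F (RS Δ) j)
    (hne : Nonempty (RS Δ)) : FlagLike (gr Δ) d := by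
  classical
  refine ⟨?_, ?_, ?_⟩
  · -- pure
    intro σ hσc hcard
    have hσ : σ ∈ Δ := (isClique_iff Δ hdown hvert hflag σ).1 hσc
    rcases σ.eq_empty_or_nonempty with rfl | hσne
    · obtain ⟨x⟩ := hne
      have hsum : ∑ i, x.1 i = 1 := x.2.2.1
      have : Nonempty (Fin n) := by
        by_contra hcon
        rw [not_nonempty_iff] at hcon
        simp at hsum
      obtain ⟨i⟩ := this
      exact ⟨i, by simp [cn]⟩
    · by_contra hcon
      rw [Finset.not_nonempty_iff_eq_empty] at hcon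
      have hmax : ∀ τ ∈ Δ, σ ⊆ τ → τ = σ := by
        intro τ hτ hsub
        apply le_antisymm _ hsub
        intro f hf
        by_contra hfσ
        have : f ∈ cn (gr Δ) σ :=
          (h94_mem_cn Δ hdown hvert hflag σ hσ f).2 ⟨hfσ, hdown τ hτ _ (Finset.insert_subset hf hsub)⟩
        rw [hcon] at this
        simp at this
      obtain ⟨v0, hv0⟩ := hσne
      have hB := hz_bdry F Δ hdown hp (d - 1) hd0 (fun j hj hj' => hz j hj (by omega)) σ hσ ⟨v0, hv0⟩
        (by omega)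
      have hpre : PreconnectedSpace ↥((⋃ v ∈ σ, fc Δ (σ.erase v))ᶜ) := preconnected_of_d0 F hB.1
      -- the clopen set
      have hopen : IsOpen {y : ↥((⋃ v ∈ σ, fc Δ (σ.erase v))ᶜ) | σ ⊆ supp y.1.1} :=
        (open_supp Δ σ).preimage continuous_subtype_val
      have hclosed : IsClosed {y : ↥((⋃ v ∈ σ, fc Δ (σ.erase v))ᶜ) | σ ⊆ supp y.1.1} := by
        have : {y : ↥((⋃ v ∈ σ, fc Δ (σ.erase v))ᶜ) | σ ⊆ supp y.1.1} =
            Subtype.val ⁻¹' (fc Δ σ) := by
          ext y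
          rw [Set.mem_ofPred_eq, Set.mem_preimage, h94_mem_fc]
          constructor
          · intro h
            rw [hmax _ y.1.2.2.2 h]
          · intro h
            intro v hv
            by_contra hvs
            apply y.2
            simp only [Set.mem_iUnion, exists_prop, fc, Set.mem_ofPred_eq]
            refine ⟨v, hv, ?_⟩
            intro u hu
            rw [Finset.mem_erase]
            exact ⟨fun huv => hvs (huv ▸ hu), h hu⟩
        rw [this]
        exact ((fc_compact Δ hdown σ hσ).isClosed).preimage continuous_subtype_val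
      have hcl : IsClopen {y : ↥((⋃ v ∈ σ, fc Δ (σ.erase v))ᶜ) | σ ⊆ supp y.1.1} :=
        ⟨hclosed, hopen⟩
      obtain ⟨x0, hx0⟩ := exists_supp Δ σ hσ ⟨v0, hv0⟩
      have hx0m : x0 ∈ (⋃ v ∈ σ, fc Δ (σ.erase v))ᶜ := by
        simp only [Set.mem_compl_iff, Set.mem_iUnion, exists_prop, fc, Set.mem_ofPred_eq, not_exists,
          not_and]
        intro v hv hs
        rw [hx0] at hs
        exact Finset.notMem_erase v σ (hs hv)
      have huniv : {y : ↥((⋃ v ∈ σ, fc Δ (σ.erase v))ᶜ) | σ ⊆ supp y.1.1} = Set.univ := by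
        rcases isClopen_iff.1 hcl with h | h
        · exfalso
          have : (⟨x0, hx0m⟩ : ↥((⋃ v ∈ σ, fc Δ (σ.erase v))ᶜ)) ∈
              {y : ↥((⋃ v ∈ σ, fc Δ (σ.erase v))ᶜ) | σ ⊆ supp y.1.1} := by
            simp only [Set.mem_ofPred_eq]
            rw [hx0]
          rw [h] at this
          exact this
        · exact h
      have hall : ∀ x : RS Δ, x ∈ fc Δ σ := by
        intro x
        by_cases hx : x ∈ (⋃ v ∈ σ, fc Δ (σ.erase v))ᶜ
        · have : (⟨x, hx⟩ : ↥((⋃ v ∈ σ, fc Δ (σ.erase v))ᶜ)) ∈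
              {y : ↥((⋃ v ∈ σ, fc Δ (σ.erase v))ᶜ) | σ ⊆ supp y.1.1} := by
            rw [huniv]; trivial
          simp only [Set.mem_ofPred_eq] at this
          simp only [fc, Set.mem_ofPred_eq]
          rw [hmax _ x.2.2.2 this]
        · rw [Set.mem_compl_iff, not_not] at hx
          simp only [Set.mem_iUnion, exists_prop, fc, Set.mem_ofPred_eq] at hx
          obtain ⟨v, hv, hs⟩ := hx
          exact hs.trans (Finset.erase_subset _ _)
      have hA := acyc_cone F Δ hdown hp v0 {σ} (by simpa using hσ) (by simpa using hv0) (by simp)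
      obtain ⟨y⟩ := hA.nonempty
      apply y.2
      simp only [Finset.mem_singleton, Set.iUnion_iUnion_eq_left]
      exact hall _
  · -- ne
    intro σ hσc f hf
    have hσ : σ ∈ Δ := (isClique_iff Δ hdown hvert hflag σ).1 hσc
    obtain ⟨⟨x, hx1, hx2⟩, -⟩ := h94_W Δ F hdown hvert hflag hp σ hσ f hf
    obtain ⟨g, hg, -⟩ := h94_key Δ hdown hvert hflag σ hσ f hf x hx1 hx2
    exact ⟨g, hg⟩
  · -- conn
    intro σ hσc f hf A B hAB hdisj hno
    have hσ : σ ∈ Δ := (isClique_iff Δ hdown hvert hflag σ).1 hσc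
    obtain ⟨-, hD⟩ := h94_W Δ F hdown hvert hflag hp σ hσ f hf
    have hpre : PreconnectedSpace ↥{x : RS Δ | σ ⊆ supp x.1 ∧ insert f (supp x.1) ∉ Δ} :=
      preconnected_of_d0 F hD
    by_contra hcon
    rw [not_or, ← Ne, ← Ne, ← Finset.nonempty_iff_ne_empty, ← Finset.nonempty_iff_ne_empty] at hcon
    obtain ⟨hA, hB⟩ := hcon
    have hop : ∀ S : Finset (Fin n), IsOpen
        {y : ↥{x : RS Δ | σ ⊆ supp x.1 ∧ insert f (supp x.1) ∉ Δ} | ∃ a ∈ S, a ∈ supp y.1.1} := by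
      intro S
      have : {y : ↥{x : RS Δ | σ ⊆ supp x.1 ∧ insert f (supp x.1) ∉ Δ} |
          ∃ a ∈ S, a ∈ supp y.1.1} = ⋃ a ∈ S, Subtype.val ⁻¹' {x : RS Δ | {a} ⊆ supp x.1} := by
        ext y
        simp only [Set.mem_ofPred_eq, Set.mem_iUnion, exists_prop, Set.mem_preimage,
          Finset.singleton_subset_iff]
      rw [this]
      exact isOpen_biUnion fun a _ => (open_supp Δ {a}).preimage continuous_subtype_val
    have hnon : ∀ S : Finset (Fin n), S ⊆ far (gr Δ) (cn (gr Δ) σ) f → S.Nonempty →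
        {y : ↥{x : RS Δ | σ ⊆ supp x.1 ∧ insert f (supp x.1) ∉ Δ} |
          ∃ a ∈ S, a ∈ supp y.1.1}.Nonempty := by
      rintro S hS ⟨a, ha⟩
      have haf := hS ha
      unfold far at haf
      rw [Finset.mem_filter] at haf
      obtain ⟨hac, haf1, haf2⟩ := haf
      obtain ⟨haσ, hai⟩ := (h94_mem_cn Δ hdown hvert hflag σ hσ a).1 hac
      obtain ⟨x, hx⟩ := exists_supp Δ (insert a σ) hai (Finset.insert_nonempty _ _)
      have hxW : σ ⊆ supp x.1 ∧ insert f (supp x.1) ∉ Δ := by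
        rw [hx]
        refine ⟨Finset.subset_insert _ _, ?_⟩
        intro h
        apply haf2
        refine ⟨fun h' => haf1 h'.symm, hdown _ h _ ?_⟩
        intro k hk
        simp only [Finset.mem_insert, Finset.mem_singleton] at hk ⊢
        tauto
      refine ⟨⟨x, hxW⟩, a, ha, ?_⟩
      simp only
      rw [hx]
      exact Finset.mem_insert_self _ _
    have hAs : A ⊆ far (gr Δ) (cn (gr Δ) σ) f := hAB ▸ Finset.subset_union_left
    have hBs : B ⊆ far (gr Δ) (cn (gr Δ) σ) f := hAB ▸ Finset.subset_union_right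
    have hpc := isPreconnected_univ (α := ↥{x : RS Δ | σ ⊆ supp x.1 ∧ insert f (supp x.1) ∉ Δ})
    obtain ⟨y, -, ⟨a, ha, hay⟩, ⟨b, hb, hby⟩⟩ := hpc _ _ (hop A) (hop B) (by
      intro y _
      obtain ⟨g, hg, hgy⟩ := h94_key Δ hdown hvert hflag σ hσ f hf y.1 y.2.1 y.2.2
      rw [← hAB, Finset.mem_union] at hg
      rcases hg with hg | hg
      · exact Or.inl ⟨g, hg, hgy⟩
      · exact Or.inr ⟨g, hg, hgy⟩) (by
        obtain ⟨y, hy⟩ := hnon A hAs hA
        exact ⟨y, trivial, hy⟩) (by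
        obtain ⟨y, hy⟩ := hnon B hBs hB
        exact ⟨y, trivial, hy⟩)
    apply hno a ha b hb
    refine ⟨?_, ?_⟩
    · rintro rfl
      exact Finset.disjoint_left.1 hdisj ha hb
    · apply hdown _ y.1.2.2.2
      intro k hk
      simp only [Finset.mem_insert, Finset.mem_singleton] at hk
      rcases hk with rfl | rfl
      · exact hay
      · exact hby

end Pool.Agent.helper58.FS
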