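import Pool.Agent.helper58.FS.V
import Pool.Agent.helper58.FS.F
import Pool.Agent.helper58.FS.S
import Pool.Agent.helper58.FS.Z

set_option autoImplicit false

open scoped Matrix
open Pool.Agent.helper73.TC

namespace Pool.Agent.helper58.FS

/-! # [FS-main] assembly (helper58) -/

theorem flagLike_of_sphere (d n : ℕ) (hd : 2 ≤ d) (Δ : Finset (Finset (Fin n)))
    (hdown : ∀ σ ∈ Δ, ∀ τ : Finset (Fin n), τ ⊆ σ → τ ∈ Δ)
    (hvert : ∀ i : Fin n, ({i} : Finset (Fin n)) ∈ Δ)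
    (hflag : ∀ σ : Finset (Fin n), (∀ i ∈ σ, ∀ j ∈ σ, ({i, j} : Finset (Fin n)) ∈ Δ) → σ ∈ Δ)
    (hs : Nonempty (↥(⋃ σ ∈ Δ, convexHull ℝ ((fun i : Fin n => (Pi.single i (1 : ℝ) : Fin n → ℝ)) '' (↑σ : Set (Fin n))))
      ≃ₜ ↥(Metric.sphere (0 : EuclideanSpace ℝ (Fin d)) 1))) : FlagLike (gr Δ) d := by
  rw [real_eq Δ hdown] at hs
  obtain ⟨e⟩ := hs
  refine flagLike_of Δ ℚ d hd hdown hvert hflag ?_ ?_ ?_ ?_
  · intro p
    have h1 := acyc_sphere_compl ℚ d hd (e p)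
    refine acyc_homeo ℚ ?_ h1
    refine (Homeomorph.subtype e.symm ?_)
    intro a
    simp only [Set.mem_compl_iff, Set.mem_singleton_iff, not_iff_not]
    constructor
    · rintro rfl; simp
    · intro h; rw [← h]; simp
  · exact d0_homeo ℚ e.symm (d0_sphere ℚ d hd)
  · intro j hj hjd
    exact hz_homeo ℚ e.symm j (hz_sphere ℚ d j hj hjd)
  · have : Nonempty (Metric.sphere (0 : EuclideanSpace ℝ (Fin d)) 1) := by
      have : Nontrivial (EuclideanSpace ℝ (Fin d)) := by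
        have : NeZero d := ⟨by omega⟩
        infer_instance
      exact (NormedSpace.sphere_nonempty.2 zero_le_one).to_subtype
    exact this.map e.symm

theorem main (K : Type) [Field K] [CharZero K] (d n : ℕ) (hd : 5 ≤ d)
    (Δ : Finset (Finset (Fin n)))
    (hdown : ∀ σ ∈ Δ, ∀ τ : Finset (Fin n), τ ⊆ σ → τ ∈ Δ)
    (hvert : ∀ i : Fin n, ({i} : Finset (Fin n)) ∈ Δ)
    (hflag : ∀ σ : Finset (Fin n), (∀ i ∈ σ, ∀ j ∈ σ, ({i, j} : Finset (Fin n)) ∈ Δ) → σ ∈ Δ)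
    (hs : Nonempty (↥(⋃ σ ∈ Δ, convexHull ℝ ((fun i : Fin n => (Pi.single i (1 : ℝ) : Fin n → ℝ)) '' (↑σ : Set (Fin n))))
      ≃ₜ ↥(Metric.sphere (0 : EuclideanSpace ℝ (Fin d)) 1))) :
    ∃ f : MvPolynomial (Fin (d + 2) × Fin n) K, f ≠ 0 ∧
      ∀ c : Fin (d + 2) × Fin n → K, MvPolynomial.eval c f ≠ 0 →
        ∀ ℓ : MvPolynomial (Fin n) K, ℓ.IsHomogeneous 1 →
          (∑ i : Fin n, MvPolynomial.C (c (Fin.last (d + 1), i)) * MvPolynomial.X i) * ℓ ∈
            (Ideal.span ((fun σ : Finset (Fin n) => ∏ i ∈ σ, (MvPolynomial.X i : MvPolynomial (Fin n) K)) ''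
                {σ : Finset (Fin n) | σ ∉ Δ}) ⊔
             Ideal.span ((fun k : Fin (d + 2) => ∑ i : Fin n, MvPolynomial.C (c (k, i)) * MvPolynomial.X i) ''
                {k : Fin (d + 2) | (k : ℕ) ≤ d})) →
          ℓ ∈
            (Ideal.span ((fun σ : Finset (Fin n) => ∏ i ∈ σ, (MvPolynomial.X i : MvPolynomial (Fin n) K)) ''
                {σ : Finset (Fin n) | σ ∉ Δ}) ⊔
             Ideal.span ((fun k : Fin (d + 2) => ∑ i : Fin n, MvPolynomial.C (c (k, i)) * MvPolynomial.X i) ''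
                {k : Fin (d + 2) | (k : ℕ) ≤ d})) := by
  have : Infinite K := CharZero.infinite K
  exact algebra_of_grig K d n Δ hdown hvert
    (lvlC (gr Δ) hd (flagLike_of_sphere d n (by omega) Δ hdown hvert hflag hs))

end Pool.Agent.helper58.FS
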