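import Pool.Agent.helper58.FS.Defs

-- module by helper28

/-!
# [FS-C] separators and counting in flag-like graphs
-/

set_option autoImplicit false

open scoped Matrix
open Pool.Agent.helper73.TC

namespace Pool.Agent.helper58.FS

variable {V : Type} [Fintype V] [DecidableEq V] (G : SimpleGraph V) [DecidableRel G.Adj]

theorem clique_insert {σ : Finset V} (hσ : G.IsClique (σ : Set V)) {f : V} (hf : f ∈ cn G σ) :
    G.IsClique ((insert f σ : Finset V) : Set V) := by
  rw [Finset.coe_insert, SimpleGraph.isClique_insert]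
  refine ⟨hσ, fun b hb _ => ?_⟩
  have := (Finset.mem_filter.1 hf).2 b hb
  exact this.symm

theorem cn_insert (σ : Finset V) (f : V) : cn G (insert f σ) = nb G (cn G σ) f := by
  ext v
  simp only [cn, nb, Finset.mem_filter, Finset.mem_univ, true_and, Finset.mem_insert,
    forall_eq_or_imp]
  tauto

theorem not_mem_of_cn {σ : Finset V} {f : V} (hf : f ∈ cn G σ) : f ∉ σ := fun h =>
  (G.loopless.irrefl f) ((Finset.mem_filter.1 hf).2 f h)

/-- every neighbour of `f` has a neighbour far from `f` -/
theorem far_dom {d : ℕ} (h : FlagLike G d) {σ : Finset V} (hσ : G.IsClique (σ : Set V)) {f : V}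
    (hf : f ∈ cn G σ) {u : V} (hu : u ∈ nb G (cn G σ) f) :
    ∃ g ∈ far G (cn G σ) f, G.Adj u g := by
  have hu' := Finset.mem_filter.1 hu
  have hfu : f ∈ cn G (insert u σ) := by
    rw [cn_insert]
    exact Finset.mem_filter.2 ⟨hf, hu'.2.symm⟩
  obtain ⟨g, hg⟩ := h.ne _ (clique_insert G hσ hu'.1) f hfu
  have hg' := Finset.mem_filter.1 hg
  have hg1 := hg'.1
  rw [cn_insert] at hg1
  have hg2 := Finset.mem_filter.1 hg1
  exact ⟨g, Finset.mem_filter.2 ⟨hg2.1, hg'.2⟩, hg2.2⟩

theorem h28_far_sub {σ : Finset V} {f : V} {g : V} (hg : g ∈ far G (cn G σ) f) : g ∈ cn G σ :=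
  (Finset.mem_filter.1 hg).1

theorem h28_card_insert {σ : Finset V} {f : V} (hf : f ∈ cn G σ) :
    (insert f σ).card = σ.card + 1 := Finset.card_insert_of_notMem (not_mem_of_cn G hf)

theorem h28_noSep_aux {d : ℕ} (h : FlagLike G d) {σ : Finset V} (hσ : G.IsClique (σ : Set V))
    (hc : σ.card + 2 ≤ d) {A B : Finset V} (hAB : A ∪ B = cn G σ) (hd : Disjoint A B)
    (hno : ∀ a ∈ A, ∀ b ∈ B, ¬ G.Adj a b) {f : V} (hfA : f ∈ A) : B = ∅ := by
  have hf : f ∈ cn G σ := by rw [← hAB]; exact Finset.mem_union_left _ hfA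
  obtain ⟨u, hu⟩ := h.pure _ (clique_insert G hσ hf) (by rw [h28_card_insert G hf]; omega)
  rw [cn_insert] at hu
  have hu' := Finset.mem_filter.1 hu
  have huA : u ∈ A := by
    have := hu'.1
    rw [← hAB, Finset.mem_union] at this
    rcases this with h1 | h1
    · exact h1
    · exact absurd hu'.2 (hno f hfA u h1)
  obtain ⟨g, hg, hug⟩ := far_dom G h hσ hf hu
  have hgA : g ∈ A := by
    have := h28_far_sub G hg
    rw [← hAB, Finset.mem_union] at this
    rcases this with h1 | h1
    · exact h1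
    · exact absurd hug (hno u huA g h1)
  have key := h.conn σ hσ f hf (far G (cn G σ) f ∩ A) (far G (cn G σ) f ∩ B)
    (by
      rw [← Finset.inter_union_distrib_left, hAB]
      exact Finset.inter_eq_left.2 (Finset.filter_subset _ _))
    (Finset.disjoint_of_subset_left Finset.inter_subset_right
      (Finset.disjoint_of_subset_right Finset.inter_subset_right hd))
    (fun a ha b hb => hno a (Finset.mem_inter.1 ha).2 b (Finset.mem_inter.1 hb).2)
  rcases key with h1 | h1
  · exfalso
    have : g ∈ far G (cn G σ) f ∩ A := Finset.mem_inter.2 ⟨hg, hgA⟩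
    rw [h1] at this
    exact Finset.notMem_empty _ this
  · rw [Finset.eq_empty_iff_forall_notMem]
    intro b hb
    have hbf : b ≠ f := by
      rintro rfl
      exact (Finset.disjoint_left.1 hd) hfA hb
    have hb' : b ∈ far G (cn G σ) f ∩ B := by
      refine Finset.mem_inter.2 ⟨Finset.mem_filter.2 ⟨?_, hbf, hno f hfA b hb⟩, hb⟩
      rw [← hAB]
      exact Finset.mem_union_right _ hb
    rw [h1] at hb'
    exact Finset.notMem_empty _ hb'

theorem noSep_cn {d : ℕ} (h : FlagLike G d) {σ : Finset V} (hσ : G.IsClique (σ : Set V))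
    (hc : σ.card + 2 ≤ d) : NoSep G (cn G σ) := by
  intro A B hAB hd hno
  obtain ⟨f, hf⟩ := h.pure σ hσ (by omega)
  rw [← hAB, Finset.mem_union] at hf
  rcases hf with hf | hf
  · exact Or.inr (h28_noSep_aux G h hσ hc hAB hd hno hf)
  · refine Or.inl (h28_noSep_aux G h hσ hc (by rw [Finset.union_comm]; exact hAB) hd.symm
      (fun a ha b hb hadj => hno b hb a ha hadj.symm) hf)

theorem h28_card_two {S T : Finset V} {f g : V} (hT : T ⊆ S) (hf : f ∈ S) (hg : g ∈ S)
    (hfT : f ∉ T) (hgT : g ∉ T) (hfg : g ≠ f) : T.card + 2 ≤ S.card := by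
  have h1 : insert g (insert f T) ⊆ S := by
    intro x hx
    rcases Finset.mem_insert.1 hx with rfl | hx
    · exact hg
    rcases Finset.mem_insert.1 hx with rfl | hx
    · exact hf
    · exact hT hx
  have h2 := Finset.card_le_card h1
  rw [Finset.card_insert_of_notMem, Finset.card_insert_of_notMem hfT] at h2
  · omega
  · rw [Finset.mem_insert]
    push Not
    exact ⟨hfg, hgT⟩

theorem card_cn {d : ℕ} (h : FlagLike G d) (k : ℕ) {σ : Finset V} (hσ : G.IsClique (σ : Set V))
    (hc : σ.card + k + 1 ≤ d) : 2 * (k + 1) ≤ (cn G σ).card := by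
  induction k generalizing σ with
  | zero =>
    obtain ⟨f, hf⟩ := h.pure σ hσ (by omega)
    obtain ⟨g, hg⟩ := h.ne σ hσ f hf
    have hg' := Finset.mem_filter.1 hg
    have := h28_card_two (S := cn G σ) (T := ∅) (Finset.empty_subset _) hf hg'.1
      (Finset.notMem_empty _) (Finset.notMem_empty _) hg'.2.1
    simpa using this
  | succ k ih =>
    obtain ⟨f, hf⟩ := h.pure σ hσ (by omega)
    obtain ⟨g, hg⟩ := h.ne σ hσ f hf
    have hg' := Finset.mem_filter.1 hg
    have h1 := ih (clique_insert G hσ hf) (by rw [h28_card_insert G hf]; omega)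
    have h2 := h28_card_two (S := cn G σ) (T := cn G (insert f σ))
      (by rw [cn_insert]; exact Finset.filter_subset _ _) hf hg'.1
      (fun hh => not_mem_of_cn G hh (Finset.mem_insert_self _ _))
      (fun hh => by
        rw [cn_insert] at hh
        exact hg'.2.2 (Finset.mem_filter.1 hh).2) hg'.2.1
    omega

/-- a separating triple of `cn σ` -/
structure h28_Sep (σ A F B : Finset V) : Prop where
  hU : A ∪ F ∪ B = cn G σ
  hAF : Disjoint A F
  hAB : Disjoint A B
  hFB : Disjoint F B
  hno : ∀ a ∈ A, ∀ b ∈ B, ¬ G.Adj a b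
  hA : A.Nonempty
  hB : B.Nonempty

theorem h28_Sep.symm {σ A F B : Finset V} (s : h28_Sep G σ A F B) : h28_Sep G σ B F A where
  hU := by
    rw [← s.hU, Finset.union_comm, Finset.union_comm B F, ← Finset.union_assoc]
  hAF := s.hFB.symm
  hAB := s.hAB.symm
  hFB := s.hAF.symm
  hno := fun a ha b hb hadj => s.hno b hb a ha hadj.symm
  hA := s.hB
  hB := s.hA

/-- in a minimal triple every vertex of the separator has a neighbour in the first part -/
theorem h28_adjA {σ A F B : Finset V} (s : h28_Sep G σ A F B)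
    (hmin : ∀ A' F' B' : Finset V, h28_Sep G σ A' F' B' → F.card ≤ F'.card) {f : V} (hf : f ∈ F) :
    ∃ a ∈ A, G.Adj f a := by
  by_contra hcon
  push Not at hcon
  have hfA : f ∉ A := fun h => Finset.disjoint_left.1 s.hAF h hf
  have hfB : f ∉ B := fun h => Finset.disjoint_left.1 s.hFB hf h
  have hs : h28_Sep G σ A (F.erase f) (insert f B) := by
    refine ⟨?_, ?_, ?_, ?_, ?_, s.hA, Finset.insert_nonempty _ _⟩
    · rw [← s.hU]
      ext x
      simp only [Finset.mem_union, Finset.mem_erase, Finset.mem_insert]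
      by_cases hx : x = f
      · subst hx
        simp [hf]
      · simp [hx]
    · exact Finset.disjoint_of_subset_right (Finset.erase_subset _ _) s.hAF
    · rw [Finset.disjoint_insert_right]
      exact ⟨hfA, s.hAB⟩
    · rw [Finset.disjoint_insert_right]
      exact ⟨Finset.notMem_erase _ _,
        Finset.disjoint_of_subset_left (Finset.erase_subset _ _) s.hFB⟩
    · intro a ha b hb
      rcases Finset.mem_insert.1 hb with rfl | hb
      · exact fun hadj => hcon a ha hadj.symm
      · exact s.hno a ha b hb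
  have h1 := hmin _ _ _ hs
  have h2 := Finset.card_erase_lt_of_mem hf
  omega

/-- not all far vertices lie outside the separator -/
theorem h28_far_aux {d : ℕ} (h : FlagLike G d) {σ : Finset V} (hσ : G.IsClique (σ : Set V))
    {A F B : Finset V} (s : h28_Sep G σ A F B) {f : V} (hf : f ∈ F)
    (hall : ∀ g ∈ F, g ≠ f → G.Adj f g) (he : far G (cn G σ) f ∩ B = ∅) : False := by
  have hfc : f ∈ cn G σ := by
    rw [← s.hU]
    exact Finset.mem_union_left _ (Finset.mem_union_right _ hf)
  obtain ⟨b, hb⟩ := s.hB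
  have hbc : b ∈ cn G σ := by
    rw [← s.hU]
    exact Finset.mem_union_right _ hb
  have hbf : b ≠ f := by
    rintro rfl
    exact Finset.disjoint_left.1 s.hFB hf hb
  have hadj : G.Adj f b := by
    by_contra hna
    have : b ∈ far G (cn G σ) f ∩ B :=
      Finset.mem_inter.2 ⟨Finset.mem_filter.2 ⟨hbc, hbf, hna⟩, hb⟩
    rw [he] at this
    exact Finset.notMem_empty _ this
  obtain ⟨g, hg, hbg⟩ := far_dom G h hσ hfc (Finset.mem_filter.2 ⟨hbc, hadj⟩)
  have hg' := Finset.mem_filter.1 hg
  have hgU := hg'.1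
  rw [← s.hU, Finset.mem_union, Finset.mem_union] at hgU
  rcases hgU with (hgA | hgF) | hgB
  · exact s.hno g hgA b hb hbg.symm
  · exact hg'.2.2 (hall g hgF hg'.2.1)
  · have : g ∈ far G (cn G σ) f ∩ B := Finset.mem_inter.2 ⟨hg, hgB⟩
    rw [he] at this
    exact Finset.notMem_empty _ this

theorem h28_exists_far {d : ℕ} (h : FlagLike G d) {σ : Finset V} (hσ : G.IsClique (σ : Set V))
    {A F B : Finset V} (s : h28_Sep G σ A F B) {f : V} (hf : f ∈ F) :
    ∃ g ∈ F, g ≠ f ∧ ¬ G.Adj f g := by
  by_contra hcon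
  push Not at hcon
  have hfc : f ∈ cn G σ := by
    rw [← s.hU]
    exact Finset.mem_union_left _ (Finset.mem_union_right _ hf)
  have key := h.conn σ hσ f hfc (far G (cn G σ) f ∩ A) (far G (cn G σ) f ∩ B)
    (by
      rw [← Finset.inter_union_distrib_left]
      refine Finset.inter_eq_left.2 fun g hg => ?_
      have hg' := Finset.mem_filter.1 hg
      have hgU := hg'.1
      rw [← s.hU, Finset.mem_union, Finset.mem_union] at hgU
      rcases hgU with (hgA | hgF) | hgB
      · exact Finset.mem_union_left _ hgA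
      · exact absurd (hcon g hgF hg'.2.1) hg'.2.2
      · exact Finset.mem_union_right _ hgB)
    (Finset.disjoint_of_subset_left Finset.inter_subset_right
      (Finset.disjoint_of_subset_right Finset.inter_subset_right s.hAB))
    (fun a ha b hb => s.hno a (Finset.mem_inter.1 ha).2 b (Finset.mem_inter.1 hb).2)
  rcases key with h1 | h1
  · exact h28_far_aux G h hσ (s.symm G) hf hcon h1
  · exact h28_far_aux G h hσ s hf hcon h1

theorem h28_sep_main {d : ℕ} (h : FlagLike G d) (k : ℕ) :
    ∀ {σ : Finset V}, G.IsClique (σ : Set V) → σ.card + k + 1 ≤ d → ∀ A F B : Finset V,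
      h28_Sep G σ A F B → 2 * k ≤ F.card := by
  induction k with
  | zero => intros; omega
  | succ k ih =>
    intro σ hσ hc A₀ F₀ B₀ s₀
    classical
    -- a triple with minimal separator
    obtain ⟨F, hF, hFmin⟩ := Finset.exists_min_image
      (Finset.univ.filter fun F : Finset V => ∃ A B : Finset V, h28_Sep G σ A F B)
      (fun F => F.card) ⟨F₀, Finset.mem_filter.2 ⟨Finset.mem_univ _, A₀, B₀, s₀⟩⟩
    obtain ⟨A, B, s⟩ := (Finset.mem_filter.1 hF).2
    have hmin : ∀ A' F' B' : Finset V, h28_Sep G σ A' F' B' → F.card ≤ F'.card :=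
      fun A' F' B' s' => hFmin F' (Finset.mem_filter.2 ⟨Finset.mem_univ _, A', B', s'⟩)
    refine le_trans ?_ (hmin _ _ _ s₀)
    have hFne : F.Nonempty := by
      rw [Finset.nonempty_iff_ne_empty]
      rintro rfl
      have h1 := noSep_cn G h hσ (by omega) A B (by simpa using s.hU) s.hAB s.hno
      rcases h1 with h1 | h1
      · exact s.hA.ne_empty h1
      · exact s.hB.ne_empty h1
    obtain ⟨f, hf⟩ := hFne
    have hfc : f ∈ cn G σ := by
      rw [← s.hU]
      exact Finset.mem_union_left _ (Finset.mem_union_right _ hf)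
    obtain ⟨a, ha, hfa⟩ := h28_adjA G s hmin hf
    obtain ⟨b, hb, hfb⟩ := h28_adjA G (s.symm G) hmin hf
    have s' : h28_Sep G (insert f σ) (A.filter fun u => G.Adj f u) (F.filter fun u => G.Adj f u)
        (B.filter fun u => G.Adj f u) := by
      refine ⟨?_, ?_, ?_, ?_, ?_, ⟨a, Finset.mem_filter.2 ⟨ha, hfa⟩⟩,
        ⟨b, Finset.mem_filter.2 ⟨hb, hfb⟩⟩⟩
      · rw [cn_insert, nb, ← s.hU, Finset.filter_union, Finset.filter_union]
      · exact Finset.disjoint_filter_filter s.hAF
      · exact Finset.disjoint_filter_filter s.hAB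
      · exact Finset.disjoint_filter_filter s.hFB
      · intro x hx y hy
        exact s.hno x (Finset.mem_filter.1 hx).1 y (Finset.mem_filter.1 hy).1
    have h1 := ih (clique_insert G hσ hfc) (by rw [h28_card_insert G hfc]; omega) _ _ _ s'
    obtain ⟨g, hg, hgf, hfg⟩ := h28_exists_far G h hσ s hf
    have h2 := h28_card_two (S := F) (T := F.filter fun u => G.Adj f u)
      (Finset.filter_subset _ _) hf hg
      (fun hh => G.loopless.irrefl f (Finset.mem_filter.1 hh).2)
      (fun hh => hfg (Finset.mem_filter.1 hh).2) hgf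
    omega

/-- separating sets in the link of a face are large -/
theorem sep {d : ℕ} (h : FlagLike G d) (k : ℕ) {σ : Finset V} (hσ : G.IsClique (σ : Set V))
    (hc : σ.card + k + 1 ≤ d) (A F B : Finset V) (hU : A ∪ F ∪ B = cn G σ)
    (hAF : Disjoint A F) (hAB : Disjoint A B) (hFB : Disjoint F B)
    (hno : ∀ a ∈ A, ∀ b ∈ B, ¬ G.Adj a b) (hA : A.Nonempty) (hB : B.Nonempty) :
    2 * k ≤ F.card :=
  h28_sep_main G h k hσ hc A F B ⟨hU, hAF, hAB, hFB, hno, hA, hB⟩

end Pool.Agent.helper58.FS
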