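import Mathlib
import Pool.Agent.helper73.TC.HDefs

/-!
# MP_7ca7f9_al (flag spheres): definitions

Combinatorial part (`FS`): finite graphs, generic rigidity in the linear form
`q v ⬝ᵥ w v = 0`, `q u ⬝ᵥ w v + q v ⬝ᵥ w u = 0` on edges implies `w = A q`, `A` skew.
Topological part: reduced acyclicity of subspaces, with the singular chains of helper73.TC.
-/

set_option autoImplicit false

open scoped Matrix

namespace Pool.Agent.helper58.FS

section Graph
variable {V : Type} [Fintype V] [DecidableEq V] (G : SimpleGraph V) [DecidableRel G.Adj]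

/-- common neighbours of a set of vertices -/
def cn (σ : Finset V) : Finset V := Finset.univ.filter fun v => ∀ u ∈ σ, G.Adj u v

/-- neighbours of `v` in `W` -/
def nb (W : Finset V) (v : V) : Finset V := W.filter fun u => G.Adj v u

/-- closed neighbourhood -/
def st (W : Finset V) (v : V) : Finset V := insert v (nb G W v)

/-- vertices of `W` different from `x` and not adjacent to `x` -/
def far (W : Finset V) (x : V) : Finset V := W.filter fun g => g ≠ x ∧ ¬ G.Adj x g

/-- the induced graph on `S` is connected or empty -/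
def NoSep (S : Finset V) : Prop :=
  ∀ A B : Finset V, A ∪ B = S → Disjoint A B → (∀ a ∈ A, ∀ b ∈ B, ¬ G.Adj a b) → A = ∅ ∨ B = ∅

/-- the three properties of the graph of a flag `(d-1)`-sphere which are used -/
structure FlagLike (d : ℕ) : Prop where
  pure : ∀ σ : Finset V, G.IsClique (σ : Set V) → σ.card + 1 ≤ d → (cn G σ).Nonempty
  ne : ∀ σ : Finset V, G.IsClique (σ : Set V) → ∀ f ∈ cn G σ, (far G (cn G σ) f).Nonempty
  conn : ∀ σ : Finset V, G.IsClique (σ : Set V) → ∀ f ∈ cn G σ, NoSep G (far G (cn G σ) f)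

end Graph

section Rigid
variable {V : Type} [Fintype V] [DecidableEq V] (G : SimpleGraph V)
variable {K : Type} [Field K]

/-- `w` is an infinitesimal motion of `G[W]` at `q` -/
def Motion (ρ : ℕ) (q w : V → Fin ρ → K) (W : Finset V) : Prop :=
  (∀ v ∈ W, q v ⬝ᵥ w v = 0) ∧ ∀ u ∈ W, ∀ v ∈ W, G.Adj u v → q u ⬝ᵥ w v + q v ⬝ᵥ w u = 0

/-- `G[W]` is infinitesimally rigid at `q : V → K^ρ` (linear form) -/
def Rig (ρ : ℕ) (q : V → Fin ρ → K) (W : Finset V) : Prop :=
  ∀ w : V → Fin ρ → K, Motion G ρ q w W →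
    ∃ A : Matrix (Fin ρ) (Fin ρ) K, Aᵀ = -A ∧ ∀ v ∈ W, w v = A *ᵥ q v

/-- `G[W]` is generically rigid in `K^ρ` -/
def GRig (K : Type) [Field K] (ρ : ℕ) (W : Finset V) : Prop :=
  ∃ f : MvPolynomial (V × Fin ρ) K, f ≠ 0 ∧
    ∀ q : V → Fin ρ → K, MvPolynomial.eval (fun x => q x.1 x.2) f ≠ 0 → Rig G ρ q W

end Rigid

section Trick
variable {V : Type} [Fintype V] [DecidableEq V] (G : SimpleGraph V) [DecidableRel G.Adj]
variable {K : Type} [Field K]

/-- hypotheses of the trick at a fixed position `q` -/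
structure TrickHyp (ρ : ℕ) (q : V → Fin ρ → K) (W : Finset V) : Prop where
  gen : ∀ T : Finset V, T.card = ρ → LinearIndependent K (fun v : T => q v)
  piece : ∀ v ∈ W, ∀ x ∈ W, x ≠ v → Rig G ρ q ((st G W v).erase x)
  ov : ∀ v ∈ W, ∀ v' ∈ W, G.Adj v v' → ∀ x ∈ W, x ≠ v → x ≠ v' →
    ρ ≤ ((st G W v).erase x ∩ (st G W v').erase x).card
  sep : ∀ x ∈ W, ∀ A F B : Finset V, A ∪ F ∪ B = nb G W x → Disjoint A F → Disjoint A B →
    Disjoint F B → (∀ a ∈ A, ∀ b ∈ B, ¬ G.Adj a b) → A.Nonempty → B.Nonempty → ρ ≤ F.card + 1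
  conn : NoSep G W
  whole : Rig G ρ q W

end Trick

section Top
open Pool.Agent.helper73.TC
variable (F : Type) [Field F] (X : Type) [TopologicalSpace X]

/-- reduced `H_0` vanishes (the empty space included) -/
def D0 : Prop := ∀ c : SC F X 0, (c.sum fun _ a => a) = 0 → c ∈ bdy F X 0

/-- nonempty, and all reduced homology vanishes -/
structure Acyc : Prop where
  nonempty : Nonempty X
  d0 : D0 F X
  hz : ∀ j : ℕ, 1 ≤ j → HZ F X j

end Top

section Real
variable {n : ℕ} (Δ : Finset (Finset (Fin n)))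

/-- the support of a point -/
noncomputable def supp (x : Fin n → ℝ) : Finset (Fin n) := Finset.univ.filter fun i => x i ≠ 0

/-- the geometric realization -/
def RS : Set (Fin n → ℝ) := {x | (∀ i, 0 ≤ x i) ∧ ∑ i, x i = 1 ∧ supp x ∈ Δ}

/-- the closed face `|τ|` in the realization -/
def fc (τ : Finset (Fin n)) : Set (RS Δ) := {x | supp x.1 ⊆ τ}

/-- the graph of `Δ` -/
def gr : SimpleGraph (Fin n) where
  Adj i j := i ≠ j ∧ ({i, j} : Finset (Fin n)) ∈ Δ
  symm := ⟨fun i j h => ⟨h.1.symm, by rw [Finset.pair_comm]; exact h.2⟩⟩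
  loopless := ⟨fun i h => h.1 rfl⟩

instance : DecidableRel (gr Δ).Adj := fun i j =>
  inferInstanceAs (Decidable (i ≠ j ∧ ({i, j} : Finset (Fin n)) ∈ Δ))

end Real

end Pool.Agent.helper58.FS
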