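import Pool.Agent.helper58.FS.Defs

/-! # [FS-G] one rigid position implies generic rigidity -/

set_option autoImplicit false

open scoped Matrix
open MvPolynomial

namespace Pool.Agent.helper58.FS

section abs
variable {K : Type} [Field K]

theorem h58_absgen {ι X Y T : Type} [Fintype ι] [DecidableEq ι] [AddCommGroup X] [Module K X] [AddCommGroup Y]
    [Module K Y] [AddCommGroup T] [Module K T] [FiniteDimensional K X]
    (Φ : (ι → K) →ₗ[K] (X →ₗ[K] Y)) (τ₀ : T →ₗ[K] X) (τ₁ : (ι → K) →ₗ[K] (T →ₗ[K] X))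
    (hΦτ : ∀ q t, Φ q (τ₀ t + τ₁ q t) = 0) (q₀ : ι → K)
    (h₀ : ∀ x, Φ q₀ x = 0 → ∃ t, τ₀ t + τ₁ q₀ t = x) :
    ∃ f : MvPolynomial ι K, f ≠ 0 ∧ ∀ q, eval q f ≠ 0 → ∀ x, Φ q x = 0 → ∃ t, τ₀ t + τ₁ q t = x := by
  set R : Submodule K X := LinearMap.range (τ₀ + τ₁ q₀) with hR
  obtain ⟨R', hc⟩ := Submodule.exists_isCompl R
  obtain ⟨g, hg⟩ := (τ₀ + τ₁ q₀).rangeRestrict.exists_rightInverse_of_surjective
    (LinearMap.range_rangeRestrict _)
  have hinj : LinearMap.ker ((Φ q₀).comp R'.subtype) = ⊥ := by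
    rw [LinearMap.ker_eq_bot']
    rintro ⟨x, hx⟩ h
    have hxR : x ∈ R := by
      obtain ⟨t, ht⟩ := h₀ x h
      exact ⟨t, by simpa using ht⟩
    have := (Submodule.disjoint_def.1 hc.disjoint) x hxR hx
    exact Subtype.ext this
  obtain ⟨g', hg'⟩ := LinearMap.exists_leftInverse_of_injective _ hinj
  let s : X →ₗ[K] T := g.comp (Submodule.projectionOnto R R' hc)
  let hh : Y →ₗ[K] X := R'.subtype.comp g'
  let Ψ₀ : X →ₗ[K] X := τ₀.comp s
  let Ψ₁ : (ι → K) →ₗ[K] (X →ₗ[K] X) :=
    { toFun := fun q => hh.comp (Φ q) + (τ₁ q).comp s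
      map_add' := fun a b => by
        ext x
        simp only [map_add, LinearMap.comp_apply, LinearMap.add_apply]
        abel
      map_smul' := fun c a => by
        ext x
        simp only [map_smul, LinearMap.comp_apply, LinearMap.add_apply, LinearMap.smul_apply,
          smul_add, RingHom.id_apply] }
  have hΨ : ∀ q x, (Ψ₀ + Ψ₁ q) x = hh (Φ q x) + (τ₀ (s x) + τ₁ q (s x)) := by
    intro q x
    simp only [Ψ₀, Ψ₁, LinearMap.add_apply, LinearMap.comp_apply, LinearMap.coe_mk, AddHom.coe_mk]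
    abel
  have hid : Ψ₀ + Ψ₁ q₀ = LinearMap.id := by
    ext x
    rw [hΨ, LinearMap.id_apply]
    obtain ⟨r, hr⟩ : ∃ r : R, r = Submodule.projectionOnto R R' hc x := ⟨_, rfl⟩
    have hr' : x - r ∈ R' := by
      have : Submodule.projectionOnto R R' hc (x - r) = 0 := by
        rw [map_sub, ← hr, Submodule.projectionOnto_apply_left, sub_self]
      exact (Submodule.projectionOnto_apply_eq_zero_iff hc).1 this
    have h1 : τ₀ (s x) + τ₁ q₀ (s x) = r := by
      have h2 := LinearMap.congr_fun hg r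
      have h3 := congrArg Subtype.val h2
      simp only [LinearMap.comp_apply, LinearMap.id_apply] at h3
      have h4 : s x = g r := by simp only [s, LinearMap.comp_apply, ← hr]
      rw [h4, ← h3]
      rfl
    have hΦr : Φ q₀ (r : X) = 0 := by
      obtain ⟨t, ht⟩ := r.2
      rw [← ht]
      exact hΦτ q₀ t
    have h2 : hh (Φ q₀ x) = x - r := by
      have h3 := LinearMap.congr_fun hg' ⟨x - r, hr'⟩
      simp only [LinearMap.comp_apply, LinearMap.id_apply, Submodule.subtype_apply] at h3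
      have h4 : Φ q₀ x = Φ q₀ (x - r) := by rw [map_sub, hΦr, sub_zero]
      rw [h4]
      exact congrArg Subtype.val h3
    rw [h1, h2, sub_add_cancel]
  let b := Module.finBasis K X
  let P : Matrix (Fin (Module.finrank K X)) (Fin (Module.finrank K X)) (MvPolynomial ι K) :=
    fun i j => C (LinearMap.toMatrix b b Ψ₀ i j) +
      ∑ x, MvPolynomial.X x * C (LinearMap.toMatrix b b (Ψ₁ (Pi.single x 1)) i j)
  have hP : ∀ q, eval q P.det = LinearMap.det (Ψ₀ + Ψ₁ q) := by
    intro q
    rw [← LinearMap.det_toMatrix b, RingHom.map_det]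
    congr 1
    ext i j
    have h1 : Ψ₁ q = ∑ x, q x • Ψ₁ (Pi.single x 1) := by
      conv_lhs => rw [← Finset.univ_sum_single q]
      rw [map_sum]
      refine Finset.sum_congr rfl fun x _ => ?_
      rw [← map_smul]
      congr 1
      rw [← Pi.single_smul, smul_eq_mul, mul_one]
    rw [RingHom.mapMatrix_apply, Matrix.map_apply]
    simp only [P, map_add, map_sum, map_mul, eval_C, eval_X]
    rw [h1, Matrix.add_apply, map_sum, Matrix.sum_apply]
    congr 1
    refine Finset.sum_congr rfl fun x _ => ?_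
    rw [map_smul, Matrix.smul_apply, smul_eq_mul]
  refine ⟨P.det, ?_, ?_⟩
  · intro h
    have := hP q₀
    rw [h, map_zero, hid, LinearMap.det_id] at this
    exact zero_ne_one this
  · intro q hq x hx
    rw [hP] at hq
    have hinj' : Function.Injective (Ψ₀ + Ψ₁ q) := by
      rw [← LinearMap.ker_eq_bot]
      by_contra hne
      have : ⊥ < LinearMap.ker (Ψ₀ + Ψ₁ q) := bot_lt_iff_ne_bot.2 hne
      exact hq (LinearMap.det_eq_zero_iff_ker_ne_bot.2 hne)
    set Rq : Submodule K X := LinearMap.range (τ₀ + τ₁ q) with hRq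
    have hmaps : ∀ y ∈ Rq, (Ψ₀ + Ψ₁ q) y ∈ Rq := by
      rintro y ⟨t, rfl⟩
      rw [hΨ]
      have : Φ q ((τ₀ + τ₁ q) t) = 0 := hΦτ q t
      rw [this, map_zero, zero_add]
      exact ⟨_, rfl⟩
    let ψ : Rq →ₗ[K] Rq := (Ψ₀ + Ψ₁ q).restrict hmaps
    have hψ : Function.Injective ψ := by
      intro a c hac
      apply Subtype.ext
      apply hinj'
      exact congrArg Subtype.val hac
    have hψs : Function.Surjective ψ := LinearMap.injective_iff_surjective.1 hψ
    obtain ⟨r, hr⟩ := hψs ⟨(Ψ₀ + Ψ₁ q) x, by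
      rw [hΨ, hx, map_zero, zero_add]
      exact ⟨_, rfl⟩⟩
    have h1 : (r : X) = x := hinj' (congrArg Subtype.val hr)
    obtain ⟨t, ht⟩ := r.2
    exact ⟨t, by rw [← h1, ← ht]; rfl⟩

end abs

section
variable {V : Type} [Fintype V] [DecidableEq V] (G : SimpleGraph V) {K : Type} [Field K]

/-- skew matrices -/
def h58_skew (K : Type) [Field K] (ρ : ℕ) : Submodule K (Matrix (Fin ρ) (Fin ρ) K) where
  carrier := {A | Aᵀ = -A}
  add_mem' := by
    intro A B hA hB
    simp only [Set.mem_ofPred_eq] at hA hB ⊢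
    rw [Matrix.transpose_add, hA, hB, neg_add]
  zero_mem' := by simp
  smul_mem' := by
    intro c A hA
    simp only [Set.mem_ofPred_eq] at hA ⊢
    rw [Matrix.transpose_smul, hA, smul_neg]

theorem h58g_skew_pair (ρ : ℕ) (A : Matrix (Fin ρ) (Fin ρ) K) (hA : Aᵀ = -A) (a b : Fin ρ → K) :
    a ⬝ᵥ A *ᵥ b + b ⬝ᵥ A *ᵥ a = 0 := by
  have h1 : b ⬝ᵥ A *ᵥ a = (Aᵀ *ᵥ b) ⬝ᵥ a := by
    rw [Matrix.dotProduct_mulVec, Matrix.mulVec_transpose]
  rw [h1, hA, Matrix.neg_mulVec, neg_dotProduct, dotProduct_comm (A *ᵥ b) a, add_neg_cancel]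

theorem h58g_skew_self [CharZero K] (ρ : ℕ) (A : Matrix (Fin ρ) (Fin ρ) K) (hA : Aᵀ = -A)
    (a : Fin ρ → K) : a ⬝ᵥ A *ᵥ a = 0 := by
  have h := h58g_skew_pair ρ A hA a a
  have h2 : (2 : K) * (a ⬝ᵥ A *ᵥ a) = 0 := by rw [two_mul]; exact h
  exact (mul_eq_zero.1 h2).resolve_left two_ne_zero

theorem grig_of_rig [CharZero K] (ρ : ℕ) (q : V → Fin ρ → K) (W : Finset V) (h : Rig G ρ q W) :
    GRig G K ρ W := by
  classical
  -- the rigidity map
  let Φ : (V × Fin ρ → K) →ₗ[K] ((V → Fin ρ → K) →ₗ[K] (V → V → K)) :=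
    LinearMap.mk₂ K (fun (p : V × Fin ρ → K) (w : V → Fin ρ → K) => fun u v =>
      if u ∈ W ∧ v ∈ W then
        (if u = v then (fun i => p (u, i)) ⬝ᵥ w u else
          if G.Adj u v then (fun i => p (u, i)) ⬝ᵥ w v + (fun i => p (v, i)) ⬝ᵥ w u else 0) else 0)
      (by
        intro p p' w
        funext u v
        have : ∀ (a : V) (b : Fin ρ → K), (fun i => p (a, i) + p' (a, i)) ⬝ᵥ b =
            (fun i => p (a, i)) ⬝ᵥ b + (fun i => p' (a, i)) ⬝ᵥ b := fun a b => by
          rw [← add_dotProduct]; rfl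
        simp only [Pi.add_apply, this]
        split_ifs <;> ring)
      (by
        intro c p w
        funext u v
        have : ∀ (a : V) (b : Fin ρ → K), (fun i => c * p (a, i)) ⬝ᵥ b =
            c * ((fun i => p (a, i)) ⬝ᵥ b) := fun a b => by
          rw [← smul_eq_mul, ← smul_dotProduct]; rfl
        simp only [Pi.smul_apply, smul_eq_mul, this]
        split_ifs <;> ring)
      (by
        intro p w w'
        funext u v
        simp only [Pi.add_apply, dotProduct_add]
        split_ifs <;> ring)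
      (by
        intro c p w
        funext u v
        simp only [Pi.smul_apply, dotProduct_smul, smul_eq_mul]
        split_ifs <;> ring)
  let T := (h58_skew K ρ) × (V → Fin ρ → K)
  let τ₀ : T →ₗ[K] (V → Fin ρ → K) :=
    { toFun := fun t v => if v ∈ W then 0 else t.2 v
      map_add' := fun a b => by
        funext v
        change (if v ∈ W then (0 : Fin ρ → K) else (a.2 v + b.2 v)) =
          (if v ∈ W then 0 else a.2 v) + (if v ∈ W then 0 else b.2 v)
        split_ifs
        · rw [add_zero]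
        · rfl
      map_smul' := fun c a => by
        funext v
        change (if v ∈ W then (0 : Fin ρ → K) else (c • a.2 v)) = c • (if v ∈ W then 0 else a.2 v)
        split_ifs
        · rw [smul_zero]
        · rfl }
  let τ₁ : (V × Fin ρ → K) →ₗ[K] (T →ₗ[K] (V → Fin ρ → K)) :=
    LinearMap.mk₂ K (fun (p : V × Fin ρ → K) (t : T) => fun v =>
      if v ∈ W then (t.1 : Matrix (Fin ρ) (Fin ρ) K) *ᵥ (fun i => p (v, i)) else 0)
      (by
        intro p p' t
        funext v
        simp only [Pi.add_apply]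
        split_ifs
        · rw [← Matrix.mulVec_add]; rfl
        · simp)
      (by
        intro c p t
        funext v
        simp only [Pi.smul_apply]
        split_ifs
        · rw [← Matrix.mulVec_smul]; rfl
        · simp)
      (by
        intro p t t'
        funext v
        simp only [Pi.add_apply]
        split_ifs
        · exact Matrix.add_mulVec _ _ _
        · simp)
      (by
        intro c p t
        funext v
        simp only [Pi.smul_apply]
        split_ifs
        · exact Matrix.smul_mulVec _ _ _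
        · simp)
  have hτ : ∀ p (t : T) v, (τ₀ t + τ₁ p t) v =
      if v ∈ W then (t.1 : Matrix (Fin ρ) (Fin ρ) K) *ᵥ (fun i => p (v, i)) else t.2 v := by
    intro p t v
    simp only [τ₀, τ₁, Pi.add_apply, LinearMap.coe_mk, AddHom.coe_mk, LinearMap.mk₂_apply]
    split_ifs <;> simp
  have hΦ : ∀ p (w : V → Fin ρ → K), Φ p w = 0 ↔ Motion G ρ (fun v i => p (v, i)) w W := by
    intro p w
    constructor
    · intro h0
      refine ⟨fun v hv => ?_, fun u hu v hv huv => ?_⟩
      · have := congrFun (congrFun h0 v) v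
        simpa only [Φ, LinearMap.mk₂_apply, hv, and_self, if_true, Pi.zero_apply] using this
      · have := congrFun (congrFun h0 u) v
        simpa only [Φ, LinearMap.mk₂_apply, hu, hv, and_self, if_true, if_neg huv.ne, if_pos huv,
          Pi.zero_apply] using this
    · rintro ⟨h1, h2⟩
      funext u v
      simp only [Φ, LinearMap.mk₂_apply, Pi.zero_apply]
      by_cases huv : u ∈ W ∧ v ∈ W
      · rw [if_pos huv]
        by_cases h3 : u = v
        · rw [if_pos h3]; exact h1 u huv.1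
        · rw [if_neg h3]
          by_cases h4 : G.Adj u v
          · rw [if_pos h4]; exact h2 u huv.1 v huv.2 h4
          · rw [if_neg h4]
      · rw [if_neg huv]
  obtain ⟨f, hf, hgen⟩ := h58_absgen Φ τ₀ τ₁ (by
    intro p t
    rw [hΦ]
    have hA : (t.1 : Matrix (Fin ρ) (Fin ρ) K)ᵀ = -(t.1 : Matrix (Fin ρ) (Fin ρ) K) := t.1.2
    refine ⟨fun v hv => ?_, fun u hu v hv _ => ?_⟩
    · rw [hτ, if_pos hv]
      exact h58g_skew_self ρ _ hA _
    · rw [hτ, hτ, if_pos hu, if_pos hv]
      exact h58g_skew_pair ρ _ hA _ _) (fun x => q x.1 x.2) (by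
    intro w hw
    rw [hΦ] at hw
    obtain ⟨A, hA, hAw⟩ := h w hw
    refine ⟨(⟨A, hA⟩, w), ?_⟩
    funext v
    rw [hτ]
    split_ifs with hv
    · exact (hAw v hv).symm
    · rfl)
  refine ⟨f, hf, fun p hp w hw => ?_⟩
  obtain ⟨t, ht⟩ := hgen (fun x => p x.1 x.2) hp w ((hΦ _ _).2 hw)
  refine ⟨t.1, t.1.2, fun v hv => ?_⟩
  rw [← ht, hτ, if_pos hv]

end

end Pool.Agent.helper58.FS
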