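import Pool.Agent.helper58.FS.Defs
import Pool.Agent.helper58.FS.G
import Pool.Agent.helper58.FS.E

-- module by helper32

set_option autoImplicit false

open scoped Matrix
open Pool.Agent.helper73.TC

namespace Pool.Agent.helper58.FS

variable {V : Type} [Fintype V] [DecidableEq V] (G : SimpleGraph V) {K : Type} [Field K]

private theorem h32_dot_succ {R : Type} [Field R] {ρ : ℕ} (x y : Fin (ρ + 1) → R) :
    x ⬝ᵥ y = x 0 * y 0 + (fun i : Fin ρ => x i.succ) ⬝ᵥ (fun i : Fin ρ => y i.succ) := by
  simp [dotProduct, Fin.sum_univ_succ]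

theorem grig_cone [CharZero K] (ρ : ℕ) (W : Finset V) (v : V) (hv : v ∉ W)
    (hadj : ∀ u ∈ W, G.Adj v u) (h : GRig G K ρ W) : GRig G K (ρ + 1) (insert v W) := by
  classical
  obtain ⟨q, hq, -⟩ := exists_generic G (K := K) ρ {W} (by
    intro W' hW'
    rw [Finset.mem_singleton] at hW'
    rw [hW']
    exact h)
  have hrig : Rig G ρ q W := hq W (Finset.mem_singleton_self W)
  let p : V → Fin (ρ + 1) → K := fun u => if u = v then Fin.cons 1 0 else Fin.cons 0 (q u)
  have pv0 : p v 0 = 1 := by simp [p]
  have pvs : (fun i : Fin ρ => p v i.succ) = 0 := by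
    funext i
    simp [p]
  have pu0 : ∀ u ∈ W, p u 0 = 0 := by
    intro u hu
    have : u ≠ v := fun e => hv (e ▸ hu)
    simp [p, this]
  have pus : ∀ u ∈ W, (fun i : Fin ρ => p u i.succ) = q u := by
    intro u hu
    have : u ≠ v := fun e => hv (e ▸ hu)
    funext i
    simp [p, this]
  refine grig_of_rig G (ρ + 1) p (insert v W) ?_
  intro w hw
  obtain ⟨hloop, hedge⟩ := hw
  have hvI : v ∈ insert v W := Finset.mem_insert_self v W
  have hWI : ∀ u ∈ W, u ∈ insert v W := fun u hu => Finset.mem_insert_of_mem hu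
  have hwv0 : w v 0 = 0 := by
    have := hloop v hvI
    rw [h32_dot_succ, pv0, pvs] at this
    simpa using this
  have hmot : Motion G ρ q (fun u i => w u i.succ) W := by
    refine ⟨?_, ?_⟩
    · intro u hu
      have := hloop u (hWI u hu)
      rw [h32_dot_succ, pu0 u hu, pus u hu] at this
      simpa using this
    · intro u hu u' hu' huu'
      have := hedge u (hWI u hu) u' (hWI u' hu') huu'
      rw [h32_dot_succ, h32_dot_succ (p u'), pu0 u hu, pus u hu, pu0 u' hu', pus u' hu'] at this
      simpa using this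
  obtain ⟨A', hA', hA'w⟩ := hrig _ hmot
  have hwu0 : ∀ u ∈ W, w u 0 = -(q u ⬝ᵥ (fun i : Fin ρ => w v i.succ)) := by
    intro u hu
    have := hedge v hvI u (hWI u hu) (hadj u hu)
    rw [h32_dot_succ, h32_dot_succ (p u), pv0, pvs, pu0 u hu, pus u hu] at this
    simp only [one_mul, zero_dotProduct, add_zero, zero_mul, zero_add] at this
    exact eq_neg_of_add_eq_zero_left this
  let A : Matrix (Fin (ρ + 1)) (Fin (ρ + 1)) K := Matrix.of fun i j =>
    Fin.cases (motive := fun _ => K)
      (Fin.cases (motive := fun _ => K) 0 (fun j => -(w v j.succ)) j)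
      (fun i => Fin.cases (motive := fun _ => K) (w v i.succ) (fun j => A' i j) j) i
  have A00 : A 0 0 = 0 := rfl
  have A0s : ∀ j : Fin ρ, A 0 j.succ = -(w v j.succ) := fun j => rfl
  have As0 : ∀ i : Fin ρ, A i.succ 0 = w v i.succ := fun i => rfl
  have Ass : ∀ i j : Fin ρ, A i.succ j.succ = A' i j := fun i j => rfl
  have hskew : ∀ i j : Fin ρ, A' j i = -(A' i j) := by
    intro i j
    have := congrFun (congrFun hA' i) j
    simpa using this
  refine ⟨A, ?_, ?_⟩
  · ext i j
    rw [Matrix.transpose_apply, Matrix.neg_apply]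
    refine Fin.cases ?_ (fun i => ?_) i
    · refine Fin.cases ?_ (fun j => ?_) j
      · rw [A00, neg_zero]
      · rw [As0, A0s, neg_neg]
    · refine Fin.cases ?_ (fun j => ?_) j
      · rw [As0, A0s]
      · rw [Ass, Ass, hskew]
  · intro u hu
    have hmv : ∀ (x : Fin (ρ + 1) → K) (i : Fin (ρ + 1)),
        (A *ᵥ x) i = A i 0 * x 0 + (fun j : Fin ρ => A i j.succ) ⬝ᵥ (fun j : Fin ρ => x j.succ) := by
      intro x i
      rw [Matrix.mulVec, h32_dot_succ]
    rcases Finset.mem_insert.1 hu with rfl | hu'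
    · funext i
      rw [hmv, pv0, pvs]
      refine Fin.cases ?_ (fun i => ?_) i
      · rw [A00, hwv0]; simp
      · rw [As0]; simp
    · funext i
      rw [hmv, pu0 u hu', pus u hu']
      refine Fin.cases ?_ (fun i => ?_) i
      · have e : (fun j : Fin ρ => A 0 j.succ) = -(fun j : Fin ρ => w v j.succ) := by
          funext j; exact A0s j
        rw [e, hwu0 u hu', mul_zero, zero_add, neg_dotProduct, dotProduct_comm]
      · have e : (fun j : Fin ρ => A i.succ j.succ) = A' i := by
          funext j; exact Ass i j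
        have h1 := congrFun (hA'w u hu') i
        rw [e, mul_zero, zero_add]
        exact h1

end Pool.Agent.helper58.FS
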