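import Pool.Agent.helper58.FS.Defs

-- module by helper28

/-!
# [FS-O] orderings and components of connected vertex sets
-/

set_option autoImplicit false

open scoped Matrix
open Pool.Agent.helper73.TC

namespace Pool.Agent.helper58.FS

variable {V : Type} [Fintype V] [DecidableEq V] (G : SimpleGraph V)

omit [Fintype V] in
theorem h28_order_step (W : Finset V) (hW : NoSep G W) (x : V) (m : ℕ) (e : Fin (m + 1) → V)
    (h0 : e 0 = x) (hmem : ∀ i, e i ∈ W) (hinj : Function.Injective e)
    (hadj : ∀ j : Fin (m + 1), j ≠ 0 → ∃ i, i < j ∧ G.Adj (e i) (e j))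
    (hne : ∃ v ∈ W, ∀ i, e i ≠ v) :
    ∃ e' : Fin (m + 1 + 1) → V, e' 0 = x ∧ (∀ i, e' i ∈ W) ∧ Function.Injective e' ∧
      ∀ j : Fin (m + 1 + 1), j ≠ 0 → ∃ i, i < j ∧ G.Adj (e' i) (e' j) := by
  classical
  obtain ⟨v, hv, hvi⟩ := hne
  have hex : ∃ i : Fin (m + 1), ∃ b ∈ W, (∀ k, e k ≠ b) ∧ G.Adj (e i) b := by
    by_contra hcon
    push Not at hcon
    have h1 := hW (Finset.univ.image e) (W.filter fun b => ∀ k, e k ≠ b)
      (by
        ext b
        simp only [Finset.mem_union, Finset.mem_image, Finset.mem_univ, true_and,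
          Finset.mem_filter]
        constructor
        · rintro (⟨k, rfl⟩ | ⟨hb, _⟩)
          · exact hmem k
          · exact hb
        · intro hb
          by_cases hk : ∃ k, e k = b
          · exact Or.inl hk
          · push Not at hk
            exact Or.inr ⟨hb, hk⟩)
      (by
        rw [Finset.disjoint_left]
        intro b hb hb'
        obtain ⟨k, -, hk⟩ := Finset.mem_image.1 hb
        exact (Finset.mem_filter.1 hb').2 k hk)
      (by
        intro a ha b hb
        obtain ⟨k, -, rfl⟩ := Finset.mem_image.1 ha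
        obtain ⟨hb1, hb2⟩ := Finset.mem_filter.1 hb
        exact hcon k b hb1 hb2)
    rcases h1 with h1 | h1
    · have : e 0 ∈ Finset.univ.image e := Finset.mem_image_of_mem _ (Finset.mem_univ _)
      rw [h1] at this
      exact Finset.notMem_empty _ this
    · have : v ∈ W.filter fun b => ∀ k, e k ≠ b := Finset.mem_filter.2 ⟨hv, hvi⟩
      rw [h1] at this
      exact Finset.notMem_empty _ this
  obtain ⟨i, b, hb, hbk, hib⟩ := hex
  refine ⟨Fin.snoc e b, ?_, ?_, ?_, ?_⟩
  · have : (0 : Fin (m + 1 + 1)) = Fin.castSucc 0 := rfl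
    rw [this, Fin.snoc_castSucc (α := fun _ => V)]
    exact h0
  · intro j
    refine Fin.lastCases ?_ (fun j => ?_) j
    · rw [Fin.snoc_last (α := fun _ => V)]
      exact hb
    · rw [Fin.snoc_castSucc (α := fun _ => V)]
      exact hmem j
  · intro j k
    refine Fin.lastCases ?_ (fun j => ?_) j
    · refine Fin.lastCases ?_ (fun k => ?_) k
      · intro _
        rfl
      · rw [Fin.snoc_last (α := fun _ => V), Fin.snoc_castSucc (α := fun _ => V)]
        intro h
        exact absurd h.symm (hbk k)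
    · refine Fin.lastCases ?_ (fun k => ?_) k
      · rw [Fin.snoc_last (α := fun _ => V), Fin.snoc_castSucc (α := fun _ => V)]
        intro h
        exact absurd h (hbk j)
      · rw [Fin.snoc_castSucc (α := fun _ => V), Fin.snoc_castSucc (α := fun _ => V)]
        intro h
        rw [hinj h]
  · intro j
    refine Fin.lastCases ?_ (fun j => ?_) j
    · intro _
      refine ⟨Fin.castSucc i, Fin.castSucc_lt_last i, ?_⟩
      rw [Fin.snoc_last (α := fun _ => V), Fin.snoc_castSucc (α := fun _ => V)]
      exact hib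
    · intro hj
      have hj' : j ≠ 0 := by
        rintro rfl
        exact hj rfl
      obtain ⟨k, hk, hk'⟩ := hadj j hj'
      refine ⟨Fin.castSucc k, Fin.castSucc_lt_castSucc_iff.2 hk, ?_⟩
      rw [Fin.snoc_castSucc (α := fun _ => V), Fin.snoc_castSucc (α := fun _ => V)]
      exact hk'

/-- enumeration of a connected set starting at `x`, each later vertex adjacent to an earlier one -/
theorem exists_order (W : Finset V) (hW : NoSep G W) (x : V) (hx : x ∈ W) :
    ∃ (r : ℕ) (e : Fin (r + 1) → V), e 0 = x ∧ (∀ i, e i ∈ W) ∧ (∀ v ∈ W, ∃ i, e i = v) ∧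
      Function.Injective e ∧ ∀ j : Fin (r + 1), j ≠ 0 → ∃ i, i < j ∧ G.Adj (e i) (e j) := by
  by_contra hcon
  have key : ∀ m : ℕ, ∃ e : Fin (m + 1) → V, e 0 = x ∧ (∀ i, e i ∈ W) ∧ Function.Injective e ∧
      ∀ j : Fin (m + 1), j ≠ 0 → ∃ i, i < j ∧ G.Adj (e i) (e j) := by
    intro m
    induction m with
    | zero =>
      refine ⟨fun _ => x, rfl, fun _ => hx, fun a b _ => Subsingleton.elim (α := Fin 1) a b,
        fun j hj => absurd (Subsingleton.elim (α := Fin 1) j 0) hj⟩
    | succ m ih =>
      obtain ⟨e, h0, hmem, hinj, hadj⟩ := ih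
      refine h28_order_step G W hW x m e h0 hmem hinj hadj ?_
      by_contra hall
      push Not at hall
      exact hcon ⟨m, e, h0, hmem, hall, hinj, hadj⟩
  obtain ⟨e, -, hmem, hinj, -⟩ := key W.card
  have h1 : (Finset.univ.image e).card ≤ W.card := by
    refine Finset.card_le_card fun v hv => ?_
    obtain ⟨k, -, rfl⟩ := Finset.mem_image.1 hv
    exact hmem k
  rw [Finset.card_image_of_injective _ hinj, Finset.card_univ, Fintype.card_fin] at h1
  omega

/-- the component of `y` in the graph induced on `D` -/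
theorem exists_comp (D : Finset V) (y : V) (hy : y ∈ D) :
    ∃ C : Finset V, C ⊆ D ∧ y ∈ C ∧ NoSep G C ∧ ∀ a ∈ C, ∀ b ∈ D, b ∉ C → ¬ G.Adj a b := by
  classical
  obtain ⟨C, hC, hmin⟩ := Finset.exists_min_image
    (D.powerset.filter fun C => y ∈ C ∧ ∀ a ∈ C, ∀ b ∈ D, b ∉ C → ¬ G.Adj a b)
    (fun C => C.card)
    ⟨D, Finset.mem_filter.2 ⟨Finset.mem_powerset_self _, hy, fun a _ b hb hb' => absurd hb hb'⟩⟩
  obtain ⟨hCD, hyC, hno⟩ := Finset.mem_filter.1 hC
  rw [Finset.mem_powerset] at hCD
  have aux : ∀ A B : Finset V, A ∪ B = C → Disjoint A B → (∀ a ∈ A, ∀ b ∈ B, ¬ G.Adj a b) →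
      y ∈ A → B = ∅ := by
    intro A B hAB hd hn hyA
    have hAC : A ⊆ C := by rw [← hAB]; exact Finset.subset_union_left
    have h1 := hmin A (Finset.mem_filter.2 ⟨Finset.mem_powerset.2 (hAC.trans hCD), hyA,
      fun a ha b hb hbA => by
        by_cases hbC : b ∈ C
        · rw [← hAB, Finset.mem_union] at hbC
          rcases hbC with h | h
          · exact absurd h hbA
          · exact hn a ha b h
        · exact hno a (hAC ha) b hb hbC⟩)
    have h2 : C.card = A.card + B.card := by rw [← hAB, Finset.card_union_of_disjoint hd]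
    rw [← Finset.card_eq_zero]
    omega
  refine ⟨C, hCD, hyC, fun A B hAB hd hn => ?_, hno⟩
  have hy' := hyC
  rw [← hAB, Finset.mem_union] at hy'
  rcases hy' with h | h
  · exact Or.inr (aux A B hAB hd hn h)
  · exact Or.inl (aux B A (by rw [Finset.union_comm]; exact hAB) hd.symm
      (fun a ha b hb hadj => hn b hb a ha hadj.symm) h)

end Pool.Agent.helper58.FS
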