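import Pool.Agent.helper58.FS.Defs
import Pool.Agent.helper58.FS.G
import Pool.Agent.helper58.FS.E

-- module by helper68

/-!
# [FS-U] gluing lemma (skew matrices agreeing on a basis)
-/

set_option autoImplicit false
set_option linter.unusedSectionVars false

open scoped Matrix
open Pool.Agent.helper73.TC

namespace Pool.Agent.helper58.FS

variable {V : Type} [Fintype V] [DecidableEq V] (G : SimpleGraph V) {K : Type} [Field K]

theorem h68_span {ρ : ℕ} {q : V → Fin ρ → K} {T : Finset V} (hT : T.card = ρ)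
    (hli : LinearIndependent K (fun v : T => q v)) :
    Submodule.span K (Set.range (fun v : T => q v)) = ⊤ := by
  apply hli.span_eq_top_of_card_eq_finrank'
  simp [hT]

theorem h68_eq_of_basis {ρ : ℕ} {q : V → Fin ρ → K} {T : Finset V} (hT : T.card = ρ)
    (hli : LinearIndependent K (fun v : T => q v)) {A A' : Matrix (Fin ρ) (Fin ρ) K}
    (h : ∀ v ∈ T, A *ᵥ q v = A' *ᵥ q v) : A = A' := by
  have h1 : Matrix.toLin' A = Matrix.toLin' A' := by
    apply LinearMap.ext_on_range (h68_span hT hli)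
    intro v
    simpa [Matrix.toLin'_apply] using h v v.2
  exact Matrix.toLin'.injective h1

/-- gluing at a fixed position, for one motion `w`: the skew matrices agree -/
theorem glue_fixed (ρ : ℕ) (q w : V → Fin ρ → K)
    (hgen : ∀ T : Finset V, T.card = ρ → LinearIndependent K (fun v : T => q v))
    (D : Finset V) (hD : NoSep G D) (hne : D.Nonempty) (P : V → Finset V)
    (hP : ∀ v ∈ D, ∃ A : Matrix (Fin ρ) (Fin ρ) K, Aᵀ = -A ∧ ∀ u ∈ P v, w u = A *ᵥ q u)
    (hov : ∀ v ∈ D, ∀ v' ∈ D, G.Adj v v' → ρ ≤ (P v ∩ P v').card) :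
    ∃ A : Matrix (Fin ρ) (Fin ρ) K, Aᵀ = -A ∧ ∀ v ∈ D, ∀ u ∈ P v, w u = A *ᵥ q u := by
  classical
  choose! A hA1 hA2 using hP
  obtain ⟨v₀, hv₀⟩ := hne
  have hadj : ∀ v ∈ D, ∀ v' ∈ D, G.Adj v v' → A v = A v' := by
    intro v hv v' hv' hvv
    obtain ⟨T, hT1, hT2⟩ := Finset.exists_subset_card_eq (hov v hv v' hv' hvv)
    refine h68_eq_of_basis hT2 (hgen T hT2) (fun u hu => ?_)
    have hu' := Finset.mem_inter.mp (hT1 hu)
    rw [← hA2 v hv u hu'.1, ← hA2 v' hv' u hu'.2]
  have hall : ∀ v ∈ D, A v = A v₀ := by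
    have h := hD (D.filter fun v => A v = A v₀) (D.filter fun v => ¬ A v = A v₀)
      (Finset.filter_union_filter_not_eq _ _) (Finset.disjoint_filter_filter_not _ _ _) ?_
    · rcases h with h | h
      · exfalso
        have : v₀ ∈ D.filter fun v => A v = A v₀ := by simp [hv₀]
        rw [h] at this
        simp at this
      · intro v hv
        by_contra hc
        have : v ∈ D.filter fun v => ¬ A v = A v₀ := by simp [hv, hc]
        rw [h] at this
        simp at this
    · intro a ha b hb hab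
      rw [Finset.mem_filter] at ha hb
      exact hb.2 ((hadj a ha.1 b hb.1 hab).symm.trans ha.2)
  refine ⟨A v₀, hA1 v₀ hv₀, fun v hv u hu => ?_⟩
  rw [← hall v hv]
  exact hA2 v hv u hu

theorem grig_glue [CharZero K] (ρ : ℕ) (D : Finset V) (hD : NoSep G D) (hne : D.Nonempty)
    (P : V → Finset V) (hP : ∀ v ∈ D, GRig G K ρ (P v))
    (hov : ∀ v ∈ D, ∀ v' ∈ D, G.Adj v v' → ρ ≤ (P v ∩ P v').card) :
    GRig G K ρ (D.biUnion P) := by
  classical
  have : Infinite K := Infinite.of_injective (Nat.cast : ℕ → K) Nat.cast_injective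
  obtain ⟨q, hq1, hq2⟩ := exists_generic (G := G) (K := K) ρ (D.image P) (by
    intro W hW
    obtain ⟨v, hv, rfl⟩ := Finset.mem_image.mp hW
    exact hP v hv)
  refine grig_of_rig (G := G) ρ q _ ?_
  intro w hw
  obtain ⟨A, hA1, hA2⟩ := glue_fixed (G := G) ρ q w hq2 D hD hne P (by
    intro v hv
    refine hq1 (P v) (Finset.mem_image_of_mem P hv) w ?_
    have hsub : P v ⊆ D.biUnion P := Finset.subset_biUnion_of_mem P hv
    exact ⟨fun u hu => hw.1 u (hsub hu), fun u hu u' hu' h => hw.2 u (hsub hu) u' (hsub hu') h⟩) hov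
  refine ⟨A, hA1, fun u hu => ?_⟩
  obtain ⟨v, hv, hu'⟩ := Finset.mem_biUnion.mp hu
  exact hA2 v hv u hu'

/-- `ρ` vertices in general position: a vector orthogonal to all of them is zero -/
theorem eq_zero_of_orth (ρ : ℕ) (q : V → Fin ρ → K)
    (hgen : ∀ T : Finset V, T.card = ρ → LinearIndependent K (fun v : T => q v))
    (S : Finset V) (hS : ρ ≤ S.card) (y : Fin ρ → K) (hy : ∀ v ∈ S, q v ⬝ᵥ y = 0) : y = 0 := by
  classical
  obtain ⟨T, hT1, hT2⟩ := Finset.exists_subset_card_eq hS
  set A : Matrix (Fin ρ) (Fin ρ) K := fun _ j => y j with hA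
  have h0 : A = 0 := by
    refine h68_eq_of_basis hT2 (hgen T hT2) (fun v hv => ?_)
    funext i
    have h1 := hy v (hT1 hv)
    rw [dotProduct_comm] at h1
    simpa [Matrix.mulVec, hA] using h1
  funext j
  have h1 := congrFun (congrFun h0 j) j
  simpa [hA] using h1

end Pool.Agent.helper58.FS
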