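import Pool.Agent.helper58.FS.Defs
import Pool.Agent.helper58.FS.U
import Pool.Agent.helper58.FS.O

-- module by helper19

/-!
# [FS-T1] trick_stage
-/

set_option autoImplicit false

open scoped Matrix
open Pool.Agent.helper73.TC

namespace Pool.Agent.helper58.FS

variable {V : Type} [Fintype V] [DecidableEq V] (G : SimpleGraph V) [DecidableRel G.Adj]
variable {K : Type} [Field K] [CharZero K]

omit [CharZero K] in
theorem h19_skew2 {ρ : ℕ} {A : Matrix (Fin ρ) (Fin ρ) K} (hA : Aᵀ = -A) (a b : Fin ρ → K) :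
    a ⬝ᵥ (A *ᵥ b) + b ⬝ᵥ (A *ᵥ a) = 0 := by
  have h1 : a ⬝ᵥ (A *ᵥ b) = b ⬝ᵥ (Aᵀ *ᵥ a) := by
    rw [Matrix.dotProduct_mulVec, ← Matrix.mulVec_transpose, dotProduct_comm]
  rw [h1, hA, Matrix.neg_mulVec, dotProduct_neg]
  ring

theorem h19_skew1 {ρ : ℕ} {A : Matrix (Fin ρ) (Fin ρ) K} (hA : Aᵀ = -A) (a : Fin ρ → K) :
    a ⬝ᵥ (A *ᵥ a) = 0 := by
  have h := h19_skew2 hA a a
  rw [← two_mul] at h
  exact (mul_eq_zero.1 h).resolve_left two_ne_zero

/-- later stages: `E` = the vertices treated so far, `x` the new one. `w` satisfies the equations off `E`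
with right hand side `z` on the edges at `x`, `z` vanishes on the closed neighbourhood of `E`.
Then `z` vanishes on the neighbours of `x`. -/
theorem trick_stage (ρ : ℕ) (q : V → Fin ρ → K) (W : Finset V) (h : TrickHyp G ρ q W)
    (E : Finset V) (hE : E ⊆ W) (x : V) (hx : x ∈ W) (hxE : x ∉ E) (e₀ : V) (he₀ : e₀ ∈ E)
    (hadj : G.Adj e₀ x) (z : V → K) (hz : ∀ v ∈ W, (v ∈ E ∨ ∃ e ∈ E, G.Adj e v) → z v = 0)
    (w : V → Fin ρ → K) (hloop : ∀ v ∈ W, v ∉ E → q v ⬝ᵥ w v = 0)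
    (hedge : ∀ u ∈ W, u ∉ E → u ≠ x → ∀ v ∈ W, v ∉ E → v ≠ x → G.Adj u v →
      q u ⬝ᵥ w v + q v ⬝ᵥ w u = 0)
    (hxedge : ∀ v ∈ W, v ∉ E → G.Adj x v → q x ⬝ᵥ w v + q v ⬝ᵥ w x = z v) :
    ∀ y ∈ W, G.Adj x y → z y = 0 := by
  intro y hy hxy
  by_cases hyE : y ∈ E ∨ ∃ e ∈ E, G.Adj e y
  · exact hz y hy hyE
  push Not at hyE
  obtain ⟨hyE, hyA⟩ := hyE
  set D := W.filter fun v => v ∉ E ∧ ∀ e ∈ E, ¬ G.Adj e v with hDdef
  have memD : ∀ v, v ∈ D ↔ v ∈ W ∧ v ∉ E ∧ ∀ e ∈ E, ¬ G.Adj e v := fun v => by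
    rw [hDdef, Finset.mem_filter]
  have hyD : y ∈ D := (memD y).2 ⟨hy, hyE, hyA⟩
  obtain ⟨C, hCD, hyC, hC, hsep⟩ := exists_comp G D y hyD
  have hxD : x ∉ D := fun hh => ((memD x).1 hh).2.2 e₀ he₀ hadj
  have hCx : ∀ v ∈ C, v ≠ x := fun v hv hvx => hxD (hvx ▸ hCD hv)
  have hCW : ∀ v ∈ C, v ∈ W := fun v hv => ((memD v).1 (hCD hv)).1
  have hCE : ∀ v ∈ C, v ∉ E := fun v hv => ((memD v).1 (hCD hv)).2.1
  have hCA : ∀ v ∈ C, ∀ e ∈ E, ¬ G.Adj e v := fun v hv => ((memD v).1 (hCD hv)).2.2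
  have memP : ∀ v u, u ∈ (st G W v).erase x ↔ u ≠ x ∧ (u = v ∨ (u ∈ W ∧ G.Adj v u)) := fun v u => by
    rw [Finset.mem_erase, st, Finset.mem_insert, nb, Finset.mem_filter]
  have hPW : ∀ v ∈ C, ∀ u ∈ (st G W v).erase x, u ∈ W ∧ u ∉ E ∧ u ≠ x := fun v hv u hu => by
    obtain ⟨h1, h2⟩ := (memP v u).1 hu
    rcases h2 with rfl | ⟨h2, h3⟩
    · exact ⟨hCW u hv, hCE u hv, h1⟩
    · exact ⟨h2, fun hE' => hCA v hv u hE' h3.symm, h1⟩
  obtain ⟨A, hA, hAw⟩ := glue_fixed G ρ q w h.gen C hC ⟨y, hyC⟩ (fun v => (st G W v).erase x)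
    (fun v hv => h.piece v (hCW v hv) x hx (hCx v hv).symm w
      ⟨fun u hu => hloop u (hPW v hv u hu).1 (hPW v hv u hu).2.1,
        fun u hu u' hu' ha => hedge u (hPW v hv u hu).1 (hPW v hv u hu).2.1 (hPW v hv u hu).2.2
          u' (hPW v hv u' hu').1 (hPW v hv u' hu').2.1 (hPW v hv u' hu').2.2 ha⟩)
    (fun v hv v' hv' ha => h.ov v (hCW v hv) v' (hCW v' hv') ha x hx (hCx v hv).symm
      (hCx v' hv').symm)
  -- the three parts of the neighbourhood of `x`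
  classical
  set F := (nb G W x).filter fun u => u ∉ C ∧ ∃ v ∈ C, G.Adj v u with hFdef
  have memnb : ∀ u, u ∈ nb G W x ↔ u ∈ W ∧ G.Adj x u := fun u => by rw [nb, Finset.mem_filter]
  have memF : ∀ u, u ∈ F ↔ (u ∈ W ∧ G.Adj x u) ∧ u ∉ C ∧ ∃ v ∈ C, G.Adj v u := fun u => by
    rw [hFdef, Finset.mem_filter, memnb]
  have hFcard : ρ ≤ F.card + 1 := by
    refine h.sep x hx ((nb G W x).filter fun u => u ∈ C) F
      ((nb G W x).filter fun u => u ∉ C ∧ ¬ ∃ v ∈ C, G.Adj v u) ?_ ?_ ?_ ?_ ?_ ⟨y, ?_⟩ ⟨e₀, ?_⟩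
    · ext u
      simp only [Finset.mem_union, Finset.mem_filter, hFdef]
      constructor
      · rintro ((h1 | h1) | h1)
        · exact h1.1
        · exact h1.1
        · exact h1.1
      · intro h1
        by_cases h2 : u ∈ C
        · exact Or.inl (Or.inl ⟨h1, h2⟩)
        · by_cases h3 : ∃ v ∈ C, G.Adj v u
          · exact Or.inl (Or.inr ⟨h1, h2, h3⟩)
          · exact Or.inr ⟨h1, h2, h3⟩
    · rw [Finset.disjoint_left]
      intro u hu hu'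
      exact ((memF u).1 hu').2.1 (Finset.mem_filter.1 hu).2
    · rw [Finset.disjoint_left]
      intro u hu hu'
      exact (Finset.mem_filter.1 hu').2.1 (Finset.mem_filter.1 hu).2
    · rw [Finset.disjoint_left]
      intro u hu hu'
      exact (Finset.mem_filter.1 hu').2.2 ((memF u).1 hu).2.2
    · intro a ha b hb hab
      exact (Finset.mem_filter.1 hb).2.2 ⟨a, (Finset.mem_filter.1 ha).2, hab⟩
    · exact Finset.mem_filter.2 ⟨(memnb y).2 ⟨hy, hxy⟩, hyC⟩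
    · refine Finset.mem_filter.2 ⟨(memnb e₀).2 ⟨hE he₀, hadj.symm⟩, fun hh => hCE e₀ hh he₀, ?_⟩
      rintro ⟨v, hv, hve⟩
      exact hCA v hv e₀ he₀ hve.symm
  have hF0 : ∀ u ∈ F, q u ⬝ᵥ (w x - A *ᵥ q x) = 0 := by
    intro u hu
    obtain ⟨⟨huW, hxu⟩, huC, v, hv, hvu⟩ := (memF u).1 hu
    have huE : u ∉ E := fun hh => hCA v hv u hh hvu.symm
    have huD : u ∉ D := fun hh => hsep v hv u hh huC hvu
    have hzu : z u = 0 := by
      apply hz u huW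
      right
      by_contra hcon
      push Not at hcon
      exact huD ((memD u).2 ⟨huW, huE, hcon⟩)
    have hwu : w u = A *ᵥ q u := hAw v hv u ((memP v u).2 ⟨hxu.ne', Or.inr ⟨huW, hvu⟩⟩)
    have he := hxedge u huW huE hxu
    rw [hzu, hwu] at he
    have hs := h19_skew2 hA (q x) (q u)
    rw [dotProduct_sub]
    linear_combination he - hs
  have hx0 : q x ⬝ᵥ (w x - A *ᵥ q x) = 0 := by
    rw [dotProduct_sub, hloop x hx hxE, h19_skew1 hA, sub_zero]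
  have hwx : w x - A *ᵥ q x = 0 := by
    apply eq_zero_of_orth ρ q h.gen (insert x F)
    · rw [Finset.card_insert_of_notMem]
      · exact hFcard
      · intro hh
        exact G.loopless.irrefl x ((memF x).1 hh).1.2
    · intro v hv
      rcases Finset.mem_insert.1 hv with rfl | hv
      · exact hx0
      · exact hF0 v hv
  have hwx' : w x = A *ᵥ q x := sub_eq_zero.1 hwx
  have hwy : w y = A *ᵥ q y := hAw y hyC y ((memP y y).2 ⟨hxy.ne', Or.inl rfl⟩)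
  rw [← hxedge y hy hyE hxy, hwx', hwy]
  exact h19_skew2 hA (q x) (q y)

end Pool.Agent.helper58.FS
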