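import Pool.Agent.helper58.FS.Defs
import Pool.Agent.helper58.FS.U

/-! # [FS-T2] the first stage of the trick -/

set_option autoImplicit false

open scoped Matrix

namespace Pool.Agent.helper58.FS

section
variable {V : Type} [Fintype V] [DecidableEq V] (G : SimpleGraph V) [DecidableRel G.Adj]
variable {K : Type} [Field K] [CharZero K]

omit [CharZero K] in
theorem h58_skew_pair (ρ : ℕ) (A : Matrix (Fin ρ) (Fin ρ) K) (hA : Aᵀ = -A) (a b : Fin ρ → K) :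
    a ⬝ᵥ A *ᵥ b + b ⬝ᵥ A *ᵥ a = 0 := by
  have h1 : b ⬝ᵥ A *ᵥ a = (Aᵀ *ᵥ b) ⬝ᵥ a := by
    rw [Matrix.dotProduct_mulVec, Matrix.mulVec_transpose]
  rw [h1, hA, Matrix.neg_mulVec, neg_dotProduct, dotProduct_comm (A *ᵥ b) a, add_neg_cancel]

theorem h58_skew_self (ρ : ℕ) (A : Matrix (Fin ρ) (Fin ρ) K) (hA : Aᵀ = -A) (a : Fin ρ → K) :
    a ⬝ᵥ A *ᵥ a = 0 := by
  have h := h58_skew_pair ρ A hA a a
  have h2 : (2 : K) * (a ⬝ᵥ A *ᵥ a) = 0 := by rw [two_mul]; exact h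
  exact (mul_eq_zero.1 h2).resolve_left two_ne_zero

/-- first stage -/
theorem trick_first (ρ : ℕ) (q : V → Fin ρ → K) (W : Finset V) (h : TrickHyp G ρ q W)
    (x : V) (hx : x ∈ W) (hne : (far G W x).Nonempty) (hfar : NoSep G (far G W x))
    (hdom : ∀ u ∈ nb G W x, ∃ g ∈ far G W x, G.Adj u g)
    (z : V → K) (w : V → Fin ρ → K) (hloop : ∀ v ∈ W, v ≠ x → q v ⬝ᵥ w v = 0)
    (hedge : ∀ u ∈ W, u ≠ x → ∀ v ∈ W, v ≠ x → G.Adj u v → q u ⬝ᵥ w v + q v ⬝ᵥ w u = 0)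
    (hxloop : q x ⬝ᵥ w x = z x)
    (hxedge : ∀ v ∈ W, G.Adj x v → q x ⬝ᵥ w v + q v ⬝ᵥ w x = z v) :
    ∃ ω : Fin ρ → K, ∀ v ∈ st G W x, z v = q v ⬝ᵥ ω := by
  have hmemst : ∀ {v u}, v ∈ W → u ∈ (st G W v).erase x → u ∈ W ∧ u ≠ x := by
    intro v u hv hu
    rw [Finset.mem_erase] at hu
    refine ⟨?_, hu.1⟩
    rcases Finset.mem_insert.1 hu.2 with rfl | h'
    · exact hv
    · exact (Finset.mem_filter.1 h').1
  obtain ⟨A, hA, hAw⟩ := glue_fixed G ρ q w h.gen (far G W x) hfar hne (fun v => (st G W v).erase x)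
    (by
      intro v hv
      obtain ⟨hvW, hvx, _⟩ := Finset.mem_filter.1 hv
      refine h.piece v hvW x hx hvx.symm w ⟨?_, ?_⟩
      · intro u hu
        obtain ⟨h1, h2⟩ := hmemst hvW hu
        exact hloop u h1 h2
      · intro u hu u' hu' hadj
        obtain ⟨h1, h2⟩ := hmemst hvW hu
        obtain ⟨h3, h4⟩ := hmemst hvW hu'
        exact hedge u h1 h2 u' h3 h4 hadj)
    (by
      intro v hv v' hv' hadj
      obtain ⟨hvW, hvx, _⟩ := Finset.mem_filter.1 hv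
      obtain ⟨hvW', hvx', _⟩ := Finset.mem_filter.1 hv'
      exact h.ov v hvW v' hvW' hadj x hx hvx.symm hvx'.symm)
  -- on the neighbours of `x`, `w = A q`
  have hnb : ∀ u ∈ nb G W x, w u = A *ᵥ q u := by
    intro u hu
    obtain ⟨g, hg, hug⟩ := hdom u hu
    obtain ⟨huW, hxu⟩ := Finset.mem_filter.1 hu
    refine hAw g hg u (Finset.mem_erase.2 ⟨hxu.ne', ?_⟩)
    exact Finset.mem_insert_of_mem (Finset.mem_filter.2 ⟨huW, hug.symm⟩)
  refine ⟨w x - A *ᵥ q x, fun v hv => ?_⟩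
  rcases Finset.mem_insert.1 hv with rfl | hv
  · rw [dotProduct_sub, h58_skew_self ρ A hA, sub_zero, hxloop]
  · obtain ⟨hvW, hxv⟩ := Finset.mem_filter.1 hv
    rw [dotProduct_sub, ← hxedge v hvW hxv, hnb v hv]
    have := h58_skew_pair ρ A hA (q x) (q v)
    linear_combination this

end

end Pool.Agent.helper58.FS
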