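import Pool.Agent.helper58.FS.Defs
import Pool.Agent.helper58.FS.T1
import Pool.Agent.helper58.FS.T2
import Pool.Agent.helper58.FS.L
import Pool.Agent.helper58.FS.O

/-! # [FS-T3] the trick: a generic linear form is injective modulo the span -/

set_option autoImplicit false

open scoped Matrix

namespace Pool.Agent.helper58.FS

section
variable {V : Type} [Fintype V] [DecidableEq V] (G : SimpleGraph V) [DecidableRel G.Adj]
variable {K : Type} [Field K]

/-- multiplication by `∑ t v x_v` into degree two -/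
def h58_P (W : Finset V) (t : V → K) : (V → K) →ₗ[K] (V → V → K) where
  toFun l := fun u v => if u ∈ W ∧ v ∈ W then
    (if u = v then t u * l u else if G.Adj u v then t u * l v + t v * l u else 0) else 0
  map_add' a b := by
    funext u v
    simp only [Pi.add_apply]
    split_ifs <;> ring
  map_smul' c a := by
    funext u v
    simp only [Pi.smul_apply, smul_eq_mul, RingHom.id_apply]
    split_ifs <;> ring

/-- multiplication by the `ρ` forms into degree two -/
def h58_Th (ρ : ℕ) (q : V → Fin ρ → K) (W : Finset V) : (V → Fin ρ → K) →ₗ[K] (V → V → K) where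
  toFun w := fun u v => if u ∈ W ∧ v ∈ W then
    (if u = v then q u ⬝ᵥ w u else if G.Adj u v then q u ⬝ᵥ w v + q v ⬝ᵥ w u else 0) else 0
  map_add' a b := by
    funext u v
    simp only [Pi.add_apply, dotProduct_add]
    split_ifs <;> ring
  map_smul' c a := by
    funext u v
    simp only [Pi.smul_apply, dotProduct_smul, smul_eq_mul, RingHom.id_apply]
    split_ifs <;> ring

/-- the span of the forms, restricted to `W` -/
def h58_U (ρ : ℕ) (q : V → Fin ρ → K) (W : Finset V) : Submodule K (V → K) where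
  carrier := {l | ∃ ω : Fin ρ → K, ∀ v ∈ W, l v = q v ⬝ᵥ ω}
  add_mem' := by
    rintro a b ⟨ω, h⟩ ⟨ω', h'⟩
    exact ⟨ω + ω', fun v hv => by rw [Pi.add_apply, h v hv, h' v hv, dotProduct_add]⟩
  zero_mem' := ⟨0, fun v _ => by simp⟩
  smul_mem' := by
    rintro c a ⟨ω, h⟩
    exact ⟨c • ω, fun v hv => by rw [Pi.smul_apply, h v hv, dotProduct_smul]⟩

omit [Fintype V] in
theorem h58_U_le (ρ : ℕ) (q : V → Fin ρ → K) (W : Finset V) (t : V → K) :
    h58_U ρ q W ≤ (LinearMap.range (h58_Th G ρ q W)).comap (h58_P G W t) := by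
  rintro l ⟨ω, hω⟩
  refine ⟨fun v => t v • ω, ?_⟩
  funext u v
  simp only [h58_Th, h58_P, LinearMap.coe_mk, AddHom.coe_mk, dotProduct_smul, smul_eq_mul]
  by_cases h : u ∈ W ∧ v ∈ W
  · rw [if_pos h, if_pos h, hω u h.1, hω v h.2]
    split_ifs <;> ring
  · rw [if_neg h, if_neg h]

/-- pairs off `E` agree with some `Θ w` -/
def h58_N (ρ : ℕ) (q : V → Fin ρ → K) (W E : Finset V) : Submodule K (V → V → K) where
  carrier := {y | ∃ w : V → Fin ρ → K, ∀ u v, u ∉ E → v ∉ E → y u v = h58_Th G ρ q W w u v}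
  add_mem' := by
    rintro a b ⟨w, h⟩ ⟨w', h'⟩
    refine ⟨w + w', fun u v hu hv => ?_⟩
    rw [map_add, Pi.add_apply, Pi.add_apply, h u v hu hv, h' u v hu hv, Pi.add_apply, Pi.add_apply]
  zero_mem' := ⟨0, fun u v _ _ => by rw [map_zero]⟩
  smul_mem' := by
    rintro c a ⟨w, h⟩
    refine ⟨c • w, fun u v hu hv => ?_⟩
    rw [map_smul, Pi.smul_apply, Pi.smul_apply, h u v hu hv, Pi.smul_apply, Pi.smul_apply]

end

section
variable {V : Type} [Fintype V] [DecidableEq V] (G : SimpleGraph V) [DecidableRel G.Adj]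
variable {K : Type} [Field K] [CharZero K]

/-- the linear algebra core: the class of `z` is zero -/
theorem h58_core (ρ : ℕ) (q : V → Fin ρ → K) (W : Finset V) (h : TrickHyp G ρ q W)
    (x : V) (hx : x ∈ W) (hne : (far G W x).Nonempty) (hfar : NoSep G (far G W x))
    (hdom : ∀ u ∈ nb G W x, ∃ g ∈ far G W x, G.Adj u g)
    (r : ℕ) (e : Fin (r + 1) → V) (he0 : e 0 = x) (heW : ∀ i, e i ∈ W)
    (hsurj : ∀ v ∈ W, ∃ i, e i = v) (hinj : Function.Injective e)
    (hadj : ∀ j : Fin (r + 1), j ≠ 0 → ∃ i, i < j ∧ G.Adj (e i) (e j)) (z : V → K)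
    (hz : ∀ j : Fin (r + 1), h58_P G W (Pi.single (e j) 1) z ∈
      h58_N G ρ q W (Finset.univ.filter fun v => ∃ i, i < j ∧ e i = v)) :
    z ∈ h58_U ρ q W := by
  -- first stage
  obtain ⟨ω, hω⟩ : ∃ ω : Fin ρ → K, ∀ v ∈ st G W x, z v = q v ⬝ᵥ ω := by
    obtain ⟨w, hw⟩ := hz 0
    have hw' : ∀ u v, h58_P G W (Pi.single x 1) z u v = h58_Th G ρ q W w u v := by
      intro u v
      rw [← he0]
      apply hw u v <;> simp
    have hne' : ∀ {u v}, G.Adj u v → u ≠ v := fun h => h.ne
    refine trick_first G ρ q W h x hx hne hfar hdom z w ?_ ?_ ?_ ?_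
    · intro v hv hvx
      have := hw' v v
      simp only [h58_P, h58_Th, LinearMap.coe_mk, AddHom.coe_mk, hv, and_self, if_true] at this
      rw [← this, Pi.single_eq_of_ne hvx, zero_mul]
    · intro u hu hux v hv hvx huv
      have := hw' u v
      simp only [h58_P, h58_Th, LinearMap.coe_mk, AddHom.coe_mk, hu, hv, and_self, if_true,
        if_neg huv.ne, if_pos huv] at this
      rw [← this, Pi.single_eq_of_ne hvx, Pi.single_eq_of_ne hux, zero_mul, zero_mul, add_zero]
    · have := hw' x x
      simp only [h58_P, h58_Th, LinearMap.coe_mk, AddHom.coe_mk, hx, and_self, if_true] at this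
      rw [← this, Pi.single_eq_same, one_mul]
    · intro v hv hxv
      have := hw' x v
      simp only [h58_P, h58_Th, LinearMap.coe_mk, AddHom.coe_mk, hx, hv, and_self, if_true,
        if_neg hxv.ne, if_pos hxv] at this
      rw [← this, Pi.single_eq_same, Pi.single_eq_of_ne hxv.ne', zero_mul, one_mul, add_zero]
  -- normalise
  set z' : V → K := fun v => z v - q v ⬝ᵥ ω with hz'def
  have hz' : ∀ j : Fin (r + 1), h58_P G W (Pi.single (e j) 1) z' ∈
      h58_N G ρ q W (Finset.univ.filter fun v => ∃ i, i < j ∧ e i = v) := by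
    intro j
    have h1 : (fun v => q v ⬝ᵥ ω) ∈ h58_U ρ q W := ⟨ω, fun v _ => rfl⟩
    obtain ⟨w, hw⟩ := h58_U_le G ρ q W (Pi.single (e j) 1) h1
    have h2 : h58_P G W (Pi.single (e j) 1) (fun v => q v ⬝ᵥ ω) ∈
        h58_N G ρ q W (Finset.univ.filter fun v => ∃ i, i < j ∧ e i = v) :=
      ⟨w, fun u v _ _ => by rw [hw]⟩
    have h3 : z' = z - (fun v => q v ⬝ᵥ ω) := rfl
    rw [h3, map_sub]
    exact Submodule.sub_mem _ (hz j) h2
  -- induction along the ordering
  have key : ∀ k : ℕ, ∀ hk : k < r + 1, ∀ v ∈ W, (∃ i : Fin (r + 1), (i : ℕ) ≤ k ∧ (v = e i ∨ G.Adj (e i) v)) →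
      z' v = 0 := by
    intro k
    induction k with
    | zero =>
      rintro hk v hv ⟨i, hi, hiv⟩
      have hi0 : i = 0 := Fin.ext (by simpa using hi)
      subst hi0
      rw [he0] at hiv
      have : v ∈ st G W x := by
        rcases hiv with rfl | hiv
        · exact Finset.mem_insert_self _ _
        · exact Finset.mem_insert_of_mem (Finset.mem_filter.2 ⟨hv, hiv⟩)
      rw [hz'def]
      simp only
      rw [hω v this, sub_self]
    | succ k ih =>
      intro hk
      have ih' := ih (by omega)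
      set j : Fin (r + 1) := ⟨k + 1, hk⟩ with hj
      set E : Finset V := Finset.univ.filter fun v => ∃ i, i < j ∧ e i = v with hE
      have hEmem : ∀ {v}, v ∈ E ↔ ∃ i, i < j ∧ e i = v := by
        intro v; simp [hE]
      obtain ⟨i₀, hi₀, hadj₀⟩ := hadj j (by simp [hj, Fin.ext_iff])
      have hxE : e j ∉ E := by
        rw [hEmem]
        rintro ⟨i, hi, hij⟩
        exact absurd (hinj hij) (ne_of_lt hi)
      have hzE : ∀ v ∈ W, (v ∈ E ∨ ∃ a ∈ E, G.Adj a v) → z' v = 0 := by
        intro v hv hv'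
        apply ih' v hv
        rcases hv' with hv' | ⟨a, ha, hav⟩
        · obtain ⟨i, hi, rfl⟩ := hEmem.1 hv'
          exact ⟨i, by have := Fin.lt_def.1 hi; simp [hj] at this; omega, Or.inl rfl⟩
        · obtain ⟨i, hi, rfl⟩ := hEmem.1 ha
          exact ⟨i, by have := Fin.lt_def.1 hi; simp [hj] at this; omega, Or.inr hav⟩
      have hzx : z' (e j) = 0 := hzE _ (heW j) (Or.inr ⟨e i₀, hEmem.2 ⟨i₀, hi₀, rfl⟩, hadj₀⟩)
      obtain ⟨w, hw⟩ := hz' j
      have hstage := trick_stage G ρ q W h E (by
          intro v hv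
          obtain ⟨i, _, rfl⟩ := hEmem.1 hv
          exact heW i) (e j) (heW j) hxE (e i₀) (hEmem.2 ⟨i₀, hi₀, rfl⟩) hadj₀ z' hzE w
        (by
          intro v hv hvE
          have := hw v v hvE hvE
          simp only [h58_P, h58_Th, LinearMap.coe_mk, AddHom.coe_mk, hv, and_self, if_true] at this
          rw [← this]
          by_cases hvx : v = e j
          · rw [hvx, hzx, mul_zero]
          · rw [Pi.single_eq_of_ne hvx, zero_mul])
        (by
          intro u hu huE hux v hv hvE hvx huv
          have := hw u v huE hvE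
          simp only [h58_P, h58_Th, LinearMap.coe_mk, AddHom.coe_mk, hu, hv, and_self, if_true,
            if_neg huv.ne, if_pos huv] at this
          rw [← this, Pi.single_eq_of_ne hvx, Pi.single_eq_of_ne hux, zero_mul, zero_mul, add_zero])
        (by
          intro v hv hvE hxv
          have := hw (e j) v hxE hvE
          simp only [h58_P, h58_Th, LinearMap.coe_mk, AddHom.coe_mk, heW j, hv, and_self, if_true,
            if_neg hxv.ne, if_pos hxv] at this
          rw [← this, Pi.single_eq_same, Pi.single_eq_of_ne hxv.ne', zero_mul, one_mul, add_zero])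
      rintro v hv ⟨i, hi, hiv⟩
      rcases Nat.lt_or_ge (i : ℕ) (k + 1) with hlt | hge
      · exact ih' v hv ⟨i, by omega, hiv⟩
      · have hij : i = j := Fin.ext (by simp [hj]; omega)
        subst hij
        rcases hiv with rfl | hiv
        · exact hzx
        · exact hstage v hv hiv
  refine ⟨ω, fun v hv => ?_⟩
  obtain ⟨i, hi⟩ := hsurj v hv
  have := key i i.2 v hv ⟨i, le_rfl, Or.inl hi.symm⟩
  rw [hz'def] at this
  simp only at this
  exact sub_eq_zero.1 this

/-- some `t` makes the multiplication injective modulo the span of the linear forms -/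
theorem trick_inj (ρ : ℕ) (q : V → Fin ρ → K) (W : Finset V) (h : TrickHyp G ρ q W)
    (x : V) (hx : x ∈ W) (hne : (far G W x).Nonempty) (hfar : NoSep G (far G W x))
    (hdom : ∀ u ∈ nb G W x, ∃ g ∈ far G W x, G.Adj u g) :
    ∃ t : V → K, ∀ (l : V → K) (w : V → Fin ρ → K),
      (∀ v ∈ W, t v * l v = q v ⬝ᵥ w v) →
      (∀ u ∈ W, ∀ v ∈ W, G.Adj u v → t u * l v + t v * l u = q u ⬝ᵥ w v + q v ⬝ᵥ w u) →
      ∃ ω : Fin ρ → K, ∀ v ∈ W, l v = q v ⬝ᵥ ω := by
  have : Infinite K := CharZero.infinite K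
  obtain ⟨r, e, he0, heW, hsurj, hinj, hadj⟩ := exists_order G W h.conn x hx
  set U := h58_U ρ q W with hU
  set T := LinearMap.range (h58_Th G ρ q W) with hT
  let m : Fin (r + 1) → ((V → K) ⧸ U) →ₗ[K] ((V → V → K) ⧸ T) := fun j =>
    U.mapQ T (h58_P G W (Pi.single (e j) 1)) (h58_U_le G ρ q W _)
  have hm : ∀ j l, m j (U.mkQ l) = T.mkQ (h58_P G W (Pi.single (e j) 1) l) := by
    intro j l
    simp only [m, Submodule.mkQ_apply, Submodule.mapQ_apply]
  have hyp : ∀ zq : (V → K) ⧸ U,
      (∀ j : Fin (r + 1), m j zq ∈ ⨆ i : Fin (r + 1), ⨆ _ : i < j, LinearMap.range (m i)) →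
      zq = 0 := by
    intro zq hzq
    obtain ⟨z, rfl⟩ := U.mkQ_surjective zq
    have : z ∈ U := by
      refine h58_core G ρ q W h x hx hne hfar hdom r e he0 heW hsurj hinj hadj z ?_
      intro j
      set E : Finset V := Finset.univ.filter fun v => ∃ i, i < j ∧ e i = v with hE
      have hTN : T ≤ h58_N G ρ q W E := by
        rintro y ⟨w, rfl⟩
        exact ⟨w, fun u v _ _ => rfl⟩
      have hle : (⨆ i : Fin (r + 1), ⨆ _ : i < j, LinearMap.range (m i)) ≤
          (h58_N G ρ q W E).map T.mkQ := by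
        refine iSup_le fun i => iSup_le fun hi => ?_
        rintro y ⟨lq, rfl⟩
        obtain ⟨l, rfl⟩ := U.mkQ_surjective lq
        rw [hm]
        refine Submodule.mem_map_of_mem ⟨0, fun u v hu hv => ?_⟩
        have hu' : u ≠ e i := by
          rintro rfl
          exact hu (by simp only [hE, Finset.mem_filter, Finset.mem_univ, true_and]; exact ⟨i, hi, rfl⟩)
        have hv' : v ≠ e i := by
          rintro rfl
          exact hv (by simp only [hE, Finset.mem_filter, Finset.mem_univ, true_and]; exact ⟨i, hi, rfl⟩)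
        rw [map_zero]
        simp only [h58_P, LinearMap.coe_mk, AddHom.coe_mk, Pi.single_eq_of_ne hu',
          Pi.single_eq_of_ne hv', zero_mul, add_zero, ite_self, Pi.zero_apply]
      have h1 := hle (hzq j)
      rw [hm] at h1
      obtain ⟨y, hy, hyeq⟩ := h1
      have h2 : h58_P G W (Pi.single (e j) 1) z - y ∈ T := by
        rw [← Submodule.ker_mkQ T, LinearMap.mem_ker, map_sub, hyeq, sub_self]
      have h3 := Submodule.add_mem _ (hTN h2) hy
      rwa [sub_add_cancel] at h3
    rw [Submodule.mkQ_apply, Submodule.Quotient.mk_eq_zero]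
    exact this
  obtain ⟨t', ht'⟩ := leading (r + 1) m hyp
  refine ⟨fun v => ∑ j, if e j = v then t' j else 0, fun l w hl1 hl2 => ?_⟩
  have hP : h58_P G W (fun v => ∑ j, if e j = v then t' j else 0) l =
      ∑ j, t' j • h58_P G W (Pi.single (e j) 1) l := by
    funext u v
    simp only [Finset.sum_apply, Pi.smul_apply, smul_eq_mul, h58_P, LinearMap.coe_mk, AddHom.coe_mk]
    by_cases huv : u ∈ W ∧ v ∈ W
    · simp only [if_pos huv]
      have h1 : ∀ a : V, (∑ j, if e j = a then t' j else 0) =
          ∑ j, t' j * (Pi.single (e j) (1 : K) : V → K) a := by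
        intro a
        refine Finset.sum_congr rfl fun j _ => ?_
        by_cases h : e j = a
        · subst h; simp
        · rw [if_neg h, Pi.single_eq_of_ne (fun h' => h h'.symm), mul_zero]
      split_ifs with h2 h3
      · rw [h1, Finset.sum_mul]
        exact Finset.sum_congr rfl fun j _ => by ring
      · rw [h1, h1, Finset.sum_mul, Finset.sum_mul, ← Finset.sum_add_distrib]
        exact Finset.sum_congr rfl fun j _ => by ring
      · simp
    · simp only [if_neg huv, mul_zero, Finset.sum_const_zero]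
  have hΘ : h58_P G W (fun v => ∑ j, if e j = v then t' j else 0) l = h58_Th G ρ q W w := by
    funext u v
    simp only [h58_P, h58_Th, LinearMap.coe_mk, AddHom.coe_mk]
    by_cases huv : u ∈ W ∧ v ∈ W
    · rw [if_pos huv, if_pos huv]
      by_cases h1 : u = v
      · rw [if_pos h1, if_pos h1]
        exact hl1 u huv.1
      · rw [if_neg h1, if_neg h1]
        by_cases h2 : G.Adj u v
        · rw [if_pos h2, if_pos h2]
          exact hl2 u huv.1 v huv.2 h2
        · rw [if_neg h2, if_neg h2]
    · rw [if_neg huv, if_neg huv]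
  have h0 : (∑ j, t' j • m j) (U.mkQ l) = 0 := by
    rw [LinearMap.sum_apply]
    simp only [LinearMap.smul_apply, hm]
    have h1 : ∑ j, t' j • T.mkQ (h58_P G W (Pi.single (e j) 1) l) =
        T.mkQ (h58_P G W (fun v => ∑ j, if e j = v then t' j else 0) l) := by
      rw [hP, map_sum]
      exact Finset.sum_congr rfl fun j _ => by rw [map_smul]
    rw [h1, hΘ, Submodule.mkQ_apply, Submodule.Quotient.mk_eq_zero]
    exact ⟨w, rfl⟩
  have h1 : U.mkQ l = 0 := by
    apply ht'
    simp only [LinearMap.sum_apply, LinearMap.smul_apply] at h0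
    simp only [Finset.sum_apply, LinearMap.smul_apply, map_zero, smul_zero, Finset.sum_const_zero]
    exact h0
  rw [Submodule.mkQ_apply, Submodule.Quotient.mk_eq_zero] at h1
  exact h1

end

end Pool.Agent.helper58.FS
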