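import Pool.Agent.helper58.FS.Defs
import Pool.Agent.helper58.FS.G
import Pool.Agent.helper58.FS.E
import Pool.Agent.helper58.FS.T1
import Pool.Agent.helper58.FS.T3

/-! # [FS-T4] the trick -/

set_option autoImplicit false

open scoped Matrix

namespace Pool.Agent.helper58.FS

section
variable {V : Type} [Fintype V] [DecidableEq V] (G : SimpleGraph V) [DecidableRel G.Adj]
variable {K : Type} [Field K] [CharZero K]

omit [CharZero K] in
theorem h58_cons_dot (ρ : ℕ) (a : K) (b : Fin ρ → K) (c : Fin (ρ + 1) → K) :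
    (Fin.cons a b : Fin (ρ + 1) → K) ⬝ᵥ c = a * c 0 + b ⬝ᵥ fun i => c i.succ := by
  simp only [dotProduct, Fin.sum_univ_succ, Fin.cons_zero, Fin.cons_succ]

theorem trick (ρ : ℕ) (W : Finset V)
    (piece : ∀ v ∈ W, ∀ x ∈ W, x ≠ v → GRig G K ρ ((st G W v).erase x))
    (ov : ∀ v ∈ W, ∀ v' ∈ W, G.Adj v v' → ∀ x ∈ W, x ≠ v → x ≠ v' →
      ρ ≤ ((st G W v).erase x ∩ (st G W v').erase x).card)
    (sep : ∀ x ∈ W, ∀ A F B : Finset V, A ∪ F ∪ B = nb G W x → Disjoint A F → Disjoint A B →
      Disjoint F B → (∀ a ∈ A, ∀ b ∈ B, ¬ G.Adj a b) → A.Nonempty → B.Nonempty → ρ ≤ F.card + 1)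
    (conn : NoSep G W) (whole : GRig G K ρ W)
    (x : V) (hx : x ∈ W) (hne : (far G W x).Nonempty) (hfar : NoSep G (far G W x))
    (hdom : ∀ u ∈ nb G W x, ∃ g ∈ far G W x, G.Adj u g) :
    GRig G K (ρ + 1) W := by
  have : Infinite K := CharZero.infinite K
  obtain ⟨q, hq, hgen⟩ := exists_generic G (K := K) ρ
    (insert W (((W ×ˢ W).filter fun p => p.2 ≠ p.1).image fun p => (st G W p.1).erase p.2))
    (by
      intro S hS
      rcases Finset.mem_insert.1 hS with rfl | hS
      · exact whole
      · obtain ⟨p, hp, rfl⟩ := Finset.mem_image.1 hS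
        obtain ⟨hp1, hp2⟩ := Finset.mem_filter.1 hp
        obtain ⟨h1, h2⟩ := Finset.mem_product.1 hp1
        exact piece _ h1 _ h2 hp2)
  have hT : TrickHyp G ρ q W :=
    { gen := hgen
      piece := fun v hv y hy hyv => hq _ (Finset.mem_insert_of_mem (Finset.mem_image.2
        ⟨(v, y), Finset.mem_filter.2 ⟨Finset.mem_product.2 ⟨hv, hy⟩, hyv⟩, rfl⟩))
      ov := ov
      sep := sep
      conn := conn
      whole := hq _ (Finset.mem_insert_self _ _) }
  obtain ⟨t, ht⟩ := trick_inj G ρ q W hT x hx hne hfar hdom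
  refine grig_of_rig G (ρ + 1) (fun v => Fin.cons (t v) (q v)) W ?_
  rintro y ⟨hloop, hedge⟩
  simp only [h58_cons_dot] at hloop hedge
  obtain ⟨ω, hω⟩ := ht (fun v => y v 0) (fun v => -(fun i => y v i.succ))
    (by
      intro v hv
      rw [dotProduct_neg]
      exact eq_neg_of_add_eq_zero_left (hloop v hv))
    (by
      intro u hu v hv huv
      rw [dotProduct_neg, dotProduct_neg]
      linear_combination hedge u hu v hv huv)
  obtain ⟨A', hA', hAw⟩ := hT.whole (fun v => (fun i => y v i.succ) + t v • ω) ⟨by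
      intro v hv
      rw [dotProduct_add, dotProduct_smul, ← hω v hv, smul_eq_mul]
      linear_combination hloop v hv, by
      intro u hu v hv huv
      rw [dotProduct_add, dotProduct_smul, dotProduct_add, dotProduct_smul, ← hω v hv, ← hω u hu,
        smul_eq_mul, smul_eq_mul]
      linear_combination hedge u hu v hv huv⟩
  have hA'' : ∀ i j, A' j i = - A' i j := fun i j => by
    have := congrFun (congrFun hA' i) j
    simpa using this
  refine ⟨Matrix.of (Fin.cons (Fin.cons 0 ω) fun i => Fin.cons (-ω i) (A' i)), ?_, ?_⟩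
  · ext i j
    refine Fin.cases ?_ (fun i => ?_) i <;> refine Fin.cases ?_ (fun j => ?_) j
    · simp
    · simp
    · simp
    · simpa using hA'' i j
  · intro v hv
    funext i
    refine Fin.cases ?_ (fun i => ?_) i
    · simp only [Matrix.mulVec, Matrix.of_apply, Fin.cons_zero, h58_cons_dot, Fin.cons_succ,
        zero_mul, zero_add]
      rw [dotProduct_comm]
      exact hω v hv
    · simp only [Matrix.mulVec, Matrix.of_apply, Fin.cons_zero, h58_cons_dot, Fin.cons_succ]
      have := congrFun (hAw v hv) i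
      simp only [Pi.add_apply, Pi.smul_apply, smul_eq_mul, Matrix.mulVec] at this
      linear_combination this

end

end Pool.Agent.helper58.FS
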